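import Pool.Agent.J4H4.Mom

/-!
# The mean square of the mollified zeta function, second part
-/

set_option autoImplicit false

open MeasureTheory Filter Topology Complex Set

namespace Pool.Agent.J4H4.Mom

open Pool.Agent.J4H4.Gam

lemma harm_bounds {K : ℕ} (hK : 1 ≤ K) {S : ℝ} (hS : 2 * Real.pi ≤ S) :
    0 ≤ Real.log (S / (2 * Real.pi * K)) + ((harmonic K : ℝ) + Real.eulerMascheroniConstant) ∧
    Real.log (S / (2 * Real.pi * K)) + ((harmonic K : ℝ) + Real.eulerMascheroniConstant) ≤ Real.log S + 2 := by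
  have hK0 : (0 : ℝ) < K := by exact_mod_cast hK
  have hpi := Real.pi_gt_three
  have hS0 : 0 < S := by linarith
  have h1 : Real.log (S / (2 * Real.pi * K)) = Real.log S - Real.log (2 * Real.pi) - Real.log K := by
    rw [Real.log_div hS0.ne' (by positivity), Real.log_mul (by positivity) hK0.ne']
    ring
  have h2 : Real.log K ≤ (harmonic K : ℝ) := by
    have := log_add_one_le_harmonic K
    have h3 : Real.log K ≤ Real.log ((K : ℝ) + 1) := Real.log_le_log hK0 (by linarith)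
    push_cast at this ⊢
    linarith
  have h3 : (harmonic K : ℝ) ≤ 1 + Real.log K := harmonic_le_one_add_log K
  have h4 := Real.one_half_lt_eulerMascheroniConstant
  have h5 := Real.eulerMascheroniConstant_lt_two_thirds
  have h6 : Real.log (2 * Real.pi) ≤ Real.log S := Real.log_le_log (by positivity) hS
  have h7 : 0 ≤ Real.log (2 * Real.pi) := Real.log_nonneg (by linarith)
  rw [h1]
  constructor <;> linarith

/-- one window -/
theorem window {θ' η S C : ℝ} {K N : ℕ} (hN : 2 ≤ N) (hK : 1 ≤ K) (hS : 2 * Real.pi ≤ S)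
    (hC : ∀ L : ℝ, 0 ≤ L →
    ∑ x ∈ Finset.Icc 1 N, ∑ y ∈ Finset.Icc 1 N, Mob.a N x * Mob.a N y * (1 / (Nat.lcm x y : ℝ) *
      (L + Real.log ((Nat.gcd x y : ℝ) ^ 2 / ((x : ℝ) * y)))) ≤ 1 + (L + C) / Real.log N)
    (hk1 : Real.log S ^ 2 ≤ K) (hk2 : (K : ℝ) ≤ 4 * Real.log S ^ 2) (hNS : (N : ℝ) ≤ S ^ θ')
    (H : ∀ k : ℕ, Real.log S ^ 2 ≤ k → (k : ℝ) ≤ 4 * Real.log S ^ 2 → ∀ N : ℕ, (N : ℝ) ≤ S ^ θ' →
    ∀ a : ℕ → ℂ, (∀ n, ‖a n‖ ≤ 1) →
    ‖((∫ t in Set.Ioi (0 : ℝ), Results.MP_4e5e8a_nt.TwistedMomentAsymptotic.weight k S t *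
        ‖riemannZeta (1 / 2 + t * I)‖ ^ 2 *
        ‖∑ n ∈ Finset.Icc 1 N, a n * (n : ℂ) ^ (-(1 / 2 + t * I))‖ ^ 2 : ℝ) : ℂ) -
      ∑ h ∈ Finset.Icc 1 N, ∑ l ∈ Finset.Icc 1 N, a h * (starRingEnd ℂ) (a l) *
        ((1 / (Nat.lcm h l : ℝ) *
          (Real.log (S / (2 * Real.pi * k) * (Nat.gcd h l : ℝ) ^ 2 / ((h : ℝ) * l)) +
            ((harmonic k : ℝ) + Real.eulerMascheroniConstant)) : ℝ) : ℂ)‖ ≤ S ^ (-η)) :
    ∫ t in Ioi (0 : ℝ), w K S t * q N t ≤ 1 + (Real.log S + 2 + C) / Real.log N + S ^ (-η) := by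
  have hK0 : (0 : ℝ) < K := by exact_mod_cast hK
  have hpi := Real.pi_gt_three
  have hS0 : 0 < S := by linarith
  obtain ⟨hL0, hL1⟩ := harm_bounds hK hS
  set L : ℝ := Real.log (S / (2 * Real.pi * K)) + ((harmonic K : ℝ) + Real.eulerMascheroniConstant) with hL
  have h1 := H K hk1 hk2 N hNS (fun n => (Mob.a N n : ℂ)) (fun n => by
    rw [Complex.norm_real, Real.norm_eq_abs]; exact Mob.abs_a_le N n)
  have h2 : (∫ t in Set.Ioi (0 : ℝ), Results.MP_4e5e8a_nt.TwistedMomentAsymptotic.weight K S t *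
        ‖riemannZeta (1 / 2 + t * I)‖ ^ 2 *
        ‖∑ n ∈ Finset.Icc 1 N, (Mob.a N n : ℂ) * (n : ℂ) ^ (-(1 / 2 + t * I))‖ ^ 2) =
      ∫ t in Ioi (0 : ℝ), w K S t * q N t := by
    refine integral_congr_ae (Eventually.of_forall fun t => ?_)
    simp only [q, M, w, Results.MP_4e5e8a_nt.TwistedMomentAsymptotic.weight]
    ring
  have h3 : ∑ h ∈ Finset.Icc 1 N, ∑ l ∈ Finset.Icc 1 N, (Mob.a N h : ℂ) * (starRingEnd ℂ) (Mob.a N l : ℂ) *
        ((1 / (Nat.lcm h l : ℝ) *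
          (Real.log (S / (2 * Real.pi * K) * (Nat.gcd h l : ℝ) ^ 2 / ((h : ℝ) * l)) +
            ((harmonic K : ℝ) + Real.eulerMascheroniConstant)) : ℝ) : ℂ) =
      ((∑ x ∈ Finset.Icc 1 N, ∑ y ∈ Finset.Icc 1 N, Mob.a N x * Mob.a N y * (1 / (Nat.lcm x y : ℝ) *
      (L + Real.log ((Nat.gcd x y : ℝ) ^ 2 / ((x : ℝ) * y)))) : ℝ) : ℂ) := by
    push_cast
    refine Finset.sum_congr rfl fun x hx => Finset.sum_congr rfl fun y hy => ?_
    rw [Finset.mem_Icc] at hx hy
    have hx0 : (0 : ℝ) < x := by exact_mod_cast hx.1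
    have hy0 : (0 : ℝ) < y := by exact_mod_cast hy.1
    have hg0 : (0 : ℝ) < Nat.gcd x y := by exact_mod_cast Nat.gcd_pos_of_pos_left y hx.1
    have e1 : Real.log (S / (2 * Real.pi * K) * (Nat.gcd x y : ℝ) ^ 2 / ((x : ℝ) * y)) +
        ((harmonic K : ℝ) + Real.eulerMascheroniConstant) =
        L + Real.log ((Nat.gcd x y : ℝ) ^ 2 / ((x : ℝ) * y)) := by
      rw [hL, mul_div_assoc, Real.log_mul (by positivity) (by positivity)]
      ring
    have e2 := congrArg (fun r : ℝ => (r : ℂ)) e1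
    push_cast at e2
    rw [Complex.conj_ofReal]
    rw [e2]
  rw [h2, h3, ← Complex.ofReal_sub, Complex.norm_real, Real.norm_eq_abs] at h1
  have h4 := (abs_le.mp h1).2
  have h5 := hC L hL0
  have hlog : 0 < Real.log N := Real.log_pos (by exact_mod_cast (by omega : 1 < N))
  have h6 : (L + C) / Real.log N ≤ (Real.log S + 2 + C) / Real.log N :=
    div_le_div_of_nonneg_right (by linarith) hlog.le
  linarith

/-- the parameter of the Gamma density -/
noncomputable def KK (β T : ℝ) : ℕ := ⌈Real.log (β * T) ^ 2⌉₊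

/-- the length of the mollifier -/
noncomputable def NN (θ T : ℝ) : ℕ := ⌊T ^ θ⌋₊

theorem avg_le {θ : ℝ} (hθ0 : 0 < θ) (hθ : θ < 14 / 27) {α β : ℝ} (hα : 0 < α) (hαβ : α ≤ β) {ε : ℝ}
    (hε : 0 < ε) : ∀ᶠ T : ℝ in atTop, ∀ S : ℝ, α * T ≤ S → S ≤ β * T →
      ∫ t in Ioi (0 : ℝ), w (KK β T) S t * q (NN θ T) t ≤ 1 + 1 / θ + ε := by
  obtain ⟨θ', h1, h2⟩ := exists_between hθ
  obtain ⟨η, hη, hH⟩ := Results.MP_4e5e8a_nt.TwistedMomentAsymptotic.result θ' h2
  obtain ⟨S0, hS0⟩ := eventually_atTop.1 hH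
  obtain ⟨C, hC0, hC⟩ := Mob.form_le
  have hβ : 0 < β := lt_of_lt_of_le hα hαβ
  have hθ'0 : 0 < θ' := hθ0.trans h1
  filter_upwards [eventually_ge_atTop (S0 / α), eventually_gt_atTop (0 : ℝ),
    Real.tendsto_log_atTop.eventually_ge_atTop (4 * |Real.log α| + 4 * |Real.log β| + 4),
    Real.tendsto_log_atTop.eventually_ge_atTop (θ' * |Real.log α| / (θ' - θ)),
    Real.tendsto_log_atTop.eventually_ge_atTop (1 / θ),
    Real.tendsto_log_atTop.eventually_ge_atTop
      ((2 / (ε * θ)) * (|Real.log β| + 2 + C + 1 / θ + ε / 2)),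
    Real.tendsto_log_atTop.eventually_ge_atTop (|Real.log α| + |Real.log (2 / ε)| / η)]
    with T t1 t0 t2 t3 t4 t5 t6 S hS1 hS2
  set x : ℝ := Real.log T with hx
  have aα := neg_abs_le (Real.log α)
  have aα' := le_abs_self (Real.log α)
  have aβ' := le_abs_self (Real.log β)
  have nα := abs_nonneg (Real.log α)
  have nβ := abs_nonneg (Real.log β)
  have hαT : 0 < α * T := mul_pos hα t0
  have hβT : 0 < β * T := mul_pos hβ t0
  have hS0' : 0 < S := lt_of_lt_of_le hαT hS1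
  have lα : Real.log (α * T) = Real.log α + x := by rw [Real.log_mul hα.ne' t0.ne']
  have lβ : Real.log (β * T) = Real.log β + x := by rw [Real.log_mul hβ.ne' t0.ne']
  have lS1 : Real.log α + x ≤ Real.log S := by rw [← lα]; exact Real.log_le_log hαT hS1
  have lS2 : Real.log S ≤ Real.log β + x := by rw [← lβ]; exact Real.log_le_log hS0' hS2
  have hx4 : 4 ≤ x := by linarith
  -- the parameter K
  have hpos1 : 0 ≤ Real.log S := by linarith
  have hk1 : Real.log S ^ 2 ≤ (KK β T : ℕ) := by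
    unfold KK
    refine le_trans ?_ (Nat.le_ceil _)
    rw [lβ]
    exact pow_le_pow_left₀ hpos1 lS2 2
  have hk2 : ((KK β T : ℕ) : ℝ) ≤ 4 * Real.log S ^ 2 := by
    unfold KK
    have h3 := (Nat.ceil_lt_add_one (sq_nonneg (Real.log (β * T)))).le
    refine h3.trans ?_
    rw [lβ]
    have h4 : (Real.log β + x) ^ 2 ≤ (5 / 4 * x) ^ 2 := by
      apply pow_le_pow_left₀ <;> linarith
    have h5 : (3 / 4 * x) ^ 2 ≤ Real.log S ^ 2 := by
      apply pow_le_pow_left₀ <;> linarith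
    nlinarith
  have hK1 : 1 ≤ KK β T := by
    have h3 : (0 : ℝ) < (KK β T : ℕ) := by
      refine lt_of_lt_of_le ?_ hk1
      have : 0 < Real.log S := by linarith
      positivity
    exact_mod_cast h3
  -- S ≥ 2 π
  have h2pi : 2 * Real.pi ≤ S := by
    have h3 : Real.exp 2 ≤ S := by
      have h4 : (2 : ℝ) ≤ Real.log S := by linarith
      calc Real.exp 2 ≤ Real.exp (Real.log S) := Real.exp_le_exp.mpr h4
        _ = S := Real.exp_log hS0'
    have h5 : 2 * Real.pi ≤ Real.exp 2 := by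
      have h6 := Real.exp_one_gt_d9
      have h7 : Real.exp 2 = Real.exp 1 * Real.exp 1 := by rw [← Real.exp_add]; norm_num
      have h8 := Real.pi_lt_d2
      rw [h7]
      nlinarith
    linarith
  -- the length N
  have hTθ : T ^ θ = Real.exp (x * θ) := by rw [Real.rpow_def_of_pos t0]
  have hTθ2 : 2 ≤ T ^ θ := by
    rw [hTθ]
    have h3 : 1 ≤ x * θ := by
      rw [div_le_iff₀ hθ0] at t4
      exact t4
    have h4 := Real.exp_one_gt_d9
    have h5 := Real.exp_le_exp.mpr h3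
    linarith
  have hNle : ((NN θ T : ℕ) : ℝ) ≤ T ^ θ := Nat.floor_le (by positivity)
  have hN2 : 2 ≤ NN θ T := Nat.le_floor (by exact_mod_cast hTθ2)
  have hNge : T ^ θ / 2 ≤ ((NN θ T : ℕ) : ℝ) := by
    have := Nat.lt_floor_add_one (T ^ θ)
    unfold NN
    linarith
  have hNS : ((NN θ T : ℕ) : ℝ) ≤ S ^ θ' := by
    refine hNle.trans ?_
    have h3 : (α * T) ^ θ' ≤ S ^ θ' := Real.rpow_le_rpow hαT.le hS1 hθ'0.le
    refine le_trans ?_ h3
    rw [hTθ, Real.rpow_def_of_pos hαT, lα]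
    apply Real.exp_le_exp.mpr
    have h4 : 0 < θ' - θ := by linarith
    rw [div_le_iff₀ h4] at t3
    nlinarith
  have hlogN : x * θ - 1 ≤ Real.log (NN θ T : ℕ) := by
    have h3 : Real.log (T ^ θ / 2) ≤ Real.log (NN θ T : ℕ) := Real.log_le_log (by positivity) hNge
    rw [Real.log_div (by positivity) (by norm_num), hTθ, Real.log_exp] at h3
    have := Real.log_two_lt_d9
    linarith
  have hlogNpos : 0 < Real.log (NN θ T : ℕ) := Real.log_pos (by exact_mod_cast (by omega : 1 < NN θ T))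
  have hwin := window hN2 hK1 h2pi (fun L hL => hC (NN θ T) hN2 L hL) hk1 hk2 hNS
    (hS0 S (by
      rw [div_le_iff₀ hα] at t1
      linarith))
  refine hwin.trans ?_
  have e1 : (Real.log S + 2 + C) / Real.log (NN θ T : ℕ) ≤ 1 / θ + ε / 2 := by
    rw [div_le_iff₀ hlogNpos]
    have h3 : (1 / θ + ε / 2) * (x * θ - 1) ≤ (1 / θ + ε / 2) * Real.log (NN θ T : ℕ) :=
      mul_le_mul_of_nonneg_left hlogN (by positivity)
    have h4 : (1 / θ + ε / 2) * (x * θ - 1) = x + (ε * θ / 2) * x - 1 / θ - ε / 2 := by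
      field_simp
      ring
    have h5 : |Real.log β| + 2 + C + 1 / θ + ε / 2 ≤ (ε * θ / 2) * x := by
      have h6 := mul_le_mul_of_nonneg_left t5 (show 0 ≤ ε * θ / 2 by positivity)
      have h7 : ε * θ / 2 * ((2 / (ε * θ)) * (|Real.log β| + 2 + C + 1 / θ + ε / 2)) =
          |Real.log β| + 2 + C + 1 / θ + ε / 2 := by
        field_simp
      rw [h7] at h6
      exact h6
    linarith
  have e2 : S ^ (-η) ≤ ε / 2 := by
    rw [Real.rpow_def_of_pos hS0']
    have h3 : Real.log S * -η ≤ Real.log (ε / 2) := by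
      have h4 : Real.log (ε / 2) = -Real.log (2 / ε) := by
        rw [← Real.log_inv, inv_div]
      rw [h4]
      have h5 : |Real.log (2 / ε)| ≤ η * (x - |Real.log α|) := by
        have h6 : |Real.log (2 / ε)| / η ≤ x - |Real.log α| := by linarith
        rwa [div_le_iff₀ hη, mul_comm] at h6
      have h7 := le_abs_self (Real.log (2 / ε))
      have h8 : η * (x - |Real.log α|) ≤ η * Real.log S :=
        mul_le_mul_of_nonneg_left (by linarith) hη.le
      linarith [mul_comm (Real.log S) η]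
    calc Real.exp (Real.log S * -η) ≤ Real.exp (Real.log (ε / 2)) := Real.exp_le_exp.mpr h3
      _ = ε / 2 := Real.exp_log (by positivity)
  linarith

end Pool.Agent.J4H4.Mom
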