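import Mathlib

/-!
# The Green function of the half plane, integrated over a vertical line
-/

set_option autoImplicit false

open MeasureTheory Filter Topology Set

namespace Pool.Agent.J4H4.Gint

/-- `log (((a + x)² + v²) / ((a - x)² + v²))` -/
noncomputable def G0 (a x v : ℝ) : ℝ := Real.log (((a + x) ^ 2 + v ^ 2) / ((a - x) ^ 2 + v ^ 2))

lemma G0_nonneg {a x : ℝ} (hx : 0 ≤ x) (hxa : x < a) (v : ℝ) : 0 ≤ G0 a x v := by
  unfold G0
  have h1 : 0 < a - x := by linarith
  have h2 : 0 < (a - x) ^ 2 + v ^ 2 := by positivity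
  apply Real.log_nonneg
  rw [one_le_div h2]
  nlinarith

lemma G0_cont {a x : ℝ} (hx : 0 ≤ x) (hxa : x < a) : Continuous (G0 a x) := by
  unfold G0
  have h1 : 0 < a - x := by linarith
  have h3 : 0 < a + x := by linarith
  refine Continuous.log (Continuous.div (by fun_prop) (by fun_prop) fun v => ?_) fun v => ?_
  · positivity
  · positivity

/-- antiderivative of `log (s² + v²)` -/
noncomputable def Ph (s v : ℝ) : ℝ := v * Real.log (s ^ 2 + v ^ 2) - 2 * v + 2 * s * Real.arctan (v / s)

lemma hasDeriv_Ph {s : ℝ} (hs : 0 < s) (v : ℝ) : HasDerivAt (Ph s) (Real.log (s ^ 2 + v ^ 2)) v := by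
  have h0 : 0 < s ^ 2 + v ^ 2 := by positivity
  have h1 : HasDerivAt (fun v : ℝ => s ^ 2 + v ^ 2) (2 * v) v := by
    simpa using ((hasDerivAt_id v).pow 2).const_add (s ^ 2)
  have h2 := h1.log h0.ne'
  have h3 := (hasDerivAt_id v).mul h2
  have h4 : HasDerivAt (fun v : ℝ => v / s) (1 / s) v := (hasDerivAt_id v).div_const s
  have h5 := (h4.arctan).const_mul (2 * s)
  have h6 := (h3.sub ((hasDerivAt_id v).const_mul 2)).add h5
  unfold Ph
  refine h6.congr_deriv ?_
  simp only [id]
  have hs' := hs.ne'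
  have h7 : 1 + (v / s) ^ 2 ≠ 0 := by positivity
  have h8 : s ^ 2 + v ^ 2 ≠ 0 := h0.ne'
  field_simp
  ring

lemma int_log {s : ℝ} (hs : 0 < s) (D : ℝ) :
    ∫ v in (-D)..D, Real.log (s ^ 2 + v ^ 2) = 2 * Ph s D := by
  have hc : Continuous (fun v : ℝ => Real.log (s ^ 2 + v ^ 2)) := by
    refine Continuous.log (by fun_prop) fun v => ?_
    positivity
  rw [intervalIntegral.integral_eq_sub_of_hasDerivAt (fun v _ => hasDeriv_Ph hs v)
    (hc.intervalIntegrable _ _)]
  unfold Ph
  rw [neg_div, Real.arctan_neg, neg_sq]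
  ring

/-- the derivative in `s` of `2 Ph s D` is `4 arctan (D / s)` -/
lemma hasDeriv_s {D : ℝ} (s : ℝ) (hs : 0 < s) :
    HasDerivAt (fun s : ℝ => 2 * Ph s D) (4 * Real.arctan (D / s)) s := by
  have h0 : 0 < s ^ 2 + D ^ 2 := by positivity
  have h1 : HasDerivAt (fun s : ℝ => s ^ 2 + D ^ 2) (2 * s) s := by
    simpa using ((hasDerivAt_id s).pow 2).add_const (D ^ 2)
  have h2 := (h1.log h0.ne').const_mul D
  have h4 : HasDerivAt (fun s : ℝ => D / s) (-D / s ^ 2) s := by
    have := (hasDerivAt_inv hs.ne').const_mul D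
    refine this.congr_deriv ?_
    field_simp
  have h5 := ((hasDerivAt_id s).const_mul 2).mul h4.arctan
  have h6 := ((h2.sub_const (2 * D)).add h5).const_mul 2
  unfold Ph
  refine h6.congr_deriv ?_
  simp only [id]
  have hs' := hs.ne'
  have h7 : 1 + (D / s) ^ 2 ≠ 0 := by positivity
  have h8 : s ^ 2 + D ^ 2 ≠ 0 := h0.ne'
  field_simp
  ring

lemma arctan_lower {A D : ℝ} (hA : 0 < A) (hD : 0 < D) :
    Real.pi / 2 - A / D ≤ Real.arctan (D / A) := by
  have h1 : Real.arctan (A / D)⁻¹ = Real.pi / 2 - Real.arctan (A / D) :=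
    Real.arctan_inv_of_pos (by positivity)
  rw [inv_div] at h1
  rw [h1]
  have h2 : Real.arctan (A / D) ≤ A / D := by
    have h3 := Real.le_tan (x := Real.arctan (A / D)) (Real.arctan_nonneg.mpr (by positivity))
      (Real.arctan_lt_pi_div_two _)
    rwa [Real.tan_arctan] at h3
  linarith

/-- the main lower bound -/
theorem G_int {a x D T1 T2 g : ℝ} (hx : 0 < x) (hxa : x < a) (hD : 0 < D) (h1 : T1 ≤ g - D)
    (h2 : g + D ≤ T2) : 8 * x * (Real.pi / 2 - (a + x) / D) ≤ ∫ t in T1..T2, G0 a x (t - g) := by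
  have hA : 0 < a + x := by linarith
  have hB : 0 < a - x := by linarith
  have hcont : Continuous (fun t : ℝ => G0 a x (t - g)) :=
    (G0_cont hx.le hxa).comp (continuous_sub_right g)
  have e1 : ∫ t in (g - D)..(g + D), G0 a x (t - g) ≤ ∫ t in T1..T2, G0 a x (t - g) := by
    refine intervalIntegral.integral_mono_interval h1 (by linarith) h2
      (Filter.Eventually.of_forall fun t => G0_nonneg hx.le hxa _) (hcont.intervalIntegrable _ _)
  have e2 : ∫ t in (g - D)..(g + D), G0 a x (t - g) = ∫ v in (-D)..D, G0 a x v := by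
    rw [intervalIntegral.integral_comp_sub_right (fun v => G0 a x v) g]
    congr 1 <;> ring
  have e3 : ∫ v in (-D)..D, G0 a x v = 2 * Ph (a + x) D - 2 * Ph (a - x) D := by
    rw [← int_log hA, ← int_log hB, ← intervalIntegral.integral_sub]
    · refine intervalIntegral.integral_congr fun v _ => ?_
      unfold G0
      have p1 : 0 < (a + x) ^ 2 + v ^ 2 := by positivity
      have p2 : 0 < (a - x) ^ 2 + v ^ 2 := by positivity
      exact Real.log_div p1.ne' p2.ne'
    · refine Continuous.intervalIntegrable ?_ _ _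
      refine Continuous.log (by fun_prop) fun v => ?_
      positivity
    · refine Continuous.intervalIntegrable ?_ _ _
      refine Continuous.log (by fun_prop) fun v => ?_
      positivity
  have e4 : 4 * Real.arctan (D / (a + x)) * ((a + x) - (a - x)) ≤
      2 * Ph (a + x) D - 2 * Ph (a - x) D := by
    refine Convex.mul_sub_le_image_sub_of_le_deriv (D := Icc (a - x) (a + x)) (convex_Icc _ _)
      (f := fun s => 2 * Ph s D) ?_ ?_ ?_ (a - x) ?_ (a + x) ?_ (by linarith)
    · intro s hs
      exact (hasDeriv_s s (lt_of_lt_of_le hB hs.1)).continuousAt.continuousWithinAt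
    · intro s hs
      rw [interior_Icc] at hs
      exact (hasDeriv_s s (hB.trans hs.1)).differentiableAt.differentiableWithinAt
    · intro s hs
      rw [interior_Icc] at hs
      have hs0 : 0 < s := hB.trans hs.1
      rw [(hasDeriv_s s hs0).deriv]
      have : D / (a + x) ≤ D / s := div_le_div_of_nonneg_left hD.le hs0 hs.2.le
      have := Real.arctan_mono this
      linarith
    · exact ⟨le_rfl, by linarith⟩
    · exact ⟨by linarith, le_rfl⟩
  have e5 := arctan_lower hA hD
  have e6 : 8 * x * (Real.pi / 2 - (a + x) / D) ≤ 4 * Real.arctan (D / (a + x)) * ((a + x) - (a - x)) := by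
    have : 4 * Real.arctan (D / (a + x)) * ((a + x) - (a - x)) = 8 * x * Real.arctan (D / (a + x)) := by
      ring
    rw [this]
    exact mul_le_mul_of_nonneg_left e5 (by linarith)
  rw [e2, e3] at e1
  linarith

end Pool.Agent.J4H4.Gint
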