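import Pool.Agent.J4H4.Poi
import Pool.Agent.J4H4.Gint
import Pool.Agent.H353R2.An

/-!
# The Poisson-Jensen inequality in mean square
-/

set_option autoImplicit false

open MeasureTheory Filter Topology Complex Set

namespace Pool.Agent.J4H4.Blk

open Pool.Agent.J4H4.Poi Pool.Agent.J4H4.Gint

/-- the Poisson mean of `|f|²` on the boundary -/
noncomputable def XX (a : ℝ) (f : ℂ → ℂ) (t : ℝ) : ℝ := ∫ u : ℝ, P a u * ‖f ((t + u : ℝ) * I)‖ ^ 2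

lemma line_cont {f : ℂ → ℂ} (hf : ∀ z : ℂ, 0 ≤ z.re → DifferentiableAt ℂ f z) (t : ℝ) :
    Continuous (fun u : ℝ => f ((t + u : ℝ) * I)) := by
  rw [continuous_iff_continuousAt]
  intro y
  have h1 := (hf ((t + y : ℝ) * I) (by simp)).continuousAt
  exact ContinuousAt.comp (f := fun u : ℝ => ((t + u : ℝ) * I : ℂ)) (g := f) h1 (by fun_prop)

/-- Cauchy-Schwarz for the Poisson integral -/
theorem sq_le {f : ℂ → ℂ} {C a : ℝ} (ha : 0 < a) (hf : ∀ z : ℂ, 0 ≤ z.re → DifferentiableAt ℂ f z)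
    (hb : ∀ z : ℂ, 0 ≤ z.re → ‖f z‖ ≤ C) (t : ℝ) : ‖f (a + t * I)‖ ^ 2 ≤ XX a f t := by
  set g : ℂ → ℂ := fun z => f (z + t * I) with hg
  have hg1 : ∀ z : ℂ, 0 ≤ z.re → DifferentiableAt ℂ g z := by
    intro z hz
    have h1 : DifferentiableAt ℂ f (z + t * I) := hf _ (by simpa using hz)
    exact DifferentiableAt.comp (f := fun z : ℂ => z + t * I) z h1 (by fun_prop)
  have hg2 : ∀ z : ℂ, 0 ≤ z.re → ‖g z‖ ≤ C := fun z hz => hb _ (by simpa using hz)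
  obtain ⟨hi, he⟩ := poisson ha hg1 hg2
  have hgu : ∀ u : ℝ, g (u * I) = f ((t + u : ℝ) * I) := by
    intro u
    simp only [hg]
    congr 1
    push_cast; ring
  have hC : 0 ≤ C := (norm_nonneg _).trans (hb 0 (by simp))
  have hcont : Continuous (fun u : ℝ => ‖f ((t + u : ℝ) * I)‖) := (line_cont hf t).norm
  have hPi := P_integrable ha
  have i1 : Integrable (fun u : ℝ => P a u * ‖f ((t + u : ℝ) * I)‖) :=
    hPi.mul_bdd (c := C) hcont.aestronglyMeasurable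
      (Eventually.of_forall fun u => by rw [norm_norm]; exact hb _ (by simp))
  have i2 : Integrable (fun u : ℝ => P a u * ‖f ((t + u : ℝ) * I)‖ ^ 2) :=
    hPi.mul_bdd (c := C ^ 2) (hcont.pow 2).aestronglyMeasurable
      (Eventually.of_forall fun u => by
        rw [norm_pow, norm_norm]
        exact pow_le_pow_left₀ (norm_nonneg _) (hb _ (by simp)) 2)
  set c : ℝ := ∫ u : ℝ, P a u * ‖f ((t + u : ℝ) * I)‖ with hc
  have h1 : ‖f (a + t * I)‖ ≤ c := by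
    have h2 : f (a + t * I) = ∫ u : ℝ, (P a u : ℂ) * g (u * I) := by rw [he]
    rw [h2]
    refine (norm_integral_le_integral_norm _).trans (le_of_eq ?_)
    rw [hc]
    refine integral_congr_ae (Eventually.of_forall fun u => ?_)
    simp only []
    rw [norm_mul, Complex.norm_real, Real.norm_eq_abs, abs_of_nonneg (P_nonneg ha u), hgu]
  have h0 : 0 ≤ c := (norm_nonneg _).trans h1
  have h2 : c ^ 2 ≤ XX a f t := by
    have h3 : 0 ≤ ∫ u : ℝ, P a u * (‖f ((t + u : ℝ) * I)‖ - c) ^ 2 :=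
      integral_nonneg fun u => mul_nonneg (P_nonneg ha u) (sq_nonneg _)
    have h4 : (fun u : ℝ => P a u * (‖f ((t + u : ℝ) * I)‖ - c) ^ 2) =
        fun u : ℝ => (P a u * ‖f ((t + u : ℝ) * I)‖ ^ 2 - (2 * c) * (P a u * ‖f ((t + u : ℝ) * I)‖)) +
          c ^ 2 * P a u := by
      funext u; ring
    have i3 : Integrable (fun u : ℝ => P a u * ‖f ((t + u : ℝ) * I)‖ ^ 2 -
        (2 * c) * (P a u * ‖f ((t + u : ℝ) * I)‖)) := i2.sub (i1.const_mul (2 * c))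
    rw [h4, integral_add i3 (hPi.const_mul _),
      integral_sub i2 (i1.const_mul _), integral_const_mul, integral_const_mul, P_integral ha,
      ← hc] at h3
    unfold XX
    nlinarith
  exact (pow_le_pow_left₀ (norm_nonneg _) h1 2).trans h2

lemma norm_line (y : ℝ) (ρ : ℂ) : ‖(y * I : ℂ) + (starRingEnd ℂ) ρ‖ = ‖(y * I : ℂ) - ρ‖ := by
  rw [Complex.norm_def, Complex.norm_def]
  congr 1
  rw [Complex.normSq_apply, Complex.normSq_apply]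
  simp
  ring

lemma sq_plus (a t : ℝ) (ρ : ℂ) : ‖(a + t * I : ℂ) + (starRingEnd ℂ) ρ‖ ^ 2 = (a + ρ.re) ^ 2 + (t - ρ.im) ^ 2 := by
  rw [← Complex.normSq_eq_norm_sq, Complex.normSq_apply]
  simp
  ring

lemma sq_minus (a t : ℝ) (ρ : ℂ) : ‖(a + t * I : ℂ) - ρ‖ ^ 2 = (a - ρ.re) ^ 2 + (t - ρ.im) ^ 2 := by
  rw [← Complex.normSq_eq_norm_sq, Complex.normSq_apply]
  simp
  ring

/-- the Poisson-Jensen inequality in mean square -/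
theorem pj {F : ℂ → ℂ} {U : Set ℂ} (hU : IsOpen U) (hUs : ∀ z : ℂ, 0 ≤ z.re → z ∈ U)
    (hF : DifferentiableOn ℂ F U) {C : ℝ} (hC : ∀ z : ℂ, 0 ≤ z.re → ‖F z‖ ≤ C)
    (Z : Finset ℂ) (n : ℂ → ℕ) (hZ : ∀ ρ ∈ Z, 0 < ρ.re)
    (hn : ∀ ρ ∈ Z, (n ρ : ℕ∞) ≤ analyticOrderAt F ρ) {a : ℝ} (ha : 0 < a)
    (haZ : ∀ ρ ∈ Z, ρ.re < a) (t : ℝ) (hne : F (a + t * I) ≠ 0) :
    (∑ ρ ∈ Z, (n ρ : ℝ) * G0 a ρ.re (t - ρ.im)) + Real.log (‖F (a + t * I)‖ ^ 2) ≤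
      Real.log (XX a F t) ∧ 0 < XX a F t := by
  classical
  obtain ⟨g, hg, hFg⟩ := H353.div_pts U hU F hF Z n (fun ρ hρ => hUs ρ (hZ ρ hρ).le) hn
  set f : ℂ → ℂ := fun v => (∏ ρ ∈ Z, (v + (starRingEnd ℂ) ρ) ^ n ρ) * g v with hf
  have hfd : ∀ z : ℂ, 0 ≤ z.re → DifferentiableAt ℂ f z := by
    intro z hz
    have h1 : DifferentiableAt ℂ g z := (hg z (hUs z hz)).differentiableAt (hU.mem_nhds (hUs z hz))
    refine DifferentiableAt.mul ?_ h1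
    have : Differentiable ℂ (fun v : ℂ => ∏ ρ ∈ Z, (v + (starRingEnd ℂ) ρ) ^ n ρ) := by fun_prop
    exact this z
  have hnorm : ∀ z : ℂ, ‖f z‖ * ∏ ρ ∈ Z, ‖z - ρ‖ ^ n ρ = ‖F z‖ * ∏ ρ ∈ Z, ‖z + (starRingEnd ℂ) ρ‖ ^ n ρ := by
    intro z
    rw [hFg z]
    simp only [hf, norm_mul, norm_prod, norm_pow]
    ring
  have hline : ∀ y : ℝ, ‖f (y * I)‖ = ‖F (y * I)‖ := by
    intro y
    have h1 := hnorm (y * I)
    have h2 : ∏ ρ ∈ Z, ‖(y * I : ℂ) + (starRingEnd ℂ) ρ‖ ^ n ρ = ∏ ρ ∈ Z, ‖(y * I : ℂ) - ρ‖ ^ n ρ :=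
      Finset.prod_congr rfl fun ρ _ => by rw [norm_line]
    rw [h2] at h1
    have h3 : ∏ ρ ∈ Z, ‖(y * I : ℂ) - ρ‖ ^ n ρ ≠ 0 := by
      refine Finset.prod_ne_zero_iff.2 fun ρ hρ => pow_ne_zero _ ?_
      rw [norm_ne_zero_iff]
      intro h4
      have h5 := congrArg Complex.re h4
      have := hZ ρ hρ
      simp at h5
      linarith
    exact mul_right_cancel₀ h3 h1
  -- boundedness
  obtain ⟨R, hR0, hR⟩ : ∃ R : ℝ, 0 < R ∧ ∀ ρ ∈ Z, ‖ρ‖ ≤ R / 3 := by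
    have h0 : 0 ≤ ∑ ρ ∈ Z, ‖ρ‖ := Finset.sum_nonneg fun ρ _ => norm_nonneg ρ
    refine ⟨3 * (∑ ρ ∈ Z, ‖ρ‖) + 3, by linarith, fun ρ hρ => ?_⟩
    have h1 := Finset.single_le_sum (f := fun ρ : ℂ => ‖ρ‖) (fun ρ _ => norm_nonneg ρ) hρ
    linarith
  have hbd : ∃ C' : ℝ, ∀ z : ℂ, 0 ≤ z.re → ‖f z‖ ≤ C' := by
    have hK : IsCompact ({z : ℂ | 0 ≤ z.re} ∩ Metric.closedBall (0 : ℂ) R) := by
      refine (isCompact_closedBall (0 : ℂ) R).inter_left ?_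
      exact isClosed_le continuous_const Complex.continuous_re
    obtain ⟨C1, hC1⟩ := hK.exists_bound_of_continuousOn (f := f) (fun z hz =>
      (hfd z hz.1).continuousAt.continuousWithinAt)
    refine ⟨max C1 (C * 2 ^ (∑ ρ ∈ Z, n ρ)), fun z hz => ?_⟩
    rcases le_or_gt ‖z‖ R with h1 | h1
    · exact (hC1 z ⟨hz, by simpa using h1⟩).trans (le_max_left _ _)
    · refine le_trans ?_ (le_max_right _ _)
      have h2 := hnorm z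
      have h3 : ∀ ρ ∈ Z, 0 < ‖z - ρ‖ ∧ ‖z + (starRingEnd ℂ) ρ‖ ≤ 2 * ‖z - ρ‖ := by
        intro ρ hρ
        have h4 := hR ρ hρ
        have h5 := norm_sub_norm_le z ρ
        have h6 := norm_add_le z ((starRingEnd ℂ) ρ)
        rw [Complex.norm_conj] at h6
        constructor <;> linarith
      have h4 : ∏ ρ ∈ Z, ‖z + (starRingEnd ℂ) ρ‖ ^ n ρ ≤ 2 ^ (∑ ρ ∈ Z, n ρ) * ∏ ρ ∈ Z, ‖z - ρ‖ ^ n ρ := by
        rw [← Finset.prod_pow_eq_pow_sum, ← Finset.prod_mul_distrib]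
        refine Finset.prod_le_prod (fun ρ _ => by positivity) fun ρ hρ => ?_
        rw [← mul_pow]
        exact pow_le_pow_left₀ (norm_nonneg _) (h3 ρ hρ).2 _
      have h5 : 0 < ∏ ρ ∈ Z, ‖z - ρ‖ ^ n ρ := Finset.prod_pos fun ρ hρ => pow_pos (h3 ρ hρ).1 _
      have h6 : ‖f z‖ * ∏ ρ ∈ Z, ‖z - ρ‖ ^ n ρ ≤ (C * 2 ^ (∑ ρ ∈ Z, n ρ)) * ∏ ρ ∈ Z, ‖z - ρ‖ ^ n ρ := by
        rw [h2]
        calc _ ≤ ‖F z‖ * (2 ^ (∑ ρ ∈ Z, n ρ) * ∏ ρ ∈ Z, ‖z - ρ‖ ^ n ρ) :=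
              mul_le_mul_of_nonneg_left h4 (norm_nonneg _)
          _ ≤ C * (2 ^ (∑ ρ ∈ Z, n ρ) * ∏ ρ ∈ Z, ‖z - ρ‖ ^ n ρ) :=
              mul_le_mul_of_nonneg_right (hC z hz) (by positivity)
          _ = _ := by ring
      exact le_of_mul_le_mul_right h6 h5
  obtain ⟨C', hC'⟩ := hbd
  have hXX : XX a f t = XX a F t := by
    unfold XX
    refine integral_congr_ae (Eventually.of_forall fun u => ?_)
    simp only []
    rw [hline]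
  have hmain := sq_le ha hfd hC' t
  rw [hXX] at hmain
  -- the logarithms
  have hp1 : ∀ ρ ∈ Z, 0 < (a + ρ.re) ^ 2 + (t - ρ.im) ^ 2 := fun ρ hρ => by
    have := hZ ρ hρ; positivity
  have hp2 : ∀ ρ ∈ Z, 0 < (a - ρ.re) ^ 2 + (t - ρ.im) ^ 2 := fun ρ hρ => by
    have h1 : 0 < a - ρ.re := by linarith [haZ ρ hρ]
    positivity
  have hsq := congrArg (fun x : ℝ => x ^ 2) (hnorm (a + t * I))
  simp only [mul_pow] at hsq
  rw [← Finset.prod_pow, ← Finset.prod_pow] at hsq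
  have e1 : ∏ ρ ∈ Z, (‖(a + t * I : ℂ) - ρ‖ ^ n ρ) ^ 2 = ∏ ρ ∈ Z, ((a - ρ.re) ^ 2 + (t - ρ.im) ^ 2) ^ n ρ :=
    Finset.prod_congr rfl fun ρ _ => by rw [← sq_minus, pow_right_comm]
  have e2 : ∏ ρ ∈ Z, (‖(a + t * I : ℂ) + (starRingEnd ℂ) ρ‖ ^ n ρ) ^ 2 =
      ∏ ρ ∈ Z, ((a + ρ.re) ^ 2 + (t - ρ.im) ^ 2) ^ n ρ :=
    Finset.prod_congr rfl fun ρ _ => by rw [← sq_plus, pow_right_comm]
  rw [e1, e2] at hsq
  have hq1 : 0 < ∏ ρ ∈ Z, ((a - ρ.re) ^ 2 + (t - ρ.im) ^ 2) ^ n ρ :=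
    Finset.prod_pos fun ρ hρ => pow_pos (hp2 ρ hρ) _
  have hq2 : 0 < ∏ ρ ∈ Z, ((a + ρ.re) ^ 2 + (t - ρ.im) ^ 2) ^ n ρ :=
    Finset.prod_pos fun ρ hρ => pow_pos (hp1 ρ hρ) _
  have hF2 : 0 < ‖F (a + t * I)‖ ^ 2 := by
    have := norm_pos_iff.mpr hne
    positivity
  have hf2 : 0 < ‖f (a + t * I)‖ ^ 2 := by
    have h1 : 0 < ‖f (a + t * I)‖ ^ 2 * ∏ ρ ∈ Z, ((a - ρ.re) ^ 2 + (t - ρ.im) ^ 2) ^ n ρ := by
      rw [hsq]; positivity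
    exact pos_of_mul_pos_left h1 hq1.le
  have hX : 0 < XX a F t := lt_of_lt_of_le hf2 hmain
  refine ⟨?_, hX⟩
  have hlog := congrArg Real.log hsq
  rw [Real.log_mul hf2.ne' hq1.ne', Real.log_mul hF2.ne' hq2.ne',
    Real.log_prod (fun ρ hρ => (pow_pos (hp2 ρ hρ) _).ne'),
    Real.log_prod (fun ρ hρ => (pow_pos (hp1 ρ hρ) _).ne')] at hlog
  have e3 : ∑ ρ ∈ Z, (n ρ : ℝ) * G0 a ρ.re (t - ρ.im) =
      ∑ ρ ∈ Z, Real.log (((a + ρ.re) ^ 2 + (t - ρ.im) ^ 2) ^ n ρ) -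
      ∑ ρ ∈ Z, Real.log (((a - ρ.re) ^ 2 + (t - ρ.im) ^ 2) ^ n ρ) := by
    rw [← Finset.sum_sub_distrib]
    refine Finset.sum_congr rfl fun ρ hρ => ?_
    unfold G0
    rw [Real.log_div (hp1 ρ hρ).ne' (hp2 ρ hρ).ne', Real.log_pow, Real.log_pow]
    ring
  rw [e3]
  have h9 := Real.log_le_log hf2 hmain
  linarith

end Pool.Agent.J4H4.Blk
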