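import Pool.Agent.J4H4.ZF

/-!
# The total distance of the zeros from the critical line
-/

set_option autoImplicit false

open MeasureTheory Filter Topology Complex Set

namespace Pool.Agent.J4H4.Dist

open Pool.Agent.J4H4.Mom Pool.Agent.J4H4.ZF Pool.Agent.J4H4.Itg
open Pool.Agent.TH809.MZ (ZE ZE_eq)

/-- lower bound of `FF` far to the right -/
lemma low {N : ℕ} (hN : 1 ≤ N) {K a t α β T : ℝ} (hK : 1 ≤ K) (ha : 3 ≤ a) (hα : 0 < α) (hT : 0 < T)
    (h1 : α * T ≤ t) (h2 : t ≤ β * T) (h3 : 2 ≤ α * T) :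
    ((1 - 2 ^ (2 - a)) ^ 2 * (1 - 2 / (α * T)) * (K ^ 2 / ((a + K) ^ 2 + (β * T) ^ 2))) ^ 2 ≤
      ‖FF N K (a + t * I)‖ ^ 2 := by
  have ht0 : 0 < α * T := mul_pos hα hT
  have htp : 0 < t := lt_of_lt_of_le ht0 h1
  set z : ℂ := a + t * I with hz
  have hzre : z.re = a := by simp [hz]
  have hzim : z.im = t := by simp [hz]
  have hsre : (1 / 2 + z).re = 1 / 2 + a := by simp [hz]
  have hs2 : 2 ≤ (1 / 2 + z).re := by rw [hsre]; linarith
  have hne : (1 / 2 + z : ℂ) ≠ 1 := by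
    intro h
    have := congrArg Complex.im h
    simp [hz] at this
    exact htp.ne' this
  have hpow : (2 : ℝ) ^ (2 - (1 / 2 + z).re) ≤ 2 ^ (2 - a) := by
    apply Real.rpow_le_rpow_of_exponent_le (by norm_num)
    rw [hsre]; linarith
  have hpow1 : (2 : ℝ) ^ (2 - a) ≤ 1 := by
    apply Real.rpow_le_one_of_one_le_of_nonpos (by norm_num)
    linarith
  have hnear : ∀ w : ℂ, ‖w - 1‖ ≤ 2 ^ (2 - (1 / 2 + z).re) → 1 - 2 ^ (2 - a) ≤ ‖w‖ := by
    intro w hw
    have h4 : ‖(1 : ℂ)‖ ≤ ‖w‖ + ‖w - 1‖ := by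
      have : (1 : ℂ) = w - (w - 1) := by ring
      calc ‖(1 : ℂ)‖ = ‖w - (w - 1)‖ := by rw [← this]
        _ ≤ _ := norm_sub_le _ _
    rw [norm_one] at h4
    linarith
  have hM := hnear _ (M_near hN hs2)
  have hζ := hnear _ (zeta_near hs2)
  -- the quotient
  have hq : 1 - 2 / (α * T) ≤ ‖z - 1 / 2‖ / ‖z + 3 / 2‖ := by
    have h5 : α * T ≤ ‖z + 3 / 2‖ := by
      refine h1.trans ?_
      have h6 := Complex.abs_im_le_norm (z + 3 / 2)
      have h7 : (z + 3 / 2).im = t := by simp [hz]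
      rw [h7, abs_of_pos htp] at h6
      exact h6
    have h8 : 0 < ‖z + 3 / 2‖ := lt_of_lt_of_le ht0 h5
    have h9 : ‖z + 3 / 2‖ ≤ ‖z - 1 / 2‖ + 2 := by
      have : z + 3 / 2 = (z - 1 / 2) + 2 := by ring
      rw [this]
      refine (norm_add_le _ _).trans ?_
      simp
    rw [le_div_iff₀ h8]
    have h10 : 2 ≤ 2 / (α * T) * ‖z + 3 / 2‖ := by
      calc (2 : ℝ) = 2 / (α * T) * (α * T) := by field_simp
        _ ≤ _ := by gcongr
    nlinarith
  have hd : K ^ 2 / ((a + K) ^ 2 + (β * T) ^ 2) ≤ ‖(K : ℂ) / (z + K)‖ ^ 2 := by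
    rw [norm_div, Complex.norm_real, Real.norm_eq_abs, abs_of_nonneg (by linarith : (0 : ℝ) ≤ K), div_pow]
    have h11 : ‖z + K‖ ^ 2 = (a + K) ^ 2 + t ^ 2 := by
      rw [← Complex.normSq_eq_norm_sq, Complex.normSq_apply]
      simp [hz]
      ring
    rw [h11]
    have h12 : t ^ 2 ≤ (β * T) ^ 2 := pow_le_pow_left₀ htp.le h2 2
    have h13 : 0 < (a + K) ^ 2 + t ^ 2 := by positivity
    gcongr
  have hfac : (1 - 2 ^ (2 - a)) ^ 2 * (1 - 2 / (α * T)) * (K ^ 2 / ((a + K) ^ 2 + (β * T) ^ 2)) ≤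
      ‖FF N K z‖ := by
    have e1 : ‖FF N K z‖ = (‖z - 1 / 2‖ / ‖z + 3 / 2‖) * ‖riemannZeta (1 / 2 + z)‖ * ‖M N (1 / 2 + z)‖ *
        ‖(K : ℂ) / (z + K)‖ ^ 2 := by
      unfold FF
      rw [ZE_eq hne, norm_mul, norm_mul, norm_pow, norm_div, norm_mul]
      have : (1 / 2 + z - 1 : ℂ) = z - 1 / 2 := by ring
      rw [this]
      ring
    rw [e1]
    have h14 : 0 ≤ 1 - (2 : ℝ) ^ (2 - a) := by linarith
    have h15 : 0 ≤ 1 - 2 / (α * T) := by
      have : 2 / (α * T) ≤ 1 := by rw [div_le_one ht0]; exact h3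
      linarith
    have h16 : (1 - (2 : ℝ) ^ (2 - a)) ^ 2 * (1 - 2 / (α * T)) * (K ^ 2 / ((a + K) ^ 2 + (β * T) ^ 2)) =
        (1 - 2 / (α * T)) * (1 - 2 ^ (2 - a)) * (1 - 2 ^ (2 - a)) * (K ^ 2 / ((a + K) ^ 2 + (β * T) ^ 2)) := by
      ring
    rw [h16]
    have h17 : (1 - 2 / (α * T)) * (1 - 2 ^ (2 - a)) ≤ ‖z - 1 / 2‖ / ‖z + 3 / 2‖ * ‖riemannZeta (1 / 2 + z)‖ :=
      mul_le_mul hq hζ h14 (by positivity)
    have h18 : (1 - 2 / (α * T)) * (1 - 2 ^ (2 - a)) * (1 - 2 ^ (2 - a)) ≤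
        ‖z - 1 / 2‖ / ‖z + 3 / 2‖ * ‖riemannZeta (1 / 2 + z)‖ * ‖M N (1 / 2 + z)‖ :=
      mul_le_mul h17 hM h14 (by positivity)
    exact mul_le_mul h18 hd (by positivity) (by positivity)
  apply pow_le_pow_left₀ _ hfac
  have h15 : 0 ≤ 1 - 2 / (α * T) := by
    have : 2 / (α * T) ≤ 1 := by rw [div_le_one ht0]; exact h3
    linarith
  positivity

/-- the lower bound tends to 1 -/
lemma low_tendsto (α β : ℝ) (hα : 0 < α) :
    Tendsto (fun T : ℝ => ((1 - 2 ^ (2 - Real.log T)) ^ 2 * (1 - 2 / (α * T)) *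
      ((T ^ 2) ^ 2 / ((Real.log T + T ^ 2) ^ 2 + (β * T) ^ 2))) ^ 2) atTop (𝓝 1) := by
  have h1 : Tendsto (fun T : ℝ => (2 : ℝ) ^ (2 - Real.log T)) atTop (𝓝 0) := by
    have h := tendsto_rpow_atBot_of_base_gt_one (2 : ℝ) (by norm_num)
    refine h.comp ?_
    have h2 := Real.tendsto_log_atTop
    exact tendsto_atBot_add_const_left _ 2 (tendsto_neg_atTop_atBot.comp h2) |>.congr fun T => by
      simp [sub_eq_add_neg]
  have h2 : Tendsto (fun T : ℝ => 2 / (α * T)) atTop (𝓝 0) := by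
    have : Tendsto (fun T : ℝ => α * T) atTop atTop := tendsto_id.const_mul_atTop hα
    exact tendsto_const_nhds.div_atTop this
  have h3 : Tendsto (fun T : ℝ => (T ^ 2) ^ 2 / ((Real.log T + T ^ 2) ^ 2 + (β * T) ^ 2)) atTop (𝓝 1) := by
    have h4 : Tendsto (fun T : ℝ => Real.log T / T ^ 2) atTop (𝓝 0) := by
      have := Real.isLittleO_log_id_atTop
      have h5 : Tendsto (fun T : ℝ => Real.log T / T) atTop (𝓝 0) := this.tendsto_div_nhds_zero
      have h6 : Tendsto (fun T : ℝ => 1 / T) atTop (𝓝 0) := by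
        simpa using tendsto_inv_atTop_zero (𝕜 := ℝ)
      have h7 := h5.mul h6
      simp only [mul_zero] at h7
      refine h7.congr fun T => ?_
      rw [div_mul_div_comm, mul_one, pow_two]
    have h5 : Tendsto (fun T : ℝ => β / T) atTop (𝓝 0) := tendsto_const_nhds.div_atTop tendsto_id
    have h6 : Tendsto (fun T : ℝ => 1 / ((Real.log T / T ^ 2 + 1) ^ 2 + (β / T) ^ 2)) atTop
        (𝓝 (1 / ((0 + 1) ^ 2 + 0 ^ 2))) := by
      refine Tendsto.div tendsto_const_nhds (((h4.add tendsto_const_nhds).pow 2).add (h5.pow 2)) (by norm_num)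
    norm_num at h6
    refine h6.congr' ?_
    filter_upwards [eventually_gt_atTop (0 : ℝ)] with T hT
    have hT2 : (0 : ℝ) < (T ^ 2) ^ 2 := by positivity
    have h7 : (Real.log T + T ^ 2) ^ 2 + (β * T) ^ 2 =
        ((Real.log T / T ^ 2 + 1) ^ 2 + (β / T) ^ 2) * (T ^ 2) ^ 2 := by
      field_simp
    rw [h7, div_mul_cancel_right₀ hT2.ne']
  have h8 := ((((tendsto_const_nhds (x := (1 : ℝ))).sub h1).pow 2).mul
    ((tendsto_const_nhds (x := (1 : ℝ))).sub h2)).mul h3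
  have h9 := h8.pow 2
  norm_num at h9
  exact h9

/-- the tail term is small -/
lemma tail_tendsto {θ : ℝ} (hθ : θ < 3 / 5) (c δ : ℝ) (hδ : 0 < δ) :
    Tendsto (fun T : ℝ => c * T ^ θ * (4 * Real.log T * (δ * T) ^ (-(3 / 5) : ℝ))) atTop (𝓝 0) := by
  have h1 : Tendsto (fun T : ℝ => Real.log T / T ^ (3 / 5 - θ)) atTop (𝓝 0) :=
    (isLittleO_log_rpow_atTop (by linarith)).tendsto_div_nhds_zero
  have h2 := h1.const_mul (c * 4 * δ ^ (-(3 / 5) : ℝ))
  rw [mul_zero] at h2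
  refine h2.congr' ?_
  filter_upwards [eventually_gt_atTop (0 : ℝ)] with T hT
  rw [Real.mul_rpow hδ.le hT.le]
  have h3 : T ^ θ * T ^ (-(3 / 5) : ℝ) = (T ^ (3 / 5 - θ))⁻¹ := by
    rw [← Real.rpow_neg hT.le, ← Real.rpow_add hT]
    congr 1
    ring
  rw [div_eq_mul_inv (Real.log T), ← h3]
  ring

/-- **The total distance of the zeros of zeta from the critical line**, with an explicit constant. -/
theorem dist0 {α β c : ℝ} (hα : 0 < α) (hαβ : α < β) (hc : Real.log (41 / 14) / (4 * Real.pi) < c) :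
    ∀ᶠ T : ℝ in atTop, ∀ (Z : Finset ℂ) (n : ℂ → ℕ),
      (∀ ρ ∈ Z, 1 / 2 < ρ.re ∧ ρ.re < 1 ∧ α * T ≤ ρ.im ∧ ρ.im ≤ β * T ∧
        (n ρ : ℕ∞) ≤ analyticOrderAt riemannZeta ρ) →
      ∑ ρ ∈ Z, (n ρ : ℝ) * (ρ.re - 1 / 2) ≤ c * ((β - α) * T) := by
  have hβα : 0 < β - α := by linarith
  -- choice of θ
  obtain ⟨θ, hθ0, hθ1, hθc⟩ : ∃ θ : ℝ, 0 < θ ∧ θ < 14 / 27 ∧ Real.log (1 + 1 / θ) / (4 * Real.pi) < c := by
    have hcont : ContinuousAt (fun θ : ℝ => Real.log (1 + 1 / θ) / (4 * Real.pi)) (14 / 27) := by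
      refine ContinuousAt.div_const (ContinuousAt.log ?_ (by norm_num)) _
      exact continuousAt_const.add (ContinuousAt.div continuousAt_const continuousAt_id (by norm_num))
    have h1 : (fun θ : ℝ => Real.log (1 + 1 / θ) / (4 * Real.pi)) (14 / 27) < c := by
      show Real.log (1 + 1 / (14 / 27)) / (4 * Real.pi) < c
      norm_num
      norm_num at hc
      exact hc
    have h2 := (hcont.eventually_lt continuousAt_const h1).filter_mono
      (nhdsWithin_le_nhds (s := Iio (14 / 27 : ℝ)))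
    have h3 : ∀ᶠ θ : ℝ in 𝓝[<] (14 / 27), θ ∈ Ioo (0 : ℝ) (14 / 27) := Ioo_mem_nhdsLT (by norm_num)
    obtain ⟨θ, h4, h5⟩ := (h2.and h3).exists
    exact ⟨θ, h5.1, h5.2, h4⟩
  -- choice of δ
  obtain ⟨δ, hδ0, hδα, hδ1, hδc⟩ : ∃ δ : ℝ, 0 < δ ∧ 2 * δ < α ∧ δ < 1 ∧
      (β - α + 2 * δ) * (Real.log ((β - α + 4 * δ) * (1 + 1 / θ + δ) / (β - α + 2 * δ) + δ) + δ) <
        c * (β - α) * (8 * (Real.pi / 2 - δ)) := by
    have hcont : ContinuousAt (fun δ : ℝ => (β - α + 2 * δ) *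
        (Real.log ((β - α + 4 * δ) * (1 + 1 / θ + δ) / (β - α + 2 * δ) + δ) + δ)) 0 := by
      refine ContinuousAt.mul (by fun_prop) ((ContinuousAt.log ?_ ?_).add (by fun_prop))
      · refine ContinuousAt.add (ContinuousAt.div (by fun_prop) (by fun_prop) ?_) (by fun_prop)
        simp; exact hβα.ne'
      · simp
        have h6 : 0 < 1 + θ⁻¹ := by positivity
        exact ⟨⟨hβα.ne', h6.ne'⟩, hβα.ne'⟩
    have hcont2 : ContinuousAt (fun δ : ℝ => c * (β - α) * (8 * (Real.pi / 2 - δ))) 0 := by fun_prop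
    have h1 : (fun δ : ℝ => (β - α + 2 * δ) *
        (Real.log ((β - α + 4 * δ) * (1 + 1 / θ + δ) / (β - α + 2 * δ) + δ) + δ)) 0 <
        (fun δ : ℝ => c * (β - α) * (8 * (Real.pi / 2 - δ))) 0 := by
      show (β - α + 2 * 0) * (Real.log ((β - α + 4 * 0) * (1 + 1 / θ + 0) / (β - α + 2 * 0) + 0) + 0) <
        c * (β - α) * (8 * (Real.pi / 2 - 0))
      simp only [mul_zero, add_zero, sub_zero]
      rw [mul_div_cancel_left₀ _ hβα.ne']
      rw [div_lt_iff₀ (by positivity)] at hθc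
      have h5 : c * (β - α) * (8 * (Real.pi / 2)) = (β - α) * (c * (4 * Real.pi)) := by ring
      rw [h5]
      exact mul_lt_mul_of_pos_left hθc hβα
    have h2 := (hcont.eventually_lt hcont2 h1).filter_mono (nhdsWithin_le_nhds (s := Ioi (0 : ℝ)))
    have h3 : ∀ᶠ δ : ℝ in 𝓝[>] 0, δ ∈ Ioo (0 : ℝ) (min (α / 2) 1) := Ioo_mem_nhdsGT (by positivity)
    obtain ⟨δ, h4, h5⟩ := (h2.and h3).exists
    refine ⟨δ, h5.1, ?_, ?_, h4⟩
    · have := h5.2.trans_le (min_le_left _ _)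
      linarith
    · exact h5.2.trans_le (min_le_right _ _)
  obtain ⟨Cq, hCq, hq⟩ := q_le
  have hα2 : 0 < α - δ := by linarith
  have hlow := (low_tendsto (α - δ) (β + δ) hα2).eventually
    (lt_mem_nhds (show Real.exp (-δ) < 1 by rw [Real.exp_lt_one_iff]; linarith))
  have htail := (tail_tendsto (θ := θ) (by linarith : θ < 3 / 5) (Cq * ((β + 2) / δ + 1) ^ (2 / 5 : ℝ)) δ hδ0).eventually
    (gt_mem_nhds hδ0)
  have hlogT : Tendsto (fun T : ℝ => Real.log T / T) atTop (𝓝 0) :=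
    Real.isLittleO_log_id_atTop.tendsto_div_nhds_zero
  have hT1 : Tendsto (fun T : ℝ => (Real.log T + 1 / 2) / (δ * T)) atTop (𝓝 0) := by
    have h1 : Tendsto (fun T : ℝ => (1 / 2 : ℝ) / T) atTop (𝓝 0) := tendsto_const_nhds.div_atTop tendsto_id
    have h2 := (hlogT.add h1).const_mul (1 / δ)
    simp only [add_zero, mul_zero] at h2
    refine h2.congr' ?_
    filter_upwards [eventually_gt_atTop (0 : ℝ)] with T hT
    field_simp
  have hmom := moment hθ0 hθ1 (α := α - 2 * δ) (β := β + 2 * δ) (by linarith) (by linarith) hδ0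
  filter_upwards [hmom, hlow, htail, hT1.eventually (gt_mem_nhds hδ0), eventually_ge_atTop (1 : ℝ),
    Real.tendsto_log_atTop.eventually_ge_atTop 3, eventually_ge_atTop (2 / (α - δ))]
    with T hm hl ht hT1 hT hlog hT3 Z n hZ
  have hT0 : 0 < T := by linarith
  set N := NN θ T with hN
  have hTθ : 1 ≤ T ^ θ := Real.one_le_rpow hT hθ0.le
  have hN1 : 1 ≤ N := by
    rw [hN]; unfold NN
    exact (Nat.one_le_floor_iff _).mpr hTθ
  have hNle : (N : ℝ) ≤ T ^ θ := by
    rw [hN]; unfold NN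
    exact Nat.floor_le (by linarith)
  have hK1 : 1 ≤ T ^ 2 := one_le_pow₀ hT
  obtain ⟨CF, hCF⟩ := FF_bdd N hK1
  set B : ℝ := (β - α + 4 * δ) * (1 + 1 / θ + δ) / (β - α + 2 * δ) + δ with hB
  have hB0 : 0 < B := by
    have : 0 < β - α + 4 * δ := by linarith
    have : 0 < β - α + 2 * δ := by linarith
    positivity
  -- the zero with nonzero n
  have hmain := zeros_le (F := FF N (T ^ 2)) (U := UU) UU_open (fun z hz => lt_of_lt_of_le (by norm_num) hz)
    (FF_diff N hK1) hCF (Z.map ⟨fun ρ => ρ - 1 / 2, sub_left_injective⟩) (fun z => n (z + 1 / 2))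
    (by
      intro z hz
      rw [Finset.mem_map] at hz
      obtain ⟨ρ, hρ, rfl⟩ := hz
      have := (hZ ρ hρ).1
      simp
      linarith)
    (by
      intro z hz
      rw [Finset.mem_map] at hz
      obtain ⟨ρ, hρ, rfl⟩ := hz
      obtain ⟨h1, h1', h2, h3, h4⟩ := hZ ρ hρ
      have hne : ρ ≠ 1 := by
        intro h
        rw [h] at h2
        have : 0 < α * T := mul_pos hα hT0
        simp at h2
        linarith
      simp only [Function.Embedding.coeFn_mk, sub_add_cancel]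
      exact h4.trans (FF_order N hK1 h1 hne))
    (a := Real.log T) (by linarith)
    (by
      intro z hz
      rw [Finset.mem_map] at hz
      obtain ⟨ρ, hρ, rfl⟩ := hz
      obtain ⟨h1, h1', h2, h3, h4⟩ := hZ ρ hρ
      simp
      linarith)
    (T1 := (α - δ) * T) (T2 := (β + δ) * T) (D := δ * T) (K := Cq * N) (κ := (β + 2) / δ) (η := δ) (c := B)
    (by nlinarith) (by positivity) (by
      have : 0 < β := by linarith
      positivity) (by positivity) hB0
    (by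
      intro z hz
      rw [Finset.mem_map] at hz
      obtain ⟨ρ, hρ, rfl⟩ := hz
      obtain ⟨h1, h1', h2, h3, h4⟩ := hZ ρ hρ
      simp
      constructor <;> linarith)
    (fun v => (FF_line N hK1 v).trans (hq N v))
    (by
      intro t h1 h2
      have h3 : 0 < t := lt_of_lt_of_le (mul_pos hα2 hT0) h1
      rw [abs_of_pos h3]
      have h4 : (β + 2) / δ * (δ * T) = (β + 2) * T := by field_simp
      rw [h4]
      nlinarith)
    (by
      intro t h1 h2
      refine hl.le.trans (low hN1 hK1 hlog hα2 hT0 h1 h2 ?_)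
      rw [div_le_iff₀ hα2] at hT3
      linarith)
    (by
      have e1 : (α - δ) * T - δ * T = (α - 2 * δ) * T := by ring
      have e2 : (β + δ) * T + δ * T = (β + 2 * δ) * T := by ring
      rw [e1, e2]
      have e3 : (β + δ) * T - (α - δ) * T = (β - α + 2 * δ) * T := by ring
      rw [e3]
      have hI : (∫ v in ((α - 2 * δ) * T)..((β + 2 * δ) * T), ‖FF N (T ^ 2) (v * I)‖ ^ 2) ≤
          ∫ v in ((α - 2 * δ) * T)..((β + 2 * δ) * T), q N v := by
        apply intervalIntegral.integral_mono_on (by nlinarith)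
        · apply Continuous.intervalIntegrable
          have hc : ContinuousOn (FF N (T ^ 2)) UU := (FF_diff N hK1).continuousOn
          have hc2 : Continuous (fun v : ℝ => FF N (T ^ 2) (v * I)) := by
            refine hc.comp_continuous (by fun_prop) ?_
            intro v
            show -1 < ((v : ℂ) * I).re
            simp
          exact (hc2.norm).pow 2
        · exact (q_cont N).intervalIntegrable _ _
        · intro v _
          exact FF_line N hK1 v
      have hβ : 0 < β := by linarith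
      have ht' : Cq * N * ((β + 2) / δ + 1) ^ (2 / 5 : ℝ) * (4 * Real.log T * (δ * T) ^ (-(3 / 5) : ℝ)) ≤ δ := by
        refine le_trans ?_ ht.le
        have h0 : 0 ≤ Real.log T := by linarith
        have h1 : 0 ≤ (4 * Real.log T * (δ * T) ^ (-(3 / 5) : ℝ)) := by positivity
        have h2 : Cq * N * ((β + 2) / δ + 1) ^ (2 / 5 : ℝ) ≤ Cq * ((β + 2) / δ + 1) ^ (2 / 5 : ℝ) * T ^ θ := by
          have h3 : 0 ≤ Cq * ((β + 2) / δ + 1) ^ (2 / 5 : ℝ) := by positivity
          nlinarith [mul_le_mul_of_nonneg_left hNle h3]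
        exact mul_le_mul_of_nonneg_right h2 h1
      have e4 : B * ((β - α + 2 * δ) * T) = (β - α + 4 * δ) * T * (1 + 1 / θ + δ) + δ * ((β - α + 2 * δ) * T) := by
        rw [hB]
        have : β - α + 2 * δ ≠ 0 := by linarith
        field_simp
      rw [e4]
      have e5 : (β + 2 * δ - (α - 2 * δ)) * T * (1 + 1 / θ + δ) = (β - α + 4 * δ) * T * (1 + 1 / θ + δ) := by ring
      rw [e5] at hm
      have h6 : 0 ≤ (β - α + 2 * δ) * T := by
        have : 0 ≤ β - α + 2 * δ := by linarith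
        positivity
      have h7 := mul_le_mul_of_nonneg_left ht' h6
      linarith)
  -- conclusion
  rw [Finset.sum_map] at hmain
  simp only [Function.Embedding.coeFn_mk, sub_add_cancel] at hmain
  have hre : ∀ ρ : ℂ, (ρ - 1 / 2).re = ρ.re - 1 / 2 := by
    intro ρ; simp
  simp only [hre] at hmain
  have e3 : (β + δ) * T - (α - δ) * T = (β - α + 2 * δ) * T := by ring
  rw [e3] at hmain
  have hstep : (8 * (Real.pi / 2 - δ)) * ∑ ρ ∈ Z, (n ρ : ℝ) * (ρ.re - 1 / 2) ≤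
      ∑ ρ ∈ Z, (n ρ : ℝ) * (8 * (ρ.re - 1 / 2) * (Real.pi / 2 - (Real.log T + (ρ.re - 1 / 2)) / (δ * T))) := by
    rw [Finset.mul_sum]
    apply Finset.sum_le_sum
    intro ρ hρ
    obtain ⟨h1, h1', h2, h3, h4⟩ := hZ ρ hρ
    have h5 : (Real.log T + (ρ.re - 1 / 2)) / (δ * T) ≤ δ := by
      refine le_trans ?_ hT1.le
      apply div_le_div_of_nonneg_right _ (by positivity)
      linarith
    have h6 : 0 ≤ (n ρ : ℝ) * (8 * (ρ.re - 1 / 2)) := by
      have : 0 ≤ ρ.re - 1 / 2 := by linarith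
      positivity
    nlinarith [mul_le_mul_of_nonneg_left h5 h6]
  have hpi := Real.pi_gt_three
  have h8 : 0 < 8 * (Real.pi / 2 - δ) := by linarith
  have h9 : (8 * (Real.pi / 2 - δ)) * ∑ ρ ∈ Z, (n ρ : ℝ) * (ρ.re - 1 / 2) ≤
      (8 * (Real.pi / 2 - δ)) * (c * ((β - α) * T)) := by
    refine (hstep.trans hmain).trans ?_
    have h10 := mul_lt_mul_of_pos_right hδc hT0
    nlinarith
  exact le_of_mul_le_mul_left h9 h8

/-- the same without the hypothesis on the real parts -/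
theorem dist {α β c : ℝ} (hα : 0 < α) (hαβ : α < β) (hc : Real.log (41 / 14) / (4 * Real.pi) < c) :
    ∀ᶠ T : ℝ in atTop, ∀ (Z : Finset ℂ) (n : ℂ → ℕ),
      (∀ ρ ∈ Z, 1 / 2 < ρ.re ∧ α * T ≤ ρ.im ∧ ρ.im ≤ β * T ∧
        (n ρ : ℕ∞) ≤ analyticOrderAt riemannZeta ρ) →
      ∑ ρ ∈ Z, (n ρ : ℝ) * (ρ.re - 1 / 2) ≤ c * ((β - α) * T) := by
  filter_upwards [dist0 hα hαβ hc] with T hT Z n hZ
  have h1 := hT (Z.filter (fun ρ => n ρ ≠ 0)) n (by
    intro ρ hρ
    rw [Finset.mem_filter] at hρ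
    obtain ⟨h1, h2, h3, h4⟩ := hZ ρ hρ.1
    refine ⟨h1, ?_, h2, h3, h4⟩
    by_contra hcon
    push Not at hcon
    have h5 := riemannZeta_ne_zero_of_one_le_re hcon
    have h6 : analyticOrderAt riemannZeta ρ = 0 := by
      by_cases hρ1 : ρ = 1
      · apply analyticOrderAt_of_not_analyticAt
        rw [hρ1]
        intro hana
        have hcont := hana.continuousAt
        have h7 := riemannZeta_residue_one
        have h8 : Tendsto (fun s : ℂ => (s - 1) * riemannZeta s) (𝓝[≠] 1) (𝓝 0) := by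
          have h9 : Tendsto (fun s : ℂ => (s - 1) * riemannZeta s) (𝓝 1) (𝓝 ((1 - 1) * riemannZeta 1)) :=
            (tendsto_id.sub_const 1).mul hcont
          simp only [sub_self, zero_mul] at h9
          exact h9.mono_left nhdsWithin_le_nhds
        exact one_ne_zero (tendsto_nhds_unique h7 h8)
      · have hana : AnalyticAt ℂ riemannZeta ρ := by
          have hd : DifferentiableOn ℂ riemannZeta {1}ᶜ := fun z hz =>
            (differentiableAt_riemannZeta hz).differentiableWithinAt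
          exact hd.analyticAt (isOpen_compl_singleton.mem_nhds hρ1)
        exact (hana.analyticOrderAt_eq_zero).mpr h5
    rw [h6] at h4
    apply hρ.2
    have : (n ρ : ℕ∞) = 0 := le_antisymm h4 (zero_le)
    exact_mod_cast this)
  refine le_trans (le_of_eq ?_) h1
  rw [Finset.sum_filter]
  apply Finset.sum_congr rfl
  intro ρ _
  by_cases h : n ρ = 0
  · simp [h]
  · simp [h]

end Pool.Agent.J4H4.Dist
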