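import Pool.Agent.J4H4.Str

/-!
# The Riemann hypothesis and the inequalities; the measure of the exceptional heights
-/

set_option autoImplicit false

open Complex Filter Topology MeasureTheory
open scoped ComplexConjugate

namespace Pool.Agent.J4H4.Fin

open Pool.Agent.J4H1.JP Pool.Agent.J4H4.Str

/-- Riemann's function `ξ(s) = s (s - 1) Λ(s) / 2` -/
noncomputable def xi (s : ℂ) : ℂ := (s * (s - 1) * completedRiemannZeta₀ s + 1) / 2

/-- the inequalities at height `t` -/
def Lag (t : ℝ) : Prop := ∀ n : ℕ, 0 ≤ iteratedDeriv n (fun a : ℝ => ‖xi (1 / 2 + a + t * I)‖ ^ 2) 0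

lemma Xi_xi (w : ℂ) : Xi w = xi (1 / 2 + w) := by
  unfold Xi xi
  congr 3
  ring

/-! ## power series of a real variable -/

lemma iter_real {c : ℕ → ℝ} {f : ℝ → ℝ} (h : ∀ x, HasSum (fun k => c k * x ^ k) (f x)) (n : ℕ) :
    iteratedDeriv n f 0 = n.factorial * c n := by
  have hF : HasFPowerSeriesOnBall f (FormalMultilinearSeries.ofScalars ℝ c) 0 ⊤ := by
    refine ⟨?_, by simp, fun {y} _ => ?_⟩
    · rw [top_le_iff]
      apply FormalMultilinearSeries.radius_eq_top_of_summable_norm
      intro r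
      have h1 := (h r).summable.norm
      refine h1.congr fun k => ?_
      rw [FormalMultilinearSeries.ofScalars_norm, norm_mul, norm_pow]
      have h7 : ‖(r : ℝ)‖ = r := by rw [Real.norm_eq_abs]; exact abs_of_nonneg r.2
      rw [h7]
    · rw [zero_add]
      refine (h y).congr_fun fun k => ?_
      simp [mul_comm]
  have h1 : HasFPowerSeriesAt f (FormalMultilinearSeries.ofScalars ℝ c) 0 := ⟨⊤, hF⟩
  have h2 := (h1.analyticAt).hasFPowerSeriesAt
  have h3 := h1.eq_formalMultilinearSeries h2
  have h4 := congrArg (fun p => FormalMultilinearSeries.coeff p n) h3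
  simp only [FormalMultilinearSeries.coeff_ofScalars] at h4
  rw [h4]
  have : (n.factorial : ℝ) ≠ 0 := by exact_mod_cast n.factorial_ne_zero
  field_simp

lemma hasSum_abs (t a : ℝ) : HasSum (fun n => (g t n).re * a ^ n) (‖xi (1 / 2 + a + t * I)‖ ^ 2) := by
  have h := Complex.hasSum_re (hasSum_Gt t a)
  rw [Gt_real, ofReal_re, Xi_xi, ← add_assoc] at h
  refine h.congr_fun fun n => ?_
  rw [← ofReal_pow, re_mul_ofReal]

lemma hasSum_abs2 (t a : ℝ) : HasSum (fun k => (g t (2 * k)).re * (a ^ 2) ^ k) (‖xi (1 / 2 + a + t * I)‖ ^ 2) := by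
  have h := Complex.hasSum_re (hasSum_even t a)
  rw [Gt_real, ofReal_re, Xi_xi, ← add_assoc] at h
  refine h.congr_fun fun n => ?_
  rw [← ofReal_pow, ← ofReal_pow, re_mul_ofReal]

lemma lag_iff (t : ℝ) : Lag t ↔ ∀ k, 0 ≤ (g t (2 * k)).re := by
  unfold Lag
  have e : ∀ n, iteratedDeriv n (fun a : ℝ => ‖xi (1 / 2 + a + t * I)‖ ^ 2) 0 = n.factorial * (g t n).re :=
    fun n => iter_real (hasSum_abs t) n
  simp only [e]
  constructor
  · intro h k
    have h5 : (0 : ℝ) < (2 * k).factorial := by exact_mod_cast (2 * k).factorial_pos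
    exact nonneg_of_mul_nonneg_right (h (2 * k)) h5
  · intro h n
    rcases Nat.even_or_odd' n with ⟨k, rfl | rfl⟩
    · exact mul_nonneg (by positivity) (h k)
    · rw [g_odd]; simp

/-- a height whose cone is free of zeros satisfies the inequalities -/
theorem lag_of_cone {t : ℝ} (ht : Cone t) : Lag t := (lag_iff t).mpr (nonneg_of_cone ht)

/-! ## the function is not constant -/

lemma Xi_half : Xi (1 / 2) = 1 / 2 := by
  unfold Xi
  norm_num

lemma Xi_three : Xi (3 / 2) = (Real.pi / 6 : ℝ) := by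
  have h1 : Gammaℝ 2 ≠ 0 := Gammaℝ_ne_zero_of_re_pos (by simp)
  have h2 := riemannZeta_def_of_ne_zero (s := 2) (by norm_num)
  have h3 : completedRiemannZeta 2 = riemannZeta 2 * Gammaℝ 2 := by
    rw [h2]; field_simp
  have h4 : Gammaℝ 2 = (Real.pi : ℂ)⁻¹ := by
    rw [Gammaℝ_def]
    norm_num
    rw [cpow_neg_one]
  have h5 := completedRiemannZeta_eq 2
  rw [h3, h4, riemannZeta_two] at h5
  have h6 : (Real.pi : ℂ) ≠ 0 := by exact_mod_cast Real.pi_ne_zero
  unfold Xi
  have e : (1 / 2 + 3 / 2 : ℂ) = 2 := by norm_num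
  rw [e]
  have h7 : completedRiemannZeta₀ 2 = Real.pi / 6 + 1 / 2 - 1 := by
    have h8 : (Real.pi : ℂ) ^ 2 / 6 * (Real.pi : ℂ)⁻¹ = Real.pi / 6 := by
      field_simp
    rw [h8] at h5
    norm_num at h5
    linear_combination -h5
  rw [h7]
  push_cast
  ring

lemma exists_zero : ∃ w, Xi w = 0 := by
  by_contra hcon
  push Not at hcon
  have hne : ∀ x, F x ≠ 0 := by
    intro x hx
    exact hcon _ hx
  obtain ⟨P, hP0, hP1, -, hP2⟩ := Pool.Agent.J4H8.JP.t_had F t_F.1 ⟨0, hne 0⟩
  have hdeg : ∀ N, (P N).natDegree = 0 := by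
    intro N
    by_contra hd
    have hdeg : ((P N).map (algebraMap ℝ ℂ)).degree ≠ 0 := by
      rw [Polynomial.degree_map]
      intro h
      exact hd (Polynomial.natDegree_eq_of_degree_eq_some (by rw [h]; rfl))
    obtain ⟨z, hz⟩ := IsAlgClosed.exists_root _ hdeg
    rw [Polynomial.IsRoot.def, Polynomial.eval_map_algebraMap] at hz
    exact hne z (hP1 N z hz)
  have hpt : ∀ x : ℂ, Tendsto (fun N => (Polynomial.aeval x (P N))) atTop (𝓝 (F x)) := fun x =>
    (tendstoLocallyUniformlyOn_univ.mpr hP2).tendsto_at (Set.mem_univ _)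
  have hconst : ∀ x y : ℂ, F x = F y := by
    intro x y
    have h1 : (fun N => (Polynomial.aeval x (P N))) = fun N => (Polynomial.aeval y (P N)) := by
      funext N
      rw [Polynomial.eq_C_of_natDegree_eq_zero (hdeg N), Polynomial.aeval_C, Polynomial.aeval_C]
    have h2 := hpt x
    rw [h1] at h2
    exact tendsto_nhds_unique h2 (hpt y)
  have h3 := hconst ((1 / 2) ^ 2) ((3 / 2) ^ 2)
  rw [F_sq, F_sq, Xi_half, Xi_three] at h3
  have h4 : (1 / 2 : ℝ) = Real.pi / 6 := by
    have h5 := congrArg Complex.re h3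
    rw [ofReal_re] at h5
    norm_num at h5
    linarith
  have := Real.pi_gt_three
  linarith

/-- the inequalities imply that `|ξ(1/2 + a + it)|` is strictly increasing in `a ≥ 0` -/
theorem mono_of_lag {t : ℝ} (ht : Lag t) {a b : ℝ} (ha : 0 ≤ a) (hab : a < b) :
    ‖xi (1 / 2 + a + t * I)‖ < ‖xi (1 / 2 + b + t * I)‖ := by
  rw [lag_iff] at ht
  have hb : 0 < b := by linarith
  have hsq : a ^ 2 < b ^ 2 := by nlinarith
  have h1 := hasSum_abs2 t a
  have h2 := hasSum_abs2 t b
  -- some coefficient of positive index is positive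
  have hex : ∃ k, 1 ≤ k ∧ 0 < (g t (2 * k)).re := by
    by_contra hcon
    push Not at hcon
    have hz : ∀ k, 1 ≤ k → (g t (2 * k)).re = 0 := fun k hk => le_antisymm (hcon k hk) (ht k)
    -- then |xi| is constant on the line, and xi is constant
    have hc : ∀ a : ℝ, Gt t a = ((g t 0).re : ℂ) := by
      intro a
      have h3 := hasSum_abs2 t a
      have h4 : HasSum (fun k => (g t (2 * k)).re * (a ^ 2) ^ k) ((g t 0).re) := by
        have := hasSum_single (f := fun k => (g t (2 * k)).re * (a ^ 2) ^ k) 0 (by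
          intro k hk
          rw [hz k (by omega), zero_mul])
        simpa using this
      have h5 := h3.unique h4
      rw [Gt_real, Xi_xi, ← add_assoc, h5]
    -- Gt is constant
    have hconst : Gt t = fun _ => ((g t 0).re : ℂ) := by
      have hana : AnalyticOnNhd ℂ (Gt t) Set.univ := fun z _ => (Gt_diff t).analyticAt z
      have hana2 : AnalyticOnNhd ℂ (fun _ : ℂ => ((g t 0).re : ℂ)) Set.univ := fun z _ => analyticAt_const
      refine hana.eq_of_frequently_eq (z₀ := 0) hana2 ?_
      have h6 : Tendsto (fun n : ℕ => (((1 / ((n : ℝ) + 1) : ℝ)) : ℂ)) atTop (𝓝[≠] 0) := by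
        rw [tendsto_nhdsWithin_iff]
        constructor
        · have := tendsto_one_div_add_atTop_nhds_zero_nat (𝕜 := ℝ)
          have h7 := (Complex.continuous_ofReal.tendsto 0).comp this
          simpa [Function.comp_def] using h7
        · refine Filter.Eventually.of_forall fun n => ?_
          have : (1 / ((n : ℝ) + 1) : ℝ) ≠ 0 := by positivity
          show ((1 / ((n : ℝ) + 1) : ℝ) : ℂ) ≠ 0
          exact_mod_cast this
      exact h6.frequently (Filter.Frequently.of_forall fun n => hc _)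
    -- but `Xi` has a zero
    obtain ⟨w, hw⟩ := exists_zero
    have h8 : Gt t (w - t * I) = 0 := by
      unfold Gt
      rw [sub_add_cancel, hw, zero_mul]
    have h9 : Gt t 1 ≠ 0 := by
      unfold Gt
      exact mul_ne_zero (Xi_ne (by simp; norm_num)) (Xi_ne (by simp; norm_num))
    apply h9
    rw [← h8, hconst]
  obtain ⟨k0, hk0, hpos⟩ := hex
  have hlt : ‖xi (1 / 2 + a + t * I)‖ ^ 2 < ‖xi (1 / 2 + b + t * I)‖ ^ 2 := by
    refine hasSum_lt (f := fun k => (g t (2 * k)).re * (a ^ 2) ^ k) (g := fun k => (g t (2 * k)).re * (b ^ 2) ^ k)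
      (i := k0) ?_ ?_ h1 h2
    · intro k
      exact mul_le_mul_of_nonneg_left (pow_le_pow_left₀ (sq_nonneg a) hsq.le k) (ht k)
    · exact mul_lt_mul_of_pos_left (pow_lt_pow_left₀ hsq (sq_nonneg a) (by omega)) hpos
  exact lt_of_pow_lt_pow_left₀ 2 (norm_nonneg _) hlt

/-- the inequalities at height `t` exclude zeros off the line at this height -/
theorem ne_zero_of_lag {t : ℝ} (ht : Lag t) {a : ℝ} (ha : a ≠ 0) : xi (1 / 2 + a + t * I) ≠ 0 := by
  have key : ∀ a : ℝ, 0 < a → xi (1 / 2 + a + t * I) ≠ 0 := by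
    intro a ha h
    have := mono_of_lag ht le_rfl ha
    rw [h, norm_zero] at this
    exact absurd this (not_lt.mpr (norm_nonneg _))
  rcases lt_or_gt_of_ne ha with h | h
  · intro h0
    apply key (-a) (by linarith)
    have h1 : Xi (a + t * I) = 0 := by rw [Xi_xi, ← add_assoc]; exact h0
    have h2 : Xi (conj (-(a + t * I : ℂ))) = 0 := by rw [Xi_conj, Xi_neg, h1, map_zero]
    rw [Xi_xi] at h2
    rw [← h2]
    congr 1
    rw [map_neg, map_add, map_mul, conj_ofReal, conj_ofReal, conj_I]
    push_cast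
    ring
  · exact key a h

/-! ## the Riemann hypothesis -/

lemma completed_eq {w : ℂ} (h0 : 1 / 2 + w ≠ 0) (h1 : 1 / 2 + w ≠ 1) :
    Xi w = (1 / 2 + w) * ((1 / 2 + w) - 1) * completedRiemannZeta (1 / 2 + w) / 2 := by
  unfold Xi
  have h2 : (1 / 2 + w) - 1 ≠ 0 := sub_ne_zero.mpr h1
  have h3 : completedRiemannZeta (1 / 2 + w) = completedRiemannZeta₀ (1 / 2 + w) - 1 / (1 / 2 + w) +
      1 / ((1 / 2 + w) - 1) := by
    rw [completedRiemannZeta_eq, show 1 - (1 / 2 + w) = -((1 / 2 + w) - 1) by ring, div_neg]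
    ring
  rw [h3]
  have e : w ^ 2 - 1 / 4 = (1 / 2 + w) * ((1 / 2 + w) - 1) := by ring
  rw [e]
  generalize (1 / 2 + w : ℂ) = s at *
  field_simp
  ring

theorem rh_iff : RiemannHypothesis ↔ ∀ w, Xi w = 0 → w.re = 0 := by
  constructor
  · intro hRH w hw
    have hre : |w.re| < 1 / 2 := by
      by_contra hcon
      push Not at hcon
      exact Xi_ne hcon hw
    rw [abs_lt] at hre
    have h0 : 1 / 2 + w ≠ 0 := by
      intro h
      have := congrArg Complex.re h
      norm_num at this
      linarith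
    have h1 : 1 / 2 + w ≠ 1 := by
      intro h
      have := congrArg Complex.re h
      norm_num at this
      linarith
    have h2 := completed_eq h0 h1
    rw [hw] at h2
    have h3 : completedRiemannZeta (1 / 2 + w) = 0 := by
      have h4 : (1 / 2 + w) * ((1 / 2 + w) - 1) ≠ 0 := mul_ne_zero h0 (sub_ne_zero.mpr h1)
      have h5 : (1 / 2 + w) * ((1 / 2 + w) - 1) * completedRiemannZeta (1 / 2 + w) = 0 := by
        linear_combination -2 * h2
      exact (mul_eq_zero.mp h5).resolve_left h4
    have h4 : riemannZeta (1 / 2 + w) = 0 := by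
      rw [riemannZeta_def_of_ne_zero h0, h3, zero_div]
    have h5 := hRH (1 / 2 + w) h4 (by
      rintro ⟨n, hn⟩
      have := congrArg Complex.re hn
      norm_num at this
      have hn0 : (0 : ℝ) ≤ n := Nat.cast_nonneg n
      linarith) h1
    norm_num at h5
    exact h5
  · intro h s hs htriv hs1
    have h0 : s ≠ 0 := by
      rintro rfl
      rw [riemannZeta_zero] at hs
      norm_num at hs
    have hL : completedRiemannZeta s = 0 := by
      rw [riemannZeta_def_of_ne_zero h0] at hs
      rcases div_eq_zero_iff.mp hs with h1 | h1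
      · exact h1
      · exfalso
        rw [Gammaℝ_eq_zero_iff] at h1
        obtain ⟨n, hn⟩ := h1
        rcases Nat.eq_zero_or_pos n with hn0 | hn0
        · apply h0
          rw [hn, hn0]
          simp
        · apply htriv
          refine ⟨n - 1, ?_⟩
          rw [hn]
          have : ((n - 1 : ℕ) : ℂ) = (n : ℂ) - 1 := by
            push_cast [Nat.cast_sub hn0]
            ring
          rw [this]
          ring
    have e : (1 / 2 + (s - 1 / 2) : ℂ) = s := by ring
    have h2 := completed_eq (w := s - 1 / 2) (by rw [e]; exact h0) (by rw [e]; exact hs1)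
    rw [e, hL, mul_zero, zero_div] at h2
    have h3 := h _ h2
    norm_num at h3
    linarith

/-- **the Riemann hypothesis is the conjunction of the inequalities over all heights** -/
theorem rh_iff_lag : RiemannHypothesis ↔ ∀ t : ℝ, Lag t := by
  rw [rh_iff]
  constructor
  · intro h t
    apply lag_of_cone
    intro w hw
    rw [h w hw, abs_zero]
    exact abs_nonneg _
  · intro h w hw
    by_contra hne
    apply ne_zero_of_lag (h w.im) hne
    have : (1 / 2 + (w.re : ℂ) + w.im * I : ℂ) = 1 / 2 + w := by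
      rw [add_assoc, re_add_im]
    rw [this, ← Xi_xi]
    exact hw

end Pool.Agent.J4H4.Fin
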