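import Mathlib

/-!
# The Gamma kernel as an approximate identity in the scale
-/

set_option autoImplicit false

open MeasureTheory Filter Topology Set

namespace Pool.Agent.J4H4.Gam

/-- the Gamma probability density with mean `(1 + 1/k) T` and relative width `1/√k` -/
noncomputable def w (k : ℕ) (T t : ℝ) : ℝ :=
  (k / T) ^ (k + 1) * t ^ k * Real.exp (-(k / T * t)) / (k.factorial : ℝ)

lemma w_nonneg {k : ℕ} {T t : ℝ} (hT : 0 < T) (ht : 0 ≤ t) : 0 ≤ w k T t := by
  unfold w; positivity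

lemma gamma_int (k j : ℕ) (hk : 1 ≤ k) {t : ℝ} (ht : 0 < t) :
    ∫ S in Ioi (0 : ℝ), w k S t * (t / S) ^ j =
      (k : ℝ) ^ (k + 1) * t ^ (k + j) / k.factorial * ((1 / (k * t)) ^ (k + j) * ((k + j - 1).factorial : ℝ)) := by
  have hk0 : (0 : ℝ) < k := by exact_mod_cast hk
  have h1 := integral_comp_rpow_Ioi (fun y : ℝ => (k : ℝ) ^ (k + 1) * t ^ (k + j) / k.factorial *
    (y ^ ((k + j : ℕ) - 1 : ℝ) * Real.exp (-((k * t) * y)))) (p := -1) (by norm_num)
  have h2 : ∫ S in Ioi (0 : ℝ), w k S t * (t / S) ^ j =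
      ∫ x in Ioi (0 : ℝ), (|(-1 : ℝ)| * x ^ ((-1 : ℝ) - 1)) • (fun y : ℝ => (k : ℝ) ^ (k + 1) *
        t ^ (k + j) / k.factorial * (y ^ ((k + j : ℕ) - 1 : ℝ) * Real.exp (-((k * t) * y)))) (x ^ (-1 : ℝ)) := by
    refine setIntegral_congr_fun measurableSet_Ioi fun S hS => ?_
    have hS0 : (0 : ℝ) < S := hS
    simp only [smul_eq_mul]
    rw [Real.rpow_neg_one, abs_neg, abs_one, one_mul]
    have e1 : S ^ ((-1 : ℝ) - 1) = (S ^ 2)⁻¹ := by
      rw [show ((-1 : ℝ) - 1) = -((2 : ℕ) : ℝ) by norm_num, Real.rpow_neg hS0.le, Real.rpow_natCast]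
    have e2 : (S⁻¹ : ℝ) ^ (((k + j : ℕ) : ℝ) - 1) = (S ^ (k + j - 1))⁻¹ := by
      have : (((k + j : ℕ) : ℝ) - 1) = ((k + j - 1 : ℕ) : ℝ) := by
        rw [Nat.cast_sub (by omega)]; simp
      rw [this, Real.rpow_natCast, inv_pow]
    rw [e1, e2]
    unfold w
    have e3 : (k : ℝ) / S * t = k * t * S⁻¹ := by ring
    rw [e3, div_pow, div_pow]
    have e4 : S ^ (k + 1) * S ^ j = S ^ 2 * S ^ (k + j - 1) := by
      rw [← pow_add, ← pow_add]
      congr 1
      omega
    have e5 : t ^ (k + j) = t ^ k * t ^ j := pow_add _ _ _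
    rw [e5]
    have p1 : S ^ (k + 1) ≠ 0 := by positivity
    have p2 : S ^ j ≠ 0 := by positivity
    have p3 : S ^ 2 ≠ 0 := by positivity
    have p4 : S ^ (k + j - 1) ≠ 0 := by positivity
    calc (k : ℝ) ^ (k + 1) / S ^ (k + 1) * t ^ k * Real.exp (-(k * t * S⁻¹)) / k.factorial * (t ^ j / S ^ j) =
        (k : ℝ) ^ (k + 1) * t ^ k * t ^ j * Real.exp (-(k * t * S⁻¹)) / k.factorial / (S ^ (k + 1) * S ^ j) := by
          field_simp
      _ = _ := by
          rw [e4]; field_simp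
  rw [h2, h1, integral_const_mul, Real.integral_rpow_mul_exp_neg_mul_Ioi (by
    have : 1 ≤ k + j := by omega
    exact_mod_cast this) (by positivity)]
  rw [Real.rpow_natCast]
  congr 2
  have : ((k + j : ℕ) : ℝ) = ((k + j - 1 : ℕ) : ℝ) + 1 := by
    rw [Nat.cast_sub (by omega)]; simp
  rw [this, Real.Gamma_nat_eq_factorial]

lemma gamma_vals (k : ℕ) (hk : 1 ≤ k) {t : ℝ} (ht : 0 < t) :
    (∫ S in Ioi (0 : ℝ), w k S t * (t / S) ^ 0 = 1) ∧ (∫ S in Ioi (0 : ℝ), w k S t * (t / S) ^ 1 = 1) ∧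
    (∫ S in Ioi (0 : ℝ), w k S t * (t / S) ^ 2 = 1 + 1 / k) := by
  have hk0 : (k : ℝ) ≠ 0 := by exact_mod_cast (by omega : k ≠ 0)
  have ht0 := ht.ne'
  obtain ⟨m, rfl⟩ : ∃ m, k = m + 1 := ⟨k - 1, by omega⟩
  have hf : ((m + 1).factorial : ℝ) = (m + 1) * m.factorial := by
    rw [Nat.factorial_succ]; push_cast; ring
  have hf2 : ((m + 2).factorial : ℝ) = (m + 2) * ((m + 1) * m.factorial) := by
    rw [Nat.factorial_succ, Nat.factorial_succ]; push_cast; ring
  have hm : (m.factorial : ℝ) ≠ 0 := by exact_mod_cast m.factorial_ne_zero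
  have hm1 : ((m : ℝ) + 1) ≠ 0 := by positivity
  refine ⟨?_, ?_, ?_⟩
  · rw [gamma_int _ _ hk ht]
    have : m + 1 + 0 - 1 = m := by omega
    rw [this, hf]
    push_cast
    rw [div_pow, mul_pow, one_pow]
    field_simp
    ring
  · rw [gamma_int _ _ hk ht]
    have : m + 1 + 1 - 1 = m + 1 := by omega
    rw [this, hf]
    push_cast
    rw [div_pow, mul_pow, one_pow]
    field_simp
  · rw [gamma_int _ _ hk ht]
    have : m + 1 + 2 - 1 = m + 2 := by omega
    rw [this, hf, hf2]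
    push_cast
    rw [div_pow, mul_pow, one_pow]
    field_simp
    ring

lemma gamma_integrable (k j : ℕ) (hk : 1 ≤ k) {t : ℝ} (ht : 0 < t) :
    IntegrableOn (fun S : ℝ => w k S t * (t / S) ^ j) (Ioi 0) := by
  by_contra h
  have h1 := gamma_int k j hk ht
  rw [integral_undef h] at h1
  have hk0 : (0 : ℝ) < k := by exact_mod_cast hk
  have : 0 < (k : ℝ) ^ (k + 1) * t ^ (k + j) / k.factorial *
    ((1 / (k * t)) ^ (k + j) * ((k + j - 1).factorial : ℝ)) := by positivity
  linarith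

/-- most of the mass in `S` is close to `t` -/
theorem mass {k : ℕ} (hk : 1 ≤ k) {t δ A B : ℝ} (ht : 0 < t) (hδ : 0 < δ) (hA : 0 < A)
    (hAt : A * (1 + δ) ≤ t) (hBt : t ≤ B * (1 - δ)) (hAB : A ≤ B) :
    1 - 1 / (k * δ ^ 2) ≤ ∫ S in A..B, w k S t := by
  have hk0 : (0 : ℝ) < k := by exact_mod_cast hk
  obtain ⟨v0, v1, v2⟩ := gamma_vals k hk ht
  have i0 := gamma_integrable k 0 hk ht
  have i1 := gamma_integrable k 1 hk ht
  have i2 := gamma_integrable k 2 hk ht
  have hw : IntegrableOn (fun S : ℝ => w k S t) (Ioi 0) := by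
    simpa using i0
  have hsq : ∫ S in Ioi (0 : ℝ), (w k S t * (t / S) ^ 0 - δ⁻¹ ^ 2 * (w k S t * (t / S) ^ 2 -
      2 * (w k S t * (t / S) ^ 1) + w k S t * (t / S) ^ 0)) = 1 - 1 / (k * δ ^ 2) := by
    have e1 : Integrable (fun S : ℝ => w k S t * (t / S) ^ 2 - 2 * (w k S t * (t / S) ^ 1))
        (volume.restrict (Ioi 0)) := i2.sub (i1.const_mul 2)
    have e2 : Integrable (fun S : ℝ => w k S t * (t / S) ^ 2 - 2 * (w k S t * (t / S) ^ 1) +
        w k S t * (t / S) ^ 0) (volume.restrict (Ioi 0)) := e1.add i0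
    rw [integral_sub i0 (e2.const_mul _), integral_const_mul, integral_add e1 i0,
      integral_sub i2 (i1.const_mul 2), integral_const_mul, v0, v1, v2]
    field_simp
    ring
  have hint : Integrable (fun S : ℝ => w k S t * (t / S) ^ 0 - δ⁻¹ ^ 2 * (w k S t * (t / S) ^ 2 -
      2 * (w k S t * (t / S) ^ 1) + w k S t * (t / S) ^ 0)) (volume.restrict (Ioi 0)) :=
    i0.sub (((i2.sub (i1.const_mul 2)).add i0).const_mul _)
  have hpt : ∀ S ∈ Ioi (0 : ℝ), w k S t * (t / S) ^ 0 - δ⁻¹ ^ 2 * (w k S t * (t / S) ^ 2 -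
      2 * (w k S t * (t / S) ^ 1) + w k S t * (t / S) ^ 0) ≤ (Ioc A B).indicator (fun S => w k S t) S := by
    intro S hS
    have hS0 : (0 : ℝ) < S := hS
    have hw0 : 0 ≤ w k S t := w_nonneg hS0 ht.le
    have e : w k S t * (t / S) ^ 0 - δ⁻¹ ^ 2 * (w k S t * (t / S) ^ 2 -
      2 * (w k S t * (t / S) ^ 1) + w k S t * (t / S) ^ 0) = w k S t * (1 - (δ⁻¹ * (t / S - 1)) ^ 2) := by
      ring
    rw [e]
    by_cases hm : S ∈ Ioc A B
    · rw [indicator_of_mem hm]
      have : 0 ≤ (δ⁻¹ * (t / S - 1)) ^ 2 := sq_nonneg _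
      nlinarith
    · rw [indicator_of_notMem hm]
      apply mul_nonpos_of_nonneg_of_nonpos hw0
      have h1 : 1 ≤ |δ⁻¹ * (t / S - 1)| := by
        rw [abs_mul, abs_of_pos (inv_pos.mpr hδ), inv_mul_eq_div, le_div_iff₀ hδ, one_mul]
        rw [mem_Ioc, not_and_or, not_lt, not_le] at hm
        rcases hm with h2 | h2
        · have : 1 + δ ≤ t / S := by
            rw [le_div_iff₀ hS0]
            have : (1 + δ) * S ≤ (1 + δ) * A := mul_le_mul_of_nonneg_left h2 (by linarith)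
            linarith
          rw [abs_of_nonneg (by linarith)]
          linarith
        · have : t / S ≤ 1 - δ := by
            rw [div_le_iff₀ hS0]
            have hpos : 0 < 1 - δ := by
              by_contra hcon
              push Not at hcon
              have hB : 0 < B := lt_of_lt_of_le hA hAB
              nlinarith
            have : (1 - δ) * B ≤ (1 - δ) * S := mul_le_mul_of_nonneg_left h2.le hpos.le
            linarith
          rw [abs_of_nonpos (by linarith)]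
          linarith
      have h2 : 1 ≤ |δ⁻¹ * (t / S - 1)| ^ 2 := one_le_pow₀ h1
      rw [sq_abs] at h2
      linarith
  have hind : Integrable ((Ioc A B).indicator (fun S => w k S t)) (volume.restrict (Ioi 0)) :=
    (hw.integrable).indicator measurableSet_Ioc
  have h3 := setIntegral_mono_on hint hind measurableSet_Ioi hpt
  rw [hsq, setIntegral_indicator measurableSet_Ioc] at h3
  have h4 : Ioi (0 : ℝ) ∩ Ioc A B = Ioc A B := by
    rw [inter_eq_right]
    intro x hx
    exact hA.trans hx.1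
  rw [h4] at h3
  rw [intervalIntegral.integral_of_le hAB]
  exact h3

end Pool.Agent.J4H4.Gam
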