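import Pool.Agent.J4H4.Blk

/-!
# The Poisson-Jensen inequality, integrated over the height
-/

set_option autoImplicit false

open MeasureTheory Filter Topology Complex Set

namespace Pool.Agent.J4H4.Itg

open Pool.Agent.J4H4.Poi Pool.Agent.J4H4.Gint Pool.Agent.J4H4.Blk

/-- the tail of the kernel, times `|u|^(2/5)` -/
noncomputable def ph (a D x : ℝ) : ℝ := (Ioi D).indicator (fun x => a * x ^ (-(8 / 5) : ℝ)) x

lemma ph_int {a D : ℝ} (ha : 0 < a) (hD : 0 < D) :
    Integrable (fun u : ℝ => ph a D |u|) ∧ ∫ u : ℝ, ph a D |u| ≤ 4 * a * D ^ (-(3 / 5) : ℝ) := by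
  have h4 : (0 : ℝ) < D ^ (-(3 / 5) : ℝ) := Real.rpow_pos_of_pos hD _
  have h6 : ∫ u : ℝ, ph a D |u| = 10 / 3 * (a * D ^ (-(3 / 5) : ℝ)) := by
    rw [integral_comp_abs]
    have h3 : ∫ x in Ioi (0 : ℝ), ph a D x = ∫ x in Ioi D, a * x ^ (-(8 / 5) : ℝ) := by
      unfold ph
      rw [setIntegral_indicator measurableSet_Ioi, Ioi_inter_Ioi]
      congr 2
      rw [max_eq_right hD.le]
    rw [h3, integral_const_mul, integral_Ioi_rpow_of_lt (by norm_num) hD]
    have h5 : (-(8 / 5) + 1 : ℝ) = -(3 / 5) := by norm_num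
    rw [h5]
    ring
  constructor
  · by_contra h
    rw [integral_undef h] at h6
    have : 0 < 10 / 3 * (a * D ^ (-(3 / 5) : ℝ)) := by positivity
    linarith
  · rw [h6]
    nlinarith [mul_pos ha h4]

lemma swap {a T1 T2 C : ℝ} (ha : 0 < a) (h12 : T1 ≤ T2) {q : ℝ → ℝ} (hq : Continuous q)
    (hC : ∀ v, |q v| ≤ C) :
    IntervalIntegrable (fun t => ∫ u : ℝ, P a u * q (t + u)) volume T1 T2 ∧
    Integrable (fun u : ℝ => P a u * ∫ t in T1..T2, q (t + u)) ∧
    ∫ t in T1..T2, (∫ u : ℝ, P a u * q (t + u)) = ∫ u : ℝ, P a u * ∫ t in T1..T2, q (t + u) := by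
  have hprod : Integrable (Function.uncurry fun (t : ℝ) (u : ℝ) => P a u * q (t + u))
      ((volume.restrict (Ioc T1 T2)).prod volume) := by
    have h1 : Integrable (fun _ : ℝ => (1 : ℝ)) (volume.restrict (Ioc T1 T2)) :=
      integrable_const_iff.mpr (Or.inr ⟨by simp⟩)
    have h2 := h1.mul_prod (P_integrable ha)
    have h3 := h2.mul_bdd (c := C) (g := fun z : ℝ × ℝ => q (z.1 + z.2))
      (by
        refine Continuous.aestronglyMeasurable ?_
        exact hq.comp (continuous_fst.add continuous_snd))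
      (Eventually.of_forall fun z => by rw [Real.norm_eq_abs]; exact hC _)
    refine h3.congr (Eventually.of_forall fun z => ?_)
    simp [Function.uncurry]
  have hL := hprod.integral_prod_left
  have hR := hprod.integral_prod_right
  have hs := integral_integral_swap hprod
  have e1 : ∀ u : ℝ, ∫ t in Ioc T1 T2, P a u * q (t + u) = P a u * ∫ t in T1..T2, q (t + u) := by
    intro u
    rw [integral_const_mul, intervalIntegral.integral_of_le h12]
  refine ⟨?_, ?_, ?_⟩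
  · rw [intervalIntegrable_iff_integrableOn_Ioc_of_le h12]
    exact hL
  · refine hR.congr (Eventually.of_forall fun u => ?_)
    exact e1 u
  · rw [intervalIntegral.integral_of_le h12, hs]
    exact integral_congr_ae (Eventually.of_forall e1)

/-- the double integral -/
theorem XX_le {a T1 T2 C D K κ : ℝ} (ha : 0 < a) (h12 : T1 ≤ T2) (hD : 0 < D) (hκ : 0 ≤ κ) (hK : 0 ≤ K)
    {q : ℝ → ℝ} (hq : Continuous q) (hq0 : ∀ v, 0 ≤ q v) (hC : ∀ v, q v ≤ C)
    (hqK : ∀ v, q v ≤ K * (1 + |v|) ^ (2 / 5 : ℝ)) (hκD : ∀ t, T1 ≤ t → t ≤ T2 → 1 + |t| ≤ κ * D) :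
    ∫ u : ℝ, P a u * ∫ t in T1..T2, q (t + u) ≤
      (∫ v in (T1 - D)..(T2 + D), q v) +
        (T2 - T1) * (K * (κ + 1) ^ (2 / 5 : ℝ) * (4 * a * D ^ (-(3 / 5) : ℝ))) := by
  have hCabs : ∀ v, |q v| ≤ C := fun v => by rw [abs_of_nonneg (hq0 v)]; exact hC v
  obtain ⟨-, hint, -⟩ := swap ha h12 hq hCabs
  obtain ⟨hp1, hp2⟩ := ph_int ha hD
  set I0 : ℝ := ∫ v in (T1 - D)..(T2 + D), q v with hI0
  have hI0n : 0 ≤ I0 := intervalIntegral.integral_nonneg (by linarith) fun v _ => hq0 v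
  set B : ℝ := (T2 - T1) * (K * (κ + 1) ^ (2 / 5 : ℝ)) with hB
  have hBn : 0 ≤ B := by
    have : 0 ≤ T2 - T1 := by linarith
    positivity
  have hpt : ∀ u : ℝ, P a u * (∫ t in T1..T2, q (t + u)) ≤ I0 * P a u + B * ph a D |u| := by
    intro u
    have hP := P_nonneg ha u
    rcases le_or_gt |u| D with hu | hu
    · have h1 : ∫ t in T1..T2, q (t + u) ≤ I0 := by
        rw [intervalIntegral.integral_comp_add_right (fun v => q v) u, hI0]
        have hu' := abs_le.mp hu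
        exact intervalIntegral.integral_mono_interval (by linarith) (by linarith) (by linarith)
          (Eventually.of_forall fun v => hq0 v) (hq.intervalIntegrable _ _)
      have h2 : 0 ≤ B * ph a D |u| := by
        refine mul_nonneg hBn ?_
        unfold ph
        refine indicator_nonneg (fun x hx => ?_) _
        have : (0 : ℝ) < x := hD.trans hx
        positivity
      calc P a u * (∫ t in T1..T2, q (t + u)) ≤ P a u * I0 := mul_le_mul_of_nonneg_left h1 hP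
        _ ≤ _ := by linarith
    · have hu0 : 0 < |u| := hD.trans hu
      have h1 : ∫ t in T1..T2, q (t + u) ≤ (T2 - T1) * (K * ((κ + 1) ^ (2 / 5 : ℝ) * |u| ^ (2 / 5 : ℝ))) := by
        have h3 : ∀ t ∈ Icc T1 T2, q (t + u) ≤ K * ((κ + 1) ^ (2 / 5 : ℝ) * |u| ^ (2 / 5 : ℝ)) := by
          intro t ht
          refine (hqK _).trans (mul_le_mul_of_nonneg_left ?_ hK)
          rw [← Real.mul_rpow (by linarith) hu0.le]
          refine Real.rpow_le_rpow (by positivity) ?_ (by norm_num)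
          have h4 := abs_add_le t u
          have h5 := hκD t ht.1 ht.2
          have h6 : κ * D ≤ κ * |u| := mul_le_mul_of_nonneg_left hu.le hκ
          linarith
        have h3i : IntervalIntegrable (fun t => q (t + u)) volume T1 T2 :=
          (hq.comp (continuous_add_const u)).intervalIntegrable _ _
        have h7 := intervalIntegral.integral_mono_on h12 h3i intervalIntegrable_const h3
        refine h7.trans (le_of_eq ?_)
        rw [intervalIntegral.integral_const, smul_eq_mul]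
      have h8 : P a u * |u| ^ (2 / 5 : ℝ) ≤ ph a D |u| := by
        unfold ph
        rw [indicator_of_mem (show |u| ∈ Ioi D from hu)]
        have h9 : P a u ≤ a * |u| ^ (-2 : ℝ) := by
          unfold P
          rw [Real.rpow_neg hu0.le, ← div_eq_mul_inv]
          refine div_le_div_of_nonneg_left ha.le (by positivity) ?_
          have h10 : |u| ^ (2 : ℝ) = u ^ 2 := by
            rw [show (2 : ℝ) = ((2 : ℕ) : ℝ) by norm_num, Real.rpow_natCast, sq_abs]
          rw [h10]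
          have := Real.pi_gt_three
          nlinarith [sq_nonneg a, sq_nonneg u]
        calc P a u * |u| ^ (2 / 5 : ℝ) ≤ a * |u| ^ (-2 : ℝ) * |u| ^ (2 / 5 : ℝ) :=
              mul_le_mul_of_nonneg_right h9 (by positivity)
          _ = a * |u| ^ (-(8 / 5) : ℝ) := by
              rw [mul_assoc, ← Real.rpow_add hu0]; norm_num
      have h11 : P a u * (∫ t in T1..T2, q (t + u)) ≤ B * ph a D |u| := by
        calc P a u * (∫ t in T1..T2, q (t + u)) ≤
            P a u * ((T2 - T1) * (K * ((κ + 1) ^ (2 / 5 : ℝ) * |u| ^ (2 / 5 : ℝ)))) :=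
              mul_le_mul_of_nonneg_left h1 hP
          _ = B * (P a u * |u| ^ (2 / 5 : ℝ)) := by rw [hB]; ring
          _ ≤ _ := mul_le_mul_of_nonneg_left h8 hBn
      have : 0 ≤ I0 * P a u := mul_nonneg hI0n hP
      linarith
  have hi1 := (P_integrable ha).const_mul I0
  have hi2 := hp1.const_mul B
  calc ∫ u : ℝ, P a u * ∫ t in T1..T2, q (t + u) ≤ ∫ u : ℝ, (I0 * P a u + B * ph a D |u|) :=
        integral_mono hint (hi1.add hi2) hpt
    _ = I0 + B * ∫ u : ℝ, ph a D |u| := by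
        rw [integral_add hi1 hi2, integral_const_mul, integral_const_mul, P_integral ha, mul_one]
    _ ≤ I0 + B * (4 * a * D ^ (-(3 / 5) : ℝ)) := by
        have := mul_le_mul_of_nonneg_left hp2 hBn
        linarith
    _ = _ := by rw [hB]; ring

/-- the integrated inequality -/
theorem zeros_le {F : ℂ → ℂ} {U : Set ℂ} (hU : IsOpen U) (hUs : ∀ z : ℂ, 0 ≤ z.re → z ∈ U)
    (hF : DifferentiableOn ℂ F U) {C : ℝ} (hC : ∀ z : ℂ, 0 ≤ z.re → ‖F z‖ ≤ C)
    (Z : Finset ℂ) (n : ℂ → ℕ) (hZ : ∀ ρ ∈ Z, 0 < ρ.re)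
    (hn : ∀ ρ ∈ Z, (n ρ : ℕ∞) ≤ analyticOrderAt F ρ) {a : ℝ} (ha : 0 < a)
    (haZ : ∀ ρ ∈ Z, ρ.re < a) {T1 T2 D K κ η c : ℝ} (h12 : T1 < T2) (hD : 0 < D) (hκ : 0 ≤ κ)
    (hK : 0 ≤ K) (hc : 0 < c) (hZT : ∀ ρ ∈ Z, T1 + D ≤ ρ.im ∧ ρ.im + D ≤ T2)
    (hqK : ∀ v : ℝ, ‖F (v * I)‖ ^ 2 ≤ K * (1 + |v|) ^ (2 / 5 : ℝ))
    (hκD : ∀ t, T1 ≤ t → t ≤ T2 → 1 + |t| ≤ κ * D)
    (hlow : ∀ t, T1 ≤ t → t ≤ T2 → Real.exp (-η) ≤ ‖F (a + t * I)‖ ^ 2)
    (hI : (∫ v in (T1 - D)..(T2 + D), ‖F (v * I)‖ ^ 2) +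
        (T2 - T1) * (K * (κ + 1) ^ (2 / 5 : ℝ) * (4 * a * D ^ (-(3 / 5) : ℝ))) ≤ c * (T2 - T1)) :
    ∑ ρ ∈ Z, (n ρ : ℝ) * (8 * ρ.re * (Real.pi / 2 - (a + ρ.re) / D)) ≤ (T2 - T1) * (Real.log c + η) := by
  have hfd : ∀ z : ℂ, 0 ≤ z.re → DifferentiableAt ℂ F z := fun z hz =>
    (hF z (hUs z hz)).differentiableAt (hU.mem_nhds (hUs z hz))
  set q : ℝ → ℝ := fun v => ‖F (v * I)‖ ^ 2 with hq
  have hqc : Continuous q := by
    have := line_cont hfd 0
    simp only [zero_add] at this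
    exact this.norm.pow 2
  have hq0 : ∀ v, 0 ≤ q v := fun v => by simp only [hq]; positivity
  have hqC : ∀ v, q v ≤ C ^ 2 := fun v => pow_le_pow_left₀ (norm_nonneg _) (hC _ (by simp)) 2
  have hXq : ∀ t, XX a F t = ∫ u : ℝ, P a u * q (t + u) := fun t => rfl
  obtain ⟨s1, s2, s3⟩ := swap ha h12.le hqc (fun v => by rw [abs_of_nonneg (hq0 v)]; exact hqC v)
  have hX := XX_le ha h12.le hD hκ hK hqc hq0 hqC hqK hκD
  rw [← s3] at hX
  have hX2 : ∫ t in T1..T2, XX a F t ≤ c * (T2 - T1) := by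
    simp only [hXq]
    exact hX.trans hI
  have hXi : IntervalIntegrable (fun t => XX a F t) volume T1 T2 := by
    simp only [hXq]; exact s1
  -- pointwise
  have hpt : ∀ t ∈ Icc T1 T2, ∑ ρ ∈ Z, (n ρ : ℝ) * G0 a ρ.re (t - ρ.im) ≤
      (η + Real.log c - 1) + c⁻¹ * XX a F t := by
    intro t ht
    have hl := hlow t ht.1 ht.2
    have hne : F (a + t * I) ≠ 0 := by
      intro h
      rw [h] at hl
      simp only [norm_zero, ne_eq, OfNat.ofNat_ne_zero, not_false_eq_true, zero_pow] at hl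
      exact absurd hl (not_le.mpr (Real.exp_pos _))
    obtain ⟨h1, h2⟩ := pj hU hUs hF hC Z n hZ hn ha haZ t hne
    have h3 : -η ≤ Real.log (‖F (a + t * I)‖ ^ 2) := by
      have := Real.log_le_log (Real.exp_pos _) hl
      rwa [Real.log_exp] at this
    have h4 : Real.log (XX a F t) ≤ Real.log c + (c⁻¹ * XX a F t - 1) := by
      have h5 : XX a F t = c * (c⁻¹ * XX a F t) := by field_simp
      have h6 : 0 < c⁻¹ * XX a F t := by positivity
      conv_lhs => rw [h5]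
      rw [Real.log_mul hc.ne' h6.ne']
      have := Real.log_le_sub_one_of_pos h6
      linarith
    linarith
  have hG : ∀ ρ ∈ Z, 8 * ρ.re * (Real.pi / 2 - (a + ρ.re) / D) ≤ ∫ t in T1..T2, G0 a ρ.re (t - ρ.im) := by
    intro ρ hρ
    have := hZT ρ hρ
    exact G_int (hZ ρ hρ) (haZ ρ hρ) hD (by linarith [this.1]) (by linarith [this.2])
  have hGi : ∀ ρ ∈ Z, IntervalIntegrable (fun t => G0 a ρ.re (t - ρ.im)) volume T1 T2 := fun ρ hρ =>
    ((G0_cont (hZ ρ hρ).le (haZ ρ hρ)).comp (continuous_sub_right ρ.im)).intervalIntegrable _ _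
  have hsum : ∑ ρ ∈ Z, (n ρ : ℝ) * ∫ t in T1..T2, G0 a ρ.re (t - ρ.im) =
      ∫ t in T1..T2, ∑ ρ ∈ Z, (n ρ : ℝ) * G0 a ρ.re (t - ρ.im) := by
    rw [intervalIntegral.integral_finsetSum fun ρ hρ => (hGi ρ hρ).const_mul _]
    refine Finset.sum_congr rfl fun ρ _ => ?_
    rw [intervalIntegral.integral_const_mul]
  have hSi : IntervalIntegrable (fun t => ∑ ρ ∈ Z, (n ρ : ℝ) * G0 a ρ.re (t - ρ.im)) volume T1 T2 :=
    Continuous.intervalIntegrable (continuous_finsetSum Z fun ρ hρ =>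
      ((G0_cont (hZ ρ hρ).le (haZ ρ hρ)).comp (continuous_sub_right ρ.im)).const_mul _) _ _
  calc ∑ ρ ∈ Z, (n ρ : ℝ) * (8 * ρ.re * (Real.pi / 2 - (a + ρ.re) / D)) ≤
      ∑ ρ ∈ Z, (n ρ : ℝ) * ∫ t in T1..T2, G0 a ρ.re (t - ρ.im) :=
        Finset.sum_le_sum fun ρ hρ => mul_le_mul_of_nonneg_left (hG ρ hρ) (Nat.cast_nonneg _)
    _ = ∫ t in T1..T2, ∑ ρ ∈ Z, (n ρ : ℝ) * G0 a ρ.re (t - ρ.im) := hsum
    _ ≤ ∫ t in T1..T2, ((η + Real.log c - 1) + c⁻¹ * XX a F t) :=
        intervalIntegral.integral_mono_on h12.le hSi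
          (intervalIntegrable_const.add (hXi.const_mul _)) hpt
    _ = (T2 - T1) * (η + Real.log c - 1) + c⁻¹ * ∫ t in T1..T2, XX a F t := by
        rw [intervalIntegral.integral_add intervalIntegrable_const (hXi.const_mul _),
          intervalIntegral.integral_const, smul_eq_mul, intervalIntegral.integral_const_mul]
    _ ≤ (T2 - T1) * (η + Real.log c - 1) + c⁻¹ * (c * (T2 - T1)) := by
        have := mul_le_mul_of_nonneg_left hX2 (inv_nonneg.mpr hc.le)
        linarith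
    _ = _ := by field_simp; ring

end Pool.Agent.J4H4.Itg
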