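import Pool.Agent.J4H4.Fin

/-!
# The measure of the exceptional heights
-/

set_option autoImplicit false

open Complex Filter Topology MeasureTheory Set
open scoped ComplexConjugate

namespace Pool.Agent.J4H4.Mea

open Pool.Agent.J4H1.JP Pool.Agent.J4H4.Str Pool.Agent.J4H4.Fin

/-- a bound for the total distance of the zeros of zeta to the right of the critical line -/
def DistB (c0 : ℝ) : Prop := ∀ α β c : ℝ, 0 < α → α < β → c0 < c →
    ∀ᶠ T : ℝ in atTop, ∀ (Z : Finset ℂ) (n : ℂ → ℕ),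
      (∀ ρ ∈ Z, 1 / 2 < ρ.re ∧ α * T ≤ ρ.im ∧ ρ.im ≤ β * T ∧
        (n ρ : ℕ∞) ≤ analyticOrderAt riemannZeta ρ) →
      ∑ ρ ∈ Z, (n ρ : ℝ) * (ρ.re - 1 / 2) ≤ c * ((β - α) * T)

lemma zeros_finite {f : ℂ → ℂ} (hf : Differentiable ℂ f) (hne : ∃ z, f z ≠ 0) {K : Set ℂ} (hK : IsCompact K) :
    ({z | f z = 0} ∩ K).Finite := by
  by_contra hinf
  have hinf : ({z | f z = 0} ∩ K).Infinite := hinf
  obtain ⟨z0, hz0, hacc⟩ := hinf.exists_accPt_of_subset_isCompact hK inter_subset_right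
  rw [accPt_iff_frequently_nhdsNE] at hacc
  obtain ⟨z, hz⟩ := hne
  have hana : AnalyticOnNhd ℂ f Set.univ := fun z _ => hf.analyticAt z
  have h := hana.eqOn_zero_of_preconnected_of_frequently_eq_zero isPreconnected_univ (mem_univ z0)
    (hacc.mono fun y hy => hy.1)
  exact hz (h (mem_univ z))

/-- zeros of `Xi` to the right of the line are zeros of zeta -/
lemma zeta_zero {w : ℂ} (hw : Xi w = 0) (h0 : 0 < w.re) :
    riemannZeta (1 / 2 + w) = 0 ∧ 1 / 2 + w ≠ 1 ∧ w.re < 1 / 2 := by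
  have hre : |w.re| < 1 / 2 := by
    by_contra hcon
    push Not at hcon
    exact Xi_ne hcon hw
  rw [abs_lt] at hre
  have h0' : 1 / 2 + w ≠ 0 := by
    intro h
    have := congrArg Complex.re h
    norm_num at this
    linarith
  have h1 : 1 / 2 + w ≠ 1 := by
    intro h
    have := congrArg Complex.re h
    norm_num at this
    linarith
  have h2 := completed_eq h0' h1
  rw [hw] at h2
  have h3 : completedRiemannZeta (1 / 2 + w) = 0 := by
    have h4 : (1 / 2 + w) * ((1 / 2 + w) - 1) ≠ 0 := mul_ne_zero h0' (sub_ne_zero.mpr h1)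
    have h5 : (1 / 2 + w) * ((1 / 2 + w) - 1) * completedRiemannZeta (1 / 2 + w) = 0 := by
      linear_combination -2 * h2
    exact (mul_eq_zero.mp h5).resolve_left h4
  refine ⟨?_, h1, hre.2⟩
  rw [riemannZeta_def_of_ne_zero h0', h3, zero_div]

lemma order_ge {w : ℂ} (hw : riemannZeta w = 0) (h1 : w ≠ 1) : ((1 : ℕ) : ℕ∞) ≤ analyticOrderAt riemannZeta w := by
  have hana : AnalyticAt ℂ riemannZeta w := by
    have hd : DifferentiableOn ℂ riemannZeta {1}ᶜ := fun z hz =>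
      (differentiableAt_riemannZeta hz).differentiableWithinAt
    exact hd.analyticAt (isOpen_compl_singleton.mem_nhds h1)
  have h2 : analyticOrderAt riemannZeta w ≠ 0 := by
    intro h
    exact (hana.analyticOrderAt_eq_zero.mp h) hw
  rw [Nat.cast_one]
  exact ENat.one_le_iff_ne_zero.mpr h2

/-- the heights in `[T, 2T]` with a zero in the cone of aperture `κ` have measure at most `2 κ` times the total
distance -/
theorem bad_le {c0 : ℝ} (hD : DistB c0) {κ c : ℝ} (hκ : 0 < κ) (hc : 2 * κ * c0 < c) :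
    ∀ᶠ T : ℝ in atTop, volume {t : ℝ | T ≤ t ∧ t ≤ 2 * T ∧ ∃ w, Xi w = 0 ∧ |w.im - t| < κ * |w.re|} ≤
      ENNReal.ofReal (c * T) := by
  -- choice of δ
  obtain ⟨δ, hδ0, hδ1, hδ⟩ : ∃ δ : ℝ, 0 < δ ∧ δ < 1 ∧ 2 * κ * ((c0 + δ) * (1 + 2 * δ)) < c := by
    have hcont : ContinuousAt (fun δ : ℝ => 2 * κ * ((c0 + δ) * (1 + 2 * δ))) 0 := by fun_prop
    have h1 : (fun δ : ℝ => 2 * κ * ((c0 + δ) * (1 + 2 * δ))) 0 < c := by
      simpa using hc
    have h2 := (hcont.eventually_lt continuousAt_const h1).filter_mono (nhdsWithin_le_nhds (s := Ioi (0 : ℝ)))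
    have h3 : ∀ᶠ δ : ℝ in 𝓝[>] 0, δ ∈ Ioo (0 : ℝ) 1 := Ioo_mem_nhdsGT (by norm_num)
    obtain ⟨δ, h4, h5⟩ := (h2.and h3).exists
    exact ⟨δ, h5.1, h5.2, h4⟩
  filter_upwards [hD (1 - δ) (2 + δ) (c0 + δ) (by linarith) (by linarith) (by linarith),
    eventually_ge_atTop (κ / (2 * δ)), eventually_gt_atTop (0 : ℝ)] with T hT hT2 hT0
  have hTκ : κ / 2 ≤ δ * T := by
    rw [div_le_iff₀ (by positivity)] at hT2
    linarith
  -- the zeros
  have hfin : ({w | Xi w = 0} ∩ (Icc (0 : ℝ) (1 / 2) ×ℂ Icc ((1 - δ) * T) ((2 + δ) * T))).Finite :=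
    zeros_finite diff_Xi ⟨1, Xi_ne (by norm_num)⟩ (isCompact_Icc.reProdIm isCompact_Icc)
  set W := hfin.toFinset.filter (fun w => 0 < w.re) with hW
  have hWm : ∀ w ∈ W, Xi w = 0 ∧ 0 < w.re ∧ (1 - δ) * T ≤ w.im ∧ w.im ≤ (2 + δ) * T := by
    intro w hw
    rw [hW, Finset.mem_filter, Set.Finite.mem_toFinset] at hw
    obtain ⟨⟨h1, h2⟩, h3⟩ := hw
    rw [mem_reProdIm] at h2
    exact ⟨h1, h3, h2.2.1, h2.2.2⟩
  have hsum : ∑ w ∈ W, w.re ≤ (c0 + δ) * (((2 + δ) - (1 - δ)) * T) := by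
    have h1 := hT (W.map ⟨fun w => 1 / 2 + w, add_right_injective _⟩) (fun _ => 1) (by
      intro ρ hρ
      rw [Finset.mem_map] at hρ
      obtain ⟨w, hw, rfl⟩ := hρ
      obtain ⟨h1, h2, h3, h4⟩ := hWm w hw
      obtain ⟨h5, h6, h7⟩ := zeta_zero h1 h2
      simp only [Function.Embedding.coeFn_mk]
      refine ⟨?_, ?_, ?_, order_ge h5 h6⟩
      · norm_num; exact h2
      · norm_num; exact h3
      · norm_num; exact h4)
    rw [Finset.sum_map] at h1
    refine le_trans (le_of_eq ?_) h1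
    apply Finset.sum_congr rfl
    intro w _
    simp
  have hsub : {t : ℝ | T ≤ t ∧ t ≤ 2 * T ∧ ∃ w, Xi w = 0 ∧ |w.im - t| < κ * |w.re|} ⊆
      ⋃ w ∈ W, Ioo (w.im - κ * w.re) (w.im + κ * w.re) := by
    rintro t ⟨h1, h2, w, h3, h4⟩
    have key : ∀ w : ℂ, Xi w = 0 → 0 < w.re → |w.im - t| < κ * w.re →
        t ∈ ⋃ w ∈ W, Ioo (w.im - κ * w.re) (w.im + κ * w.re) := by
      intro w hw hw0 hwt
      rw [abs_lt] at hwt
      obtain ⟨-, -, h7⟩ := zeta_zero hw hw0
      have h8 : κ * w.re ≤ κ / 2 := by nlinarith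
      simp only [mem_iUnion, mem_Ioo]
      refine ⟨w, ?_, by linarith, by linarith⟩
      rw [hW, Finset.mem_filter, Set.Finite.mem_toFinset]
      refine ⟨⟨hw, ?_⟩, hw0⟩
      rw [mem_reProdIm]
      refine ⟨⟨hw0.le, h7.le⟩, ?_, ?_⟩ <;> nlinarith
    have hre : w.re ≠ 0 := by
      intro h
      rw [h, abs_zero, mul_zero] at h4
      exact absurd h4 (not_lt.mpr (abs_nonneg _))
    rcases lt_or_gt_of_ne hre with h | h
    · apply key (conj (-w))
      · rw [Xi_conj, Xi_neg, h3, map_zero]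
      · simp; exact h
      · rw [abs_of_neg h] at h4
        simpa using h4
    · apply key w h3 h
      rw [abs_of_pos h] at h4
      exact h4
  refine (measure_mono hsub).trans ((measure_biUnion_finset_le _ _).trans ?_)
  have hvol : ∀ w ∈ W, volume (Ioo (w.im - κ * w.re) (w.im + κ * w.re)) = ENNReal.ofReal (2 * κ * w.re) := by
    intro w _
    rw [Real.volume_Ioo]
    congr 1
    ring
  rw [Finset.sum_congr rfl hvol, ← ENNReal.ofReal_sum_of_nonneg]
  · apply ENNReal.ofReal_le_ofReal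
    rw [← Finset.mul_sum]
    have h1 : 2 * κ * ∑ w ∈ W, w.re ≤ 2 * κ * ((c0 + δ) * (((2 + δ) - (1 - δ)) * T)) :=
      mul_le_mul_of_nonneg_left hsum (by positivity)
    refine h1.trans ?_
    have h2 : 2 * κ * ((c0 + δ) * (((2 + δ) - (1 - δ)) * T)) = 2 * κ * ((c0 + δ) * (1 + 2 * δ)) * T := by ring
    rw [h2]
    exact mul_le_mul_of_nonneg_right hδ.le hT0.le
  · intro w hw
    have := (hWm w hw).2.1
    positivity

/-- the exceptional heights -/
theorem bad_lag {c0 : ℝ} (hD : DistB c0) {c : ℝ} (hc : 2 * c0 < c) :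
    ∀ᶠ T : ℝ in atTop, volume {t : ℝ | T ≤ t ∧ t ≤ 2 * T ∧ ¬ Lag t} ≤ ENNReal.ofReal (c * T) := by
  filter_upwards [bad_le hD one_pos (c := c) (by linarith)] with T hT
  refine le_trans (measure_mono ?_) hT
  rintro t ⟨h1, h2, h3⟩
  refine ⟨h1, h2, ?_⟩
  by_contra hcon
  push Not at hcon
  apply h3
  apply lag_of_cone
  intro w hw
  have := hcon w hw
  rw [one_mul] at this
  exact this

end Pool.Agent.J4H4.Mea
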