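import Mathlib
import Pool.Agent.Erdos456.Mertens

/-!
# Selberg's weights and the quadratic form of the mollified second moment

With `h = μ²/φ`, `V = ∑_{d ≤ N} h(d)` and `a n = n ∑_{n | d ≤ N} μ(d/n) μ(d) h(d) / V` one has `a 1 = 1`, `|a n| ≤ 1` and
`∑ a(m) a(n) / [m,n] (L + log ((m,n)² / (m n))) ≤ (L + log N + C) / log N`.
-/

set_option autoImplicit false

open Finset

namespace Pool.Agent.J4H4.Mob

/-- `μ²(d)/φ(d)` -/
noncomputable def h (d : ℕ) : ℝ := if Squarefree d then 1 / (Nat.totient d : ℝ) else 0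

/-- `∑_{d ≤ N} μ²(d)/φ(d)` -/
noncomputable def V (N : ℕ) : ℝ := ∑ d ∈ Icc 1 N, h d

lemma h_nonneg (d : ℕ) : 0 ≤ h d := by
  unfold h
  split_ifs <;> positivity

lemma h_one : h 1 = 1 := by simp [h]

lemma h_of_sq {d : ℕ} (hd : Squarefree d) : h d = 1 / (Nat.totient d : ℝ) := if_pos hd

lemma h_of_not {d : ℕ} (hd : ¬ Squarefree d) : h d = 0 := if_neg hd

lemma h_mul {m n : ℕ} (hc : Nat.Coprime m n) : h (m * n) = h m * h n := by
  unfold h
  by_cases hm : Squarefree m
  · by_cases hn : Squarefree n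
    · rw [if_pos ((Nat.squarefree_mul hc).mpr ⟨hm, hn⟩), if_pos hm, if_pos hn, Nat.totient_mul hc]
      push_cast
      rw [div_mul_div_comm, one_mul]
    · rw [if_neg (fun H => hn ((Nat.squarefree_mul hc).mp H).2), if_neg hn, mul_zero]
  · rw [if_neg (fun H => hm ((Nat.squarefree_mul hc).mp H).1), if_neg hm, zero_mul]

lemma h_prime {p : ℕ} (hp : p.Prime) : h p = 1 / ((p : ℝ) - 1) := by
  rw [h_of_sq hp.squarefree, Nat.totient_prime hp, Nat.cast_sub hp.one_le, Nat.cast_one]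

lemma V_ge_one {N : ℕ} (hN : 1 ≤ N) : 1 ≤ V N := by
  unfold V
  calc (1 : ℝ) = h 1 := h_one.symm
    _ ≤ _ := Finset.single_le_sum (f := h) (fun d _ => h_nonneg d) (Finset.mem_Icc.mpr ⟨le_rfl, hN⟩)

lemma totient_prod (s : Finset ℕ) (hs : ∀ p ∈ s, p.Prime) :
    Nat.totient (∏ p ∈ s, p) = ∏ p ∈ s, (p - 1) := by
  classical
  induction s using Finset.induction_on with
  | empty => simp
  | insert a s ha ih =>
    rw [prod_insert ha, prod_insert ha, Nat.totient_mul, ih (fun p hp => hs p (mem_insert_of_mem hp)),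
      Nat.totient_prime (hs a (mem_insert_self a s))]
    apply Nat.Coprime.prod_right
    intro i hi
    exact (Nat.coprime_primes (hs a (mem_insert_self a s)) (hs i (mem_insert_of_mem hi))).mpr
      (fun h => ha (h ▸ hi))

lemma sum_divisors_coprime {a b : ℕ} (hab : Nat.Coprime a b) (f : ℕ → ℝ) :
    ∑ d ∈ (a * b).divisors, f d = ∑ i ∈ a.divisors, ∑ j ∈ b.divisors, f (i * j) := by
  rw [← Finset.sum_product']
  have h1 : (a * b).divisors = (a.divisors ×ˢ b.divisors).image (fun p : ℕ × ℕ => p.1 * p.2) := by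
    rw [Nat.divisors_mul, ← Finset.mul_def]
  rw [h1, Finset.sum_image hab.mul_injOn_divisors]

lemma cop_of {a b i j : ℕ} (hab : Nat.Coprime a b) (hi : i ∈ a.divisors) (hj : j ∈ b.divisors) :
    Nat.Coprime i j :=
  Nat.Coprime.of_dvd (Nat.dvd_of_mem_divisors hi) (Nat.dvd_of_mem_divisors hj) hab

/-- induction for squarefree numbers -/
lemma sq_induction {P : ℕ → Prop} (h1 : P 1) (hp : ∀ p : ℕ, p.Prime → P p)
    (hm : ∀ a b : ℕ, Nat.Coprime a b → Squarefree a → Squarefree b → P a → P b → P (a * b))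
    {n : ℕ} (hn : Squarefree n) : P n := by
  induction n using Nat.recOnPosPrimePosCoprime with
  | prime_pow p n hp' hn' =>
    have hn1 : n = 1 := by
      rcases Nat.squarefree_pow_iff (hp'.one_lt.ne') hn'.ne' |>.mp hn with ⟨_, h2⟩
      exact h2
    subst hn1
    rw [pow_one]
    exact hp p hp'
  | zero => simp at hn
  | one => exact h1
  | coprime a b ha hb hab iha ihb =>
    obtain ⟨h1, h2⟩ := (Nat.squarefree_mul hab).mp hn
    exact hm a b hab h1 h2 (iha h1) (ihb h2)

/-- for squarefree `k`: `k / φ(k) = ∑_{d ∣ k} h(d)` -/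
theorem div_totient {k : ℕ} (hk : Squarefree k) :
    (k : ℝ) / Nat.totient k = ∑ d ∈ k.divisors, h d := by
  refine sq_induction (P := fun k => (k : ℝ) / Nat.totient k = ∑ d ∈ k.divisors, h d) ?_ ?_ ?_ hk
  · simp [h]
  · intro p hp
    rw [Nat.Prime.divisors hp, Finset.sum_pair hp.one_lt.ne, h_one, h_prime hp,
      Nat.totient_prime hp, Nat.cast_sub hp.one_le, Nat.cast_one]
    have : (1 : ℝ) < p := by exact_mod_cast hp.one_lt
    have h2 : (p : ℝ) - 1 ≠ 0 := by linarith
    field_simp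
    ring
  · intro a b hab h1 h2 h3 h4
    rw [Nat.totient_mul hab]
    push_cast
    rw [mul_div_mul_comm, h3, h4, Finset.sum_mul_sum, sum_divisors_coprime hab]
    refine Finset.sum_congr rfl fun i hi => Finset.sum_congr rfl fun j hj => ?_
    rw [h_mul (cop_of hab hi hj)]

/-- `∑_{p ∣ d} log p / (p - 1)` -/
noncomputable def lam (d : ℕ) : ℝ := ∑ p ∈ d.primeFactors, Real.log p / ((p : ℝ) - 1)

lemma lam_mul {a b : ℕ} (hab : Nat.Coprime a b) : lam (a * b) = lam a + lam b := by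
  unfold lam
  rw [Nat.Coprime.primeFactors_mul hab, Finset.sum_union hab.disjoint_primeFactors]

/-- `J(d) = φ(d) (log d + ∑_{p ∣ d} log p / (p - 1))` -/
noncomputable def J (d : ℕ) : ℝ := (Nat.totient d : ℝ) * (Real.log d + lam d)

/-- for squarefree `g`: `g log g = ∑_{d ∣ g} J(d)` -/
theorem sum_J {g : ℕ} (hg : Squarefree g) : (g : ℝ) * Real.log g = ∑ d ∈ g.divisors, J d := by
  refine sq_induction (P := fun g => (g : ℝ) * Real.log g = ∑ d ∈ g.divisors, J d) ?_ ?_ ?_ hg
  · simp [J, lam]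
  · intro p hp
    rw [Nat.Prime.divisors hp, Finset.sum_pair hp.one_lt.ne]
    unfold J lam
    rw [hp.primeFactors, Finset.sum_singleton, Nat.totient_prime hp, Nat.cast_sub hp.one_le]
    have : (1 : ℝ) < p := by exact_mod_cast hp.one_lt
    have h2 : (p : ℝ) - 1 ≠ 0 := by linarith
    simp only [Nat.totient_one, Nat.cast_one, Real.log_one, Nat.primeFactors_one,
      Finset.sum_empty, add_zero, mul_zero, zero_add]
    field_simp
    ring
  · intro a b hab h1 h2 h3 h4
    have ha0 : (a : ℝ) ≠ 0 := by exact_mod_cast h1.ne_zero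
    have hb0 : (b : ℝ) ≠ 0 := by exact_mod_cast h2.ne_zero
    have ea : ∑ i ∈ a.divisors, (Nat.totient i : ℝ) = a := by
      exact_mod_cast Nat.sum_totient a
    have eb : ∑ i ∈ b.divisors, (Nat.totient i : ℝ) = b := by
      exact_mod_cast Nat.sum_totient b
    rw [sum_divisors_coprime hab]
    have e1 : ∀ i ∈ a.divisors, ∀ j ∈ b.divisors, J (i * j) =
        J i * (Nat.totient j : ℝ) + (Nat.totient i : ℝ) * J j := by
      intro i hi j hj
      have hi0 : (i : ℝ) ≠ 0 := by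
        exact_mod_cast (Nat.pos_of_mem_divisors hi).ne'
      have hj0 : (j : ℝ) ≠ 0 := by
        exact_mod_cast (Nat.pos_of_mem_divisors hj).ne'
      unfold J
      rw [lam_mul (cop_of hab hi hj), Nat.totient_mul (cop_of hab hi hj)]
      push_cast
      rw [Real.log_mul hi0 hj0]
      ring
    rw [Finset.sum_congr rfl fun i hi => Finset.sum_congr rfl fun j hj => e1 i hi j hj]
    simp_rw [Finset.sum_add_distrib, ← Finset.mul_sum, ← Finset.sum_mul]
    rw [ea, eb, ← h3, ← h4]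
    push_cast
    rw [Real.log_mul ha0 hb0]
    ring

/-! ### the coefficients -/

/-- `μ(d) h(d) / V` -/
noncomputable def A (N d : ℕ) : ℝ := (ArithmeticFunction.moebius d : ℝ) * h d / V N

/-- `a(n) / n` -/
noncomputable def al (N n : ℕ) : ℝ :=
  ∑ e ∈ (Icc 1 N).filter (fun e => n ∣ e), (ArithmeticFunction.moebius (e / n) : ℝ) * A N e

/-- the coefficients of the mollifier -/
noncomputable def a (N n : ℕ) : ℝ := (n : ℝ) * al N n

lemma moebius_sq_of {d : ℕ} (hd : Squarefree d) :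
    (ArithmeticFunction.moebius d : ℝ) * (ArithmeticFunction.moebius d : ℝ) = 1 := by
  have h1 := ArithmeticFunction.moebius_sq_eq_one_of_squarefree hd
  have h2 : ((ArithmeticFunction.moebius d ^ 2 : ℤ) : ℝ) = 1 := by rw [h1]; simp
  push_cast at h2
  rw [← h2]; ring

lemma V_pos {N : ℕ} (hN : 1 ≤ N) : 0 < V N := lt_of_lt_of_le one_pos (V_ge_one hN)

lemma al_one {N : ℕ} (hN : 1 ≤ N) : al N 1 = 1 := by
  unfold al A
  have h1 : (Icc 1 N).filter (fun e => 1 ∣ e) = Icc 1 N := by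
    apply Finset.filter_true_of_mem
    intro x _; exact one_dvd x
  rw [h1]
  have h2 : ∀ e ∈ Icc 1 N, (ArithmeticFunction.moebius (e / 1) : ℝ) *
      ((ArithmeticFunction.moebius e : ℝ) * h e / V N) = h e / V N := by
    intro e _
    rw [Nat.div_one]
    by_cases he : Squarefree e
    · rw [mul_div_assoc, ← mul_assoc, moebius_sq_of he, one_mul]
    · rw [h_of_not he]; simp
  rw [Finset.sum_congr rfl h2, ← Finset.sum_div]
  exact div_self (V_pos hN).ne'

lemma a_one {N : ℕ} (hN : 1 ≤ N) : a N 1 = 1 := by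
  unfold a; rw [al_one hN]; simp

lemma al_not_sq {N n : ℕ} (hn : ¬ Squarefree n) : al N n = 0 := by
  unfold al
  refine Finset.sum_eq_zero fun e he => ?_
  rw [Finset.mem_filter] at he
  have h1 : ¬ Squarefree e := fun H => hn (H.squarefree_of_dvd he.2)
  unfold A
  rw [h_of_not h1]; simp

lemma A_not_sq {N n : ℕ} (hn : ¬ Squarefree n) : A N n = 0 := by
  unfold A
  rw [h_of_not hn]; simp

/-- the Möbius function summed over the divisors -/
lemma sum_moebius (n : ℕ) :
    ∑ d ∈ n.divisors, (ArithmeticFunction.moebius d : ℝ) = if n = 1 then 1 else 0 := by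
  have h1 : ((∑ d ∈ n.divisors, ArithmeticFunction.moebius d : ℤ) : ℝ) =
      if n = 1 then 1 else 0 := by
    rw [← ArithmeticFunction.coe_mul_zeta_apply, ArithmeticFunction.moebius_mul_coe_zeta,
      ArithmeticFunction.one_apply]
    split_ifs <;> simp
  rw [← h1]; push_cast; rfl

/-- inversion -/
theorem sum_al (N d : ℕ) (hd : 1 ≤ d) (hdN : d ≤ N) :
    ∑ n ∈ (Icc 1 N).filter (fun n => d ∣ n), al N n = A N d := by
  unfold al
  have h1 : ∀ n ∈ (Icc 1 N).filter (fun n => d ∣ n),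
      ∑ e ∈ (Icc 1 N).filter (fun e => n ∣ e), (ArithmeticFunction.moebius (e / n) : ℝ) * A N e =
      ∑ e ∈ Icc 1 N, if n ∣ e then (ArithmeticFunction.moebius (e / n) : ℝ) * A N e else 0 := by
    intro n _
    rw [Finset.sum_filter]
  rw [Finset.sum_congr rfl h1, Finset.sum_comm]
  have h2 : ∀ e ∈ Icc 1 N, ∑ n ∈ (Icc 1 N).filter (fun n => d ∣ n),
      (if n ∣ e then (ArithmeticFunction.moebius (e / n) : ℝ) * A N e else 0) =
      if e = d then A N e else 0 := by
    intro e he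
    rw [Finset.mem_Icc] at he
    have he0 : e ≠ 0 := by omega
    rw [← Finset.sum_filter, ← Finset.sum_mul]
    by_cases hde : d ∣ e
    · obtain ⟨k, rfl⟩ := hde
      have hk0 : k ≠ 0 := by rintro rfl; simp at he0
      have h3 : ∑ n ∈ ((Icc 1 N).filter (fun n => d ∣ n)).filter (fun n => n ∣ d * k),
          (ArithmeticFunction.moebius (d * k / n) : ℝ) =
          ∑ j ∈ k.divisors, (ArithmeticFunction.moebius j : ℝ) := by
        refine Finset.sum_nbij' (fun n => d * k / n) (fun j => d * (k / j)) ?_ ?_ ?_ ?_ ?_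
        · intro n hn
          simp only [Finset.mem_filter, Finset.mem_Icc] at hn
          obtain ⟨⟨hn1, c, rfl⟩, hn2⟩ := hn
          have hc : c ∣ k := Nat.dvd_of_mul_dvd_mul_left (by omega) hn2
          rw [Nat.mem_divisors]
          refine ⟨?_, hk0⟩
          rw [Nat.mul_div_mul_left _ _ (by omega)]
          exact Nat.div_dvd_of_dvd hc
        · intro j hj
          rw [Nat.mem_divisors] at hj
          simp only [Finset.mem_filter, Finset.mem_Icc]
          have h5 : k / j ∣ k := Nat.div_dvd_of_dvd hj.1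
          have h6 : 0 < k / j := Nat.div_pos (Nat.le_of_dvd (by omega) hj.1)
            (Nat.pos_of_dvd_of_pos hj.1 (by omega))
          refine ⟨⟨⟨Nat.mul_pos (by omega) h6, ?_⟩, Dvd.intro _ rfl⟩, Nat.mul_dvd_mul_left _ h5⟩
          exact le_trans (Nat.le_of_dvd (by omega) (Nat.mul_dvd_mul_left _ h5)) he.2
        · intro n hn
          simp only [Finset.mem_filter, Finset.mem_Icc] at hn
          obtain ⟨⟨hn1, c, rfl⟩, hn2⟩ := hn
          have hc : c ∣ k := Nat.dvd_of_mul_dvd_mul_left (by omega) hn2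
          rw [Nat.mul_div_mul_left _ _ (by omega), Nat.div_div_self hc hk0]
        · intro j hj
          rw [Nat.mem_divisors] at hj
          rw [Nat.mul_div_mul_left _ _ (by omega), Nat.div_div_self hj.1 hk0]
        · intro n _
          rfl
      rw [h3, sum_moebius k]
      by_cases hk1 : k = 1
      · subst hk1; simp
      · have : ¬ (d * k = d) := by
          intro h7
          apply hk1
          have := Nat.eq_of_mul_eq_mul_left (show 0 < d by omega) (h7.trans (Nat.mul_one d).symm)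
          exact this
        rw [if_neg hk1, if_neg this, zero_mul]
    · have h3 : ((Icc 1 N).filter (fun n => d ∣ n)).filter (fun n => n ∣ e) = ∅ := by
        rw [Finset.filter_eq_empty_iff]
        intro n hn hne
        rw [Finset.mem_filter] at hn
        exact hde (hn.2.trans hne)
      have : ¬ (e = d) := by rintro rfl; exact hde (dvd_refl _)
      rw [h3, Finset.sum_empty, zero_mul, if_neg this]
  rw [Finset.sum_congr rfl h2, Finset.sum_ite_eq' (Icc 1 N) d, if_pos (Finset.mem_Icc.mpr ⟨hd, hdN⟩)]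

/-- expansion of a form in the greatest common divisor -/
theorem gcd_form (N : ℕ) (c c' f : ℕ → ℝ) :
    ∑ x ∈ Icc 1 N, ∑ y ∈ Icc 1 N, c x * c' y * ∑ d ∈ (Nat.gcd x y).divisors, f d =
      ∑ d ∈ Icc 1 N, f d * ((∑ x ∈ (Icc 1 N).filter (fun x => d ∣ x), c x) *
        ∑ y ∈ (Icc 1 N).filter (fun y => d ∣ y), c' y) := by
  have h1 : ∀ x ∈ Icc 1 N, ∀ y ∈ Icc 1 N, c x * c' y * ∑ d ∈ (Nat.gcd x y).divisors, f d =
      ∑ d ∈ Icc 1 N, f d * ((if d ∣ x then c x else 0) * (if d ∣ y then c' y else 0)) := by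
    intro x hx y hy
    rw [Finset.mem_Icc] at hx hy
    have h2 : (Nat.gcd x y).divisors = (Icc 1 N).filter (fun d => d ∣ x ∧ d ∣ y) := by
      ext d
      rw [Nat.mem_divisors, Finset.mem_filter, Finset.mem_Icc, Nat.dvd_gcd_iff]
      constructor
      · rintro ⟨⟨h1, h2⟩, h3⟩
        exact ⟨⟨Nat.pos_of_dvd_of_pos h1 (by omega), (Nat.le_of_dvd (by omega) h1).trans hx.2⟩, h1, h2⟩
      · rintro ⟨_, h1, h2⟩
        exact ⟨⟨h1, h2⟩, (Nat.gcd_pos_of_pos_left _ (by omega)).ne'⟩
    rw [h2, Finset.sum_filter, Finset.mul_sum]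
    refine Finset.sum_congr rfl fun d _ => ?_
    by_cases h3 : d ∣ x <;> by_cases h4 : d ∣ y <;> simp [h3, h4]
    ring
  rw [Finset.sum_congr rfl fun x hx => Finset.sum_congr rfl fun y hy => h1 x hx y hy]
  rw [Finset.sum_congr rfl fun x _ => Finset.sum_comm, Finset.sum_comm]
  refine Finset.sum_congr rfl fun d _ => ?_
  simp_rw [← Finset.mul_sum]
  rw [← Finset.sum_mul, ← Finset.sum_filter, ← Finset.sum_filter]

/-- `∑_{d ≤ N} h(d) (log d + ∑_{p ∣ d} log p / (p - 1))` -/
noncomputable def W (N : ℕ) : ℝ := ∑ d ∈ Icc 1 N, h d * (Real.log d + lam d)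

lemma phi_h {d : ℕ} (hd : Squarefree d) : (Nat.totient d : ℝ) * h d = 1 := by
  rw [h_of_sq hd]
  have : (0 : ℝ) < Nat.totient d := by
    exact_mod_cast Nat.totient_pos.mpr (Nat.pos_of_ne_zero hd.ne_zero)
  field_simp

lemma phi_A_sq (N d : ℕ) : (Nat.totient d : ℝ) * (A N d * A N d) = h d / V N ^ 2 := by
  by_cases hd : Squarefree d
  · unfold A
    have h1 := moebius_sq_of hd
    have h2 := phi_h hd
    calc (Nat.totient d : ℝ) * ((ArithmeticFunction.moebius d : ℝ) * h d / V N *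
          ((ArithmeticFunction.moebius d : ℝ) * h d / V N)) =
        ((ArithmeticFunction.moebius d : ℝ) * (ArithmeticFunction.moebius d : ℝ)) *
          ((Nat.totient d : ℝ) * h d) * h d / V N ^ 2 := by ring
      _ = _ := by rw [h1, h2]; ring
  · rw [A_not_sq hd, h_of_not hd]; simp

lemma phi_A (N d : ℕ) : (Nat.totient d : ℝ) * A N d = (ArithmeticFunction.moebius d : ℝ) / V N := by
  by_cases hd : Squarefree d
  · unfold A
    have h2 := phi_h hd
    calc (Nat.totient d : ℝ) * ((ArithmeticFunction.moebius d : ℝ) * h d / V N) =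
        (ArithmeticFunction.moebius d : ℝ) * ((Nat.totient d : ℝ) * h d) / V N := by ring
      _ = _ := by rw [h2]; ring
  · rw [A_not_sq hd, ArithmeticFunction.moebius_eq_zero_of_not_squarefree hd]; simp

theorem form1 (N : ℕ) (hN : 1 ≤ N) :
    ∑ x ∈ Icc 1 N, ∑ y ∈ Icc 1 N, al N x * al N y * (Nat.gcd x y : ℝ) = 1 / V N := by
  have h1 : ∀ x ∈ Icc 1 N, ∀ y ∈ Icc 1 N, al N x * al N y * (Nat.gcd x y : ℝ) =
      al N x * al N y * ∑ d ∈ (Nat.gcd x y).divisors, (Nat.totient d : ℝ) := by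
    intro x _ y _
    congr 1
    exact_mod_cast (Nat.sum_totient (Nat.gcd x y)).symm
  rw [Finset.sum_congr rfl fun x hx => Finset.sum_congr rfl fun y hy => h1 x hx y hy, gcd_form]
  have h2 : ∀ d ∈ Icc 1 N, (Nat.totient d : ℝ) * ((∑ x ∈ (Icc 1 N).filter (fun x => d ∣ x), al N x) *
      ∑ y ∈ (Icc 1 N).filter (fun y => d ∣ y), al N y) = h d / V N ^ 2 := by
    intro d hd
    rw [Finset.mem_Icc] at hd
    rw [sum_al N d hd.1 hd.2, phi_A_sq]
  rw [Finset.sum_congr rfl h2, ← Finset.sum_div]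
  have := (V_pos hN).ne'
  change V N / V N ^ 2 = _
  field_simp

theorem form2 (N : ℕ) :
    ∑ x ∈ Icc 1 N, ∑ y ∈ Icc 1 N, al N x * al N y * ((Nat.gcd x y : ℝ) * Real.log (Nat.gcd x y)) =
      W N / V N ^ 2 := by
  have h1 : ∀ x ∈ Icc 1 N, ∀ y ∈ Icc 1 N,
      al N x * al N y * ((Nat.gcd x y : ℝ) * Real.log (Nat.gcd x y)) =
      al N x * al N y * ∑ d ∈ (Nat.gcd x y).divisors, J d := by
    intro x _ y _
    by_cases hx : Squarefree x
    · rw [sum_J (hx.squarefree_of_dvd (Nat.gcd_dvd_left x y))]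
    · rw [al_not_sq hx]; simp
  rw [Finset.sum_congr rfl fun x hx => Finset.sum_congr rfl fun y hy => h1 x hx y hy, gcd_form]
  have h2 : ∀ d ∈ Icc 1 N, J d * ((∑ x ∈ (Icc 1 N).filter (fun x => d ∣ x), al N x) *
      ∑ y ∈ (Icc 1 N).filter (fun y => d ∣ y), al N y) =
      h d * (Real.log d + lam d) / V N ^ 2 := by
    intro d hd
    rw [Finset.mem_Icc] at hd
    rw [sum_al N d hd.1 hd.2]
    have h3 := phi_A_sq N d
    unfold J
    calc (Nat.totient d : ℝ) * (Real.log d + lam d) * (A N d * A N d) =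
        ((Nat.totient d : ℝ) * (A N d * A N d)) * (Real.log d + lam d) := by ring
      _ = _ := by rw [h3]; ring
  rw [Finset.sum_congr rfl h2, ← Finset.sum_div]
  rfl

theorem form3 (N : ℕ) :
    ∑ x ∈ Icc 1 N, ∑ y ∈ Icc 1 N, (al N x * Real.log x) * al N y * (Nat.gcd x y : ℝ) = 0 := by
  have h1 : ∀ x ∈ Icc 1 N, ∀ y ∈ Icc 1 N, (al N x * Real.log x) * al N y * (Nat.gcd x y : ℝ) =
      (al N x * Real.log x) * al N y * ∑ d ∈ (Nat.gcd x y).divisors, (Nat.totient d : ℝ) := by
    intro x _ y _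
    congr 1
    exact_mod_cast (Nat.sum_totient (Nat.gcd x y)).symm
  rw [Finset.sum_congr rfl fun x hx => Finset.sum_congr rfl fun y hy => h1 x hx y hy,
    gcd_form N (fun x => al N x * Real.log x)]
  have h2 : ∀ d ∈ Icc 1 N, (Nat.totient d : ℝ) *
      ((∑ x ∈ (Icc 1 N).filter (fun x => d ∣ x), al N x * Real.log x) *
      ∑ y ∈ (Icc 1 N).filter (fun y => d ∣ y), al N y) =
      ∑ x ∈ Icc 1 N, if d ∣ x then
        ((ArithmeticFunction.moebius d : ℝ) / V N) * (al N x * Real.log x) else 0 := by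
    intro d hd
    rw [Finset.mem_Icc] at hd
    rw [sum_al N d hd.1 hd.2, ← Finset.sum_filter, ← Finset.mul_sum, ← phi_A]
    ring
  rw [Finset.sum_congr rfl h2, Finset.sum_comm]
  refine Finset.sum_eq_zero fun x hx => ?_
  rw [Finset.mem_Icc] at hx
  rw [← Finset.sum_filter, ← Finset.sum_mul]
  have h3 : (Icc 1 N).filter (fun d => d ∣ x) = x.divisors := by
    ext d
    rw [Finset.mem_filter, Finset.mem_Icc, Nat.mem_divisors]
    constructor
    · rintro ⟨_, h⟩; exact ⟨h, by omega⟩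
    · rintro ⟨h, _⟩
      exact ⟨⟨Nat.pos_of_dvd_of_pos h (by omega), (Nat.le_of_dvd (by omega) h).trans hx.2⟩, h⟩
  rw [h3, ← Finset.sum_div, sum_moebius x]
  by_cases hx1 : x = 1
  · subst hx1; simp
  · rw [if_neg hx1]; simp

/-- the value of the quadratic form -/
theorem form (N : ℕ) (hN : 1 ≤ N) (L : ℝ) :
    ∑ x ∈ Icc 1 N, ∑ y ∈ Icc 1 N, a N x * a N y * (1 / (Nat.lcm x y : ℝ) *
      (L + Real.log ((Nat.gcd x y : ℝ) ^ 2 / ((x : ℝ) * y)))) = L / V N + 2 * W N / V N ^ 2 := by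
  have h1 : ∀ x ∈ Icc 1 N, ∀ y ∈ Icc 1 N, a N x * a N y * (1 / (Nat.lcm x y : ℝ) *
      (L + Real.log ((Nat.gcd x y : ℝ) ^ 2 / ((x : ℝ) * y)))) =
      L * (al N x * al N y * (Nat.gcd x y : ℝ)) +
      2 * (al N x * al N y * ((Nat.gcd x y : ℝ) * Real.log (Nat.gcd x y))) -
      (al N x * Real.log x) * al N y * (Nat.gcd x y : ℝ) -
      (al N y * Real.log y) * al N x * (Nat.gcd y x : ℝ) := by
    intro x hx y hy
    rw [Finset.mem_Icc] at hx hy
    have hx0 : (x : ℝ) ≠ 0 := by exact_mod_cast (by omega : x ≠ 0)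
    have hy0 : (y : ℝ) ≠ 0 := by exact_mod_cast (by omega : y ≠ 0)
    have hg0 : (Nat.gcd x y : ℝ) ≠ 0 := by
      exact_mod_cast (Nat.gcd_pos_of_pos_left y (by omega)).ne'
    have hl : (Nat.lcm x y : ℝ) = x * y / Nat.gcd x y := by
      rw [eq_div_iff hg0, mul_comm]
      exact_mod_cast Nat.gcd_mul_lcm x y
    rw [hl, Real.log_div (pow_ne_zero 2 hg0) (mul_ne_zero hx0 hy0), Real.log_pow,
      Real.log_mul hx0 hy0, Nat.gcd_comm y x]
    unfold a
    push_cast
    field_simp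
    ring
  rw [Finset.sum_congr rfl fun x hx => Finset.sum_congr rfl fun y hy => h1 x hx y hy]
  have h3 := form3 N
  have h4 : ∑ x ∈ Icc 1 N, ∑ y ∈ Icc 1 N, (al N y * Real.log y) * al N x * (Nat.gcd y x : ℝ) = 0 := by
    rw [Finset.sum_comm]; exact h3
  simp_rw [Finset.sum_sub_distrib, Finset.sum_add_distrib, ← Finset.mul_sum]
  simp_rw [Finset.mul_sum]
  simp_rw [← Finset.mul_sum]
  rw [h3, h4, form1 N hN, form2]
  ring

/-! ### the bounds -/

lemma h_mul_prime_le {p m : ℕ} (hp : p.Prime) : h (p * m) ≤ h m / ((p : ℝ) - 1) := by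
  have hp1 : (0 : ℝ) < (p : ℝ) - 1 := by
    have : (1 : ℝ) < p := by exact_mod_cast hp.one_lt
    linarith
  by_cases hc : Nat.Coprime p m
  · rw [h_mul hc, h_prime hp]
    apply le_of_eq; ring
  · have h1 : p ∣ m := by
      by_contra h2
      exact hc ((Nat.Prime.coprime_iff_not_dvd hp).mpr h2)
    have h2 : ¬ Squarefree (p * m) := by
      intro h3
      obtain ⟨c, rfl⟩ := h1
      have := h3 p ⟨c, by ring⟩
      exact hp.one_lt.ne' (Nat.isUnit_iff.mp this)
    rw [h_of_not h2]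
    exact div_nonneg (h_nonneg m) hp1.le

theorem sum_prime_le (N : ℕ) (f : ℕ → ℝ) (hf : ∀ p, p.Prime → 0 ≤ f p) :
    ∑ e ∈ Icc 1 N, h e * ∑ p ∈ e.primeFactors, f p ≤
      ∑ m ∈ Icc 1 N, h m * ∑ p ∈ (Icc 1 (N / m)).filter Nat.Prime, f p / ((p : ℝ) - 1) := by
  have h1 : ∀ e ∈ Icc 1 N, h e * ∑ p ∈ e.primeFactors, f p =
      ∑ p ∈ (Icc 1 N).filter Nat.Prime, if p ∣ e then h e * f p else 0 := by
    intro e he
    rw [Finset.mem_Icc] at he
    rw [Finset.mul_sum, ← Finset.sum_filter]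
    refine Finset.sum_congr ?_ fun _ _ => rfl
    ext p
    simp only [Nat.mem_primeFactors, Finset.mem_filter, Finset.mem_Icc]
    constructor
    · rintro ⟨h1, h2, _⟩
      exact ⟨⟨⟨h1.one_le, (Nat.le_of_dvd (by omega) h2).trans he.2⟩, h1⟩, h2⟩
    · rintro ⟨⟨_, h1⟩, h2⟩
      exact ⟨h1, h2, by omega⟩
  have h2 : ∀ m ∈ Icc 1 N, h m * ∑ p ∈ (Icc 1 (N / m)).filter Nat.Prime, f p / ((p : ℝ) - 1) =
      ∑ p ∈ (Icc 1 N).filter Nat.Prime, if p * m ≤ N then h m * (f p / ((p : ℝ) - 1)) else 0 := by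
    intro m hm
    rw [Finset.mem_Icc] at hm
    rw [Finset.mul_sum, ← Finset.sum_filter]
    refine Finset.sum_congr ?_ fun _ _ => rfl
    ext p
    simp only [Finset.mem_filter, Finset.mem_Icc]
    rw [Nat.le_div_iff_mul_le (by omega)]
    constructor
    · rintro ⟨⟨h1, h2⟩, h3⟩
      refine ⟨⟨⟨h1, ?_⟩, h3⟩, h2⟩
      calc p = p * 1 := (mul_one p).symm
        _ ≤ p * m := Nat.mul_le_mul_left _ hm.1
        _ ≤ N := h2
    · rintro ⟨⟨⟨h1, _⟩, h3⟩, h2⟩
      exact ⟨⟨h1, h2⟩, h3⟩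
  rw [Finset.sum_congr rfl h1, Finset.sum_congr rfl h2, Finset.sum_comm, Finset.sum_comm (s := Icc 1 N)]
  refine Finset.sum_le_sum fun p hp => ?_
  rw [Finset.mem_filter, Finset.mem_Icc] at hp
  obtain ⟨⟨hp1, hpN⟩, hpp⟩ := hp
  have hp1' : (0 : ℝ) < (p : ℝ) - 1 := by
    have : (1 : ℝ) < p := by exact_mod_cast hpp.one_lt
    linarith
  rw [← Finset.sum_filter, ← Finset.sum_filter]
  have h3 : ∑ e ∈ (Icc 1 N).filter (fun e => p ∣ e), h e * f p =
      ∑ m ∈ (Icc 1 N).filter (fun m => p * m ≤ N), h (p * m) * f p := by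
    refine Finset.sum_nbij' (fun e => e / p) (fun m => p * m) ?_ ?_ ?_ ?_ ?_
    · intro e he
      rw [Finset.mem_filter, Finset.mem_Icc] at he
      obtain ⟨⟨he1, heN⟩, c, rfl⟩ := he
      rw [Nat.mul_div_cancel_left _ hpp.pos, Finset.mem_filter, Finset.mem_Icc]
      have hc : 1 ≤ c := by
        rcases Nat.eq_zero_or_pos c with h | h
        · subst h; simp at he1
        · exact h
      refine ⟨⟨hc, ?_⟩, heN⟩
      calc c = 1 * c := (one_mul c).symm
        _ ≤ p * c := Nat.mul_le_mul_right _ hp1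
        _ ≤ N := heN
    · intro m hm
      rw [Finset.mem_filter, Finset.mem_Icc] at hm
      rw [Finset.mem_filter, Finset.mem_Icc]
      exact ⟨⟨Nat.mul_pos hpp.pos hm.1.1, hm.2⟩, Dvd.intro _ rfl⟩
    · intro e he
      rw [Finset.mem_filter] at he
      exact Nat.mul_div_cancel' he.2
    · intro m _
      exact Nat.mul_div_cancel_left _ hpp.pos
    · intro e he
      rw [Finset.mem_filter] at he

      rw [Nat.mul_div_cancel' he.2]
  rw [h3]
  refine Finset.sum_le_sum fun m _ => ?_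
  have h4 := h_mul_prime_le (m := m) hpp
  have h5 := hf p hpp
  calc h (p * m) * f p ≤ h m / ((p : ℝ) - 1) * f p := mul_le_mul_of_nonneg_right h4 h5
    _ = _ := by ring

theorem mertens : ∃ C : ℝ, 0 ≤ C ∧ ∀ N : ℕ, 1 ≤ N →
    ∑ p ∈ (Icc 1 N).filter Nat.Prime, Real.log p / ((p : ℝ) - 1) ≤ Real.log N + C := by
  obtain ⟨C, hC⟩ := Pool.Agent.Erdos456.Mert.mertens_log
  obtain ⟨C2, hC2, hD⟩ := Pool.Agent.Erdos456.Mert.sum_small_bound
  refine ⟨|C| + C2, by positivity, fun N hN => ?_⟩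
  have h1 := hC N hN
  have h2 := hD N
  have h3 : ∑ p ∈ (Icc 1 N).filter Nat.Prime, Real.log p / ((p : ℝ) - 1) =
      ∑ p ∈ (Icc 1 N).filter Nat.Prime, Real.log p / p +
      ∑ p ∈ (Icc 1 N).filter Nat.Prime, Real.log p / (p * (p - 1)) := by
    rw [← Finset.sum_add_distrib]
    refine Finset.sum_congr rfl fun p hp => ?_
    rw [Finset.mem_filter] at hp
    have : (1 : ℝ) < p := by exact_mod_cast hp.2.one_lt
    have h4 : (p : ℝ) - 1 ≠ 0 := by linarith
    have h5 : (p : ℝ) ≠ 0 := by linarith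
    field_simp
    ring
  rw [h3]
  have h6 := (abs_le.mp h1).2
  have h7 := le_abs_self C
  have h8 : ∑ p ∈ (Icc 1 N).filter Nat.Prime, Real.log p / (p * (p - 1)) ≤ C2 := h2
  linarith

theorem mertens2 : ∃ C : ℝ, 0 ≤ C ∧ ∀ N : ℕ,
    ∑ p ∈ (Icc 1 N).filter Nat.Prime, Real.log p / ((p : ℝ) - 1) / ((p : ℝ) - 1) ≤ C := by
  obtain ⟨C2, hC2, hD⟩ := Pool.Agent.Erdos456.Mert.sum_small_bound
  refine ⟨2 * C2, by positivity, fun N => ?_⟩
  have h2 := hD N
  have h3 : ∑ p ∈ (Icc 1 N).filter Nat.Prime, Real.log p / ((p : ℝ) - 1) / ((p : ℝ) - 1) ≤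
      ∑ p ∈ (Icc 1 N).filter Nat.Prime, 2 * (Real.log p / (p * (p - 1))) := by
    refine Finset.sum_le_sum fun p hp => ?_
    rw [Finset.mem_filter] at hp
    have h0 : (2 : ℝ) ≤ p := by exact_mod_cast hp.2.two_le
    have h4 : 0 < (p : ℝ) - 1 := by linarith
    have h5 : 0 < (p : ℝ) := by linarith
    have h6 : 0 ≤ Real.log p := Real.log_nonneg (by linarith)
    rw [div_div, ← mul_div_assoc, div_le_div_iff₀ (by positivity) (by positivity)]
    have : (p : ℝ) ≤ 2 * (p - 1) := by linarith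
    calc Real.log p * (p * (p - 1)) = (Real.log p * (p - 1)) * p := by ring
      _ ≤ (Real.log p * (p - 1)) * (2 * (p - 1)) := mul_le_mul_of_nonneg_left this (by positivity)
      _ = _ := by ring
  rw [← Finset.mul_sum] at h3
  have h8 : ∑ p ∈ (Icc 1 N).filter Nat.Prime, Real.log p / (p * (p - 1)) ≤ C2 := h2
  linarith

lemma log_sq {d : ℕ} (hd : Squarefree d) : Real.log d = ∑ p ∈ d.primeFactors, Real.log p := by
  conv_lhs => rw [← Nat.prod_primeFactors_of_squarefree hd]
  push_cast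
  rw [Real.log_prod]
  intro p hp
  have := (Nat.prime_of_mem_primeFactors hp).pos
  positivity

/-- `2 W ≤ V (log N + C)` -/
theorem W_le : ∃ C : ℝ, 0 ≤ C ∧ ∀ N : ℕ, 1 ≤ N → 2 * W N ≤ V N * (Real.log N + C) := by
  obtain ⟨C1, hC1, h1⟩ := mertens
  obtain ⟨C2, hC2, h2⟩ := mertens2
  refine ⟨C1 + 2 * C2, by positivity, fun N hN => ?_⟩
  have e1 : ∑ d ∈ Icc 1 N, h d * Real.log d ≤
      ∑ m ∈ Icc 1 N, h m * (Real.log N - Real.log m + C1) := by
    have e2 : ∑ d ∈ Icc 1 N, h d * Real.log d =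
        ∑ d ∈ Icc 1 N, h d * ∑ p ∈ d.primeFactors, Real.log p := by
      refine Finset.sum_congr rfl fun d _ => ?_
      by_cases hd : Squarefree d
      · rw [log_sq hd]
      · rw [h_of_not hd]; simp
    rw [e2]
    refine (sum_prime_le N (fun p => Real.log p) (fun p hp => Real.log_nonneg (by
      exact_mod_cast hp.one_le))).trans ?_
    refine Finset.sum_le_sum fun m hm => ?_
    rw [Finset.mem_Icc] at hm
    refine mul_le_mul_of_nonneg_left ?_ (h_nonneg m)
    have h3 : 1 ≤ N / m := (Nat.one_le_div_iff (by omega)).mpr hm.2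
    refine (h1 (N / m) h3).trans ?_
    have h4 : ((N / m : ℕ) : ℝ) ≤ (N : ℝ) / m := Nat.cast_div_le
    have h5 : Real.log ((N / m : ℕ) : ℝ) ≤ Real.log ((N : ℝ) / m) :=
      Real.log_le_log (by exact_mod_cast h3) h4
    rw [Real.log_div (by exact_mod_cast (by omega : N ≠ 0)) (by exact_mod_cast (by omega : m ≠ 0))] at h5
    linarith
  have e3 : ∑ d ∈ Icc 1 N, h d * lam d ≤ V N * C2 := by
    unfold lam
    refine (sum_prime_le N (fun p => Real.log p / ((p : ℝ) - 1)) (fun p hp => ?_)).trans ?_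
    · have : (1 : ℝ) < p := by exact_mod_cast hp.one_lt
      exact div_nonneg (Real.log_nonneg this.le) (by linarith)
    · unfold V
      rw [Finset.sum_mul]
      refine Finset.sum_le_sum fun m _ => ?_
      exact mul_le_mul_of_nonneg_left (h2 _) (h_nonneg m)
  have e4 : ∑ m ∈ Icc 1 N, h m * (Real.log N - Real.log m + C1) =
      V N * (Real.log N + C1) - ∑ d ∈ Icc 1 N, h d * Real.log d := by
    unfold V
    rw [Finset.sum_mul, ← Finset.sum_sub_distrib]
    refine Finset.sum_congr rfl fun d _ => ?_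
    ring
  have e5 : W N = ∑ d ∈ Icc 1 N, h d * Real.log d + ∑ d ∈ Icc 1 N, h d * lam d := by
    unfold W
    rw [← Finset.sum_add_distrib]
    refine Finset.sum_congr rfl fun d _ => ?_
    ring
  rw [e4] at e1
  rw [e5]
  have : V N * (Real.log N + (C1 + 2 * C2)) = V N * (Real.log N + C1) + 2 * (V N * C2) := by ring
  rw [this]
  linarith

/-- `n ↦ 1/n` -/
noncomputable def inv : ℕ →* ℝ where
  toFun n := (n : ℝ)⁻¹
  map_one' := by simp
  map_mul' x y := by push_cast; rw [mul_inv]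

lemma one_div_totient (d : ℕ) :
    (1 / (d : ℝ)) * ∏ p ∈ d.primeFactors with p.Prime, (1 - inv p)⁻¹ = 1 / (Nat.totient d : ℝ) := by
  have h1 : (Nat.totient d : ℝ) = d * ∏ p ∈ d.primeFactors, (1 - (p : ℝ)⁻¹) := by
    have := Nat.totient_eq_mul_prod_factors d
    have h2 : ((Nat.totient d : ℚ) : ℝ) = ((d * ∏ p ∈ d.primeFactors, (1 - (p : ℚ)⁻¹) : ℚ) : ℝ) := by
      rw [this]
    push_cast at h2
    exact h2
  have h3 : d.primeFactors.filter Nat.Prime = d.primeFactors := by
    apply Finset.filter_true_of_mem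
    intro p hp
    exact Nat.prime_of_mem_primeFactors hp
  rw [h3, h1, Finset.prod_inv_distrib, one_div, one_div, mul_inv]
  rfl

/-- the numbers with given prime factors -/
lemma fibre_le {d : ℕ} (hd0 : d ≠ 0) (S : Finset ℕ)
    (hS : ∀ n ∈ S, n ≠ 0 ∧ ∏ p ∈ n.primeFactors, p = d) :
    ∑ n ∈ S, 1 / (n : ℝ) ≤ 1 / (Nat.totient d : ℝ) := by
  obtain ⟨hsum, hhas⟩ := EulerProduct.summable_and_hasSum_factoredNumbers_prod_filter_prime_geometric
    (f := inv) (fun {p} hp => by
      change ‖(p : ℝ)⁻¹‖ < 1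
      have : (1 : ℝ) < p := by exact_mod_cast hp.one_lt
      rw [norm_inv, Real.norm_of_nonneg (by linarith)]
      exact inv_lt_one_of_one_lt₀ this) d.primeFactors
  have hdvd : ∀ n ∈ S, d ∣ n := by
    intro n hn
    rw [← (hS n hn).2]
    exact Nat.prod_primeFactors_dvd n
  have hmem : ∀ n ∈ S, n / d ∈ Nat.factoredNumbers d.primeFactors := by
    intro n hn
    obtain ⟨h0, h1⟩ := hS n hn
    rw [Nat.mem_factoredNumbers']
    intro p hp hpd
    have h2 : p ∣ n := hpd.trans (Nat.div_dvd_of_dvd (hdvd n hn))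
    rw [Nat.mem_primeFactors]
    refine ⟨hp, ?_, hd0⟩
    rw [← h1]
    exact Finset.dvd_prod_of_mem _ (Nat.mem_primeFactors.mpr ⟨hp, h2, h0⟩)
  have h1 : ∑ n ∈ S, 1 / (n : ℝ) = (1 / (d : ℝ)) * ∑ n ∈ S, inv (n / d) := by
    rw [Finset.mul_sum]
    refine Finset.sum_congr rfl fun n hn => ?_
    change _ = 1 / (d : ℝ) * (((n / d : ℕ) : ℝ))⁻¹
    have h3 : (d : ℝ) * ((n / d : ℕ) : ℝ) = n := by exact_mod_cast Nat.mul_div_cancel' (hdvd n hn)
    rw [← h3, one_div, one_div, mul_inv]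
  rw [h1, ← one_div_totient d]
  refine mul_le_mul_of_nonneg_left ?_ (by positivity)
  rw [← hhas.tsum_eq]
  let g : {n // n ∈ S} → Nat.factoredNumbers d.primeFactors := fun n => ⟨n.1 / d, hmem n.1 n.2⟩
  have hg : Function.Injective g := by
    intro x y hxy
    have h2 : x.1 / d = y.1 / d := congrArg Subtype.val hxy
    apply Subtype.ext
    rw [← Nat.mul_div_cancel' (hdvd x.1 x.2), h2, Nat.mul_div_cancel' (hdvd y.1 y.2)]
  have h4 : ∑ n ∈ S, inv (n / d) = ∑ n : {n // n ∈ S}, inv (g n : ℕ) := by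
    rw [← Finset.sum_coe_sort S]
  rw [h4]
  have h5 : ∑ n : {n // n ∈ S}, inv (g n : ℕ) =
      ∑ m ∈ (Finset.univ : Finset {n // n ∈ S}).map ⟨g, hg⟩, inv (m : ℕ) := by
    rw [Finset.sum_map]; rfl
  rw [h5]
  refine hhas.summable.sum_le_tsum _ fun m _ => ?_
  change 0 ≤ ((m : ℕ) : ℝ)⁻¹
  positivity

theorem log_le_V (N : ℕ) : Real.log N ≤ V N := by
  classical
  rcases Nat.eq_zero_or_pos N with h0 | hN
  · subst h0; simp [V]
  have h1 : Real.log N ≤ ∑ n ∈ Icc 1 N, 1 / (n : ℝ) := by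
    have h2 := log_add_one_le_harmonic N
    rw [harmonic_eq_sum_Icc] at h2
    push_cast at h2
    have h3 : Real.log N ≤ Real.log ((N : ℝ) + 1) :=
      Real.log_le_log (by exact_mod_cast hN) (by linarith)
    refine h3.trans (h2.trans (le_of_eq ?_))
    refine Finset.sum_congr rfl fun n _ => ?_
    rw [one_div]
  refine h1.trans ?_
  have h2 : ∀ n ∈ Icc 1 N, ∏ p ∈ n.primeFactors, p ∈ Icc 1 N := by
    intro n hn
    rw [Finset.mem_Icc] at hn ⊢
    refine ⟨?_, (Nat.le_of_dvd (by omega) (Nat.prod_primeFactors_dvd n)).trans hn.2⟩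
    exact Finset.prod_pos fun p hp => (Nat.prime_of_mem_primeFactors hp).pos
  rw [← Finset.sum_fiberwise_of_maps_to h2]
  refine Finset.sum_le_sum fun d _ => ?_
  by_cases hd : Squarefree d
  · rw [h_of_sq hd]
    refine fibre_le hd.ne_zero _ fun n hn => ?_
    rw [Finset.mem_filter, Finset.mem_Icc] at hn
    exact ⟨by omega, hn.2⟩
  · rw [h_of_not hd]
    apply le_of_eq
    refine Finset.sum_eq_zero fun n hn => ?_
    exfalso
    rw [Finset.mem_filter] at hn
    apply hd
    rw [← hn.2]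
    refine Finset.squarefree_prod_of_pairwise_isCoprime (fun p hp q hq hpq => ?_)
      fun p hp => (Nat.prime_of_mem_primeFactors hp).squarefree
    simp only [← Nat.coprime_iff_isRelPrime]
    exact (Nat.coprime_primes (Nat.prime_of_mem_primeFactors hp) (Nat.prime_of_mem_primeFactors hq)).mpr hpq

/-- `|a n| ≤ 1` -/
theorem abs_a_le (N n : ℕ) : |a N n| ≤ 1 := by
  classical
  rcases Nat.eq_zero_or_pos n with h0 | hn
  · subst h0; simp [a]
  by_cases hsq : Squarefree n
  swap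
  · unfold a; rw [al_not_sq hsq]; simp
  rcases lt_or_ge N n with hNn | hnN
  · have : al N n = 0 := by
      unfold al
      refine Finset.sum_eq_zero fun e he => ?_
      rw [Finset.mem_filter, Finset.mem_Icc] at he
      exfalso
      have := Nat.le_of_dvd (by omega) he.2
      omega
    unfold a; rw [this]; simp
  have hN : 1 ≤ N := le_trans hn hnN
  -- the sum over the cofactor
  have h1 : al N n = ((ArithmeticFunction.moebius n : ℝ) * h n / V N) *
      ∑ m ∈ (Icc 1 (N / n)).filter (fun m => Nat.Coprime n m), h m := by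
    unfold al
    rw [Finset.mul_sum, Finset.sum_filter (p := fun m => Nat.Coprime n m)]
    refine Finset.sum_nbij' (fun e => e / n) (fun m => n * m) ?_ ?_ ?_ ?_ ?_
    · intro e he
      rw [Finset.mem_filter, Finset.mem_Icc] at he
      obtain ⟨⟨he1, heN⟩, c, rfl⟩ := he
      rw [Nat.mul_div_cancel_left _ hn, Finset.mem_Icc, Nat.le_div_iff_mul_le hn]
      refine ⟨?_, by rw [mul_comm]; exact heN⟩
      rcases Nat.eq_zero_or_pos c with h | h
      · subst h; simp at he1
      · exact h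
    · intro m hm
      rw [Finset.mem_Icc, Nat.le_div_iff_mul_le hn] at hm
      rw [Finset.mem_filter, Finset.mem_Icc]
      exact ⟨⟨Nat.mul_pos hn hm.1, by rw [mul_comm]; exact hm.2⟩, Dvd.intro _ rfl⟩
    · intro e he
      rw [Finset.mem_filter] at he
      exact Nat.mul_div_cancel' he.2
    · intro m _
      exact Nat.mul_div_cancel_left _ hn
    · intro e he
      rw [Finset.mem_filter, Finset.mem_Icc] at he
      obtain ⟨⟨he1, heN⟩, c, rfl⟩ := he
      rw [Nat.mul_div_cancel_left _ hn]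
      by_cases hc : Nat.Coprime n c
      · rw [if_pos hc]
        unfold A
        rw [h_mul hc, ArithmeticFunction.isMultiplicative_moebius.map_mul_of_coprime hc]
        push_cast
        by_cases hcs : Squarefree c
        · have := moebius_sq_of hcs
          calc (ArithmeticFunction.moebius c : ℝ) *
                ((ArithmeticFunction.moebius n : ℝ) * (ArithmeticFunction.moebius c : ℝ) *
                  (h n * h c) / V N) =
              ((ArithmeticFunction.moebius c : ℝ) * (ArithmeticFunction.moebius c : ℝ)) *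
                ((ArithmeticFunction.moebius n : ℝ) * h n / V N * h c) := by ring
            _ = _ := by rw [this, one_mul]
        · rw [h_of_not hcs]; simp
      · rw [if_neg hc]
        have h5 : ¬ Squarefree (n * c) := by
          intro h6
          exact hc (Nat.coprime_of_squarefree_mul h6)
        rw [A_not_sq h5]; simp
  -- the inequality
  have h2 : (∑ l ∈ n.divisors, h l) *
      ∑ m ∈ (Icc 1 (N / n)).filter (fun m => Nat.Coprime n m), h m ≤ V N := by
    rw [Finset.sum_mul_sum, ← Finset.sum_product']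
    have h3 : ∀ x ∈ n.divisors ×ˢ (Icc 1 (N / n)).filter (fun m => Nat.Coprime n m),
        h x.1 * h x.2 = h (x.1 * x.2) := by
      intro x hx
      rw [Finset.mem_product, Finset.mem_filter] at hx
      rw [h_mul]
      exact Nat.Coprime.coprime_dvd_left (Nat.dvd_of_mem_divisors hx.1) hx.2.2
    rw [Finset.sum_congr rfl h3]
    have h4 : Set.InjOn (fun x : ℕ × ℕ => x.1 * x.2)
        (n.divisors ×ˢ (Icc 1 (N / n)).filter (fun m => Nat.Coprime n m) : Finset (ℕ × ℕ)) := by
      rintro ⟨l, m⟩ hx ⟨l', m'⟩ hy hxy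
      rw [Finset.mem_coe, Finset.mem_product, Finset.mem_filter, Finset.mem_Icc] at hx hy
      simp only at hx hy hxy
      have e1 : ∀ l m : ℕ, l ∣ n → Nat.Coprime n m → Nat.gcd n (l * m) = l := by
        intro l m hl hm
        rw [Nat.Coprime.gcd_mul_right_cancel_right l hm.symm]
        exact Nat.gcd_eq_right hl
      have e2 := e1 l m (Nat.dvd_of_mem_divisors hx.1) hx.2.2
      have e3 := e1 l' m' (Nat.dvd_of_mem_divisors hy.1) hy.2.2
      rw [hxy, e3] at e2
      subst e2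
      have h5 : 0 < l' := Nat.pos_of_mem_divisors hy.1
      have h6 := Nat.eq_of_mul_eq_mul_left h5 hxy
      rw [h6]
    rw [← Finset.sum_image (f := h) (g := fun x : ℕ × ℕ => x.1 * x.2) h4]
    unfold V
    refine Finset.sum_le_sum_of_subset_of_nonneg ?_ fun d _ _ => h_nonneg d
    intro d hd
    rw [Finset.mem_image] at hd
    obtain ⟨⟨l, m⟩, hx, rfl⟩ := hd
    rw [Finset.mem_product, Finset.mem_filter, Finset.mem_Icc] at hx
    simp only at hx
    have h7 : 0 < l := Nat.pos_of_mem_divisors hx.1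
    have h8 : l ≤ n := Nat.le_of_dvd hn (Nat.dvd_of_mem_divisors hx.1)
    rw [Finset.mem_Icc]
    refine ⟨Nat.mul_pos h7 hx.2.1.1, ?_⟩
    have h9 := (Nat.le_div_iff_mul_le hn).mp hx.2.1.2
    calc l * m ≤ n * m := Nat.mul_le_mul_right _ h8
      _ = m * n := mul_comm _ _
      _ ≤ N := h9
  rw [← div_totient hsq] at h2
  have hV := V_pos hN
  have h3 : |(ArithmeticFunction.moebius n : ℝ)| ≤ 1 := by
    have := ArithmeticFunction.abs_moebius_le_one (n := n)
    exact_mod_cast this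
  have h4 : 0 ≤ ∑ m ∈ (Icc 1 (N / n)).filter (fun m => Nat.Coprime n m), h m :=
    Finset.sum_nonneg fun m _ => h_nonneg m
  unfold a
  rw [h1, h_of_sq hsq]
  have h5 : (n : ℝ) * ((ArithmeticFunction.moebius n : ℝ) * (1 / (Nat.totient n : ℝ)) / V N *
      ∑ m ∈ (Icc 1 (N / n)).filter (fun m => Nat.Coprime n m), h m) =
      (ArithmeticFunction.moebius n : ℝ) * (((n : ℝ) / Nat.totient n *
      ∑ m ∈ (Icc 1 (N / n)).filter (fun m => Nat.Coprime n m), h m) / V N) := by ring
  rw [h5, abs_mul]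
  have h6 : |((n : ℝ) / Nat.totient n *
      ∑ m ∈ (Icc 1 (N / n)).filter (fun m => Nat.Coprime n m), h m) / V N| ≤ 1 := by
    rw [abs_of_nonneg (by positivity)]
    exact (div_le_one hV).mpr h2
  calc _ ≤ 1 * 1 := mul_le_mul h3 h6 (abs_nonneg _) zero_le_one
    _ = 1 := one_mul 1

/-- upper bound for the quadratic form -/
theorem form_le : ∃ C : ℝ, 0 ≤ C ∧ ∀ N : ℕ, 2 ≤ N → ∀ L : ℝ, 0 ≤ L →
    ∑ x ∈ Icc 1 N, ∑ y ∈ Icc 1 N, a N x * a N y * (1 / (Nat.lcm x y : ℝ) *
      (L + Real.log ((Nat.gcd x y : ℝ) ^ 2 / ((x : ℝ) * y)))) ≤ 1 + (L + C) / Real.log N := by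
  obtain ⟨C, hC, h1⟩ := W_le
  refine ⟨C, hC, fun N hN L hL => ?_⟩
  rw [form N (by omega) L]
  have hV := V_pos (N := N) (by omega)
  have h2 := h1 N (by omega)
  have hlog : 0 < Real.log N := Real.log_pos (by exact_mod_cast (by omega : 1 < N))
  have h3 := log_le_V N
  have h4 : 2 * W N / V N ^ 2 ≤ (Real.log N + C) / V N := by
    rw [div_le_div_iff₀ (by positivity) hV]
    calc 2 * W N * V N ≤ (V N * (Real.log N + C)) * V N := mul_le_mul_of_nonneg_right h2 hV.le
      _ = _ := by ring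
  have h5 : L / V N + (Real.log N + C) / V N = (Real.log N + (L + C)) / V N := by ring
  have h6 : (Real.log N + (L + C)) / V N ≤ (Real.log N + (L + C)) / Real.log N :=
    div_le_div_of_nonneg_left (by positivity) hlog h3
  have h7 : (Real.log N + (L + C)) / Real.log N = 1 + (L + C) / Real.log N := by
    field_simp
  linarith

end Pool.Agent.J4H4.Mob
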