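import Pool.Agent.J4H4.Mob
import Pool.Agent.J4H4.Gam
import Pool.Agent.TH809.MZ.Fin
import Pool.Agent.Results.MP_4e5e8a_nt.TwistedMomentAsymptotic

/-!
# The mean square of the mollified zeta function
-/

set_option autoImplicit false

open MeasureTheory Filter Topology Complex Set

namespace Pool.Agent.J4H4.Mom

open Pool.Agent.J4H4.Gam

/-- the mollifier of length `N` -/
noncomputable def M (N : ℕ) (s : ℂ) : ℂ := ∑ n ∈ Finset.Icc 1 N, (Mob.a N n : ℂ) * (n : ℂ) ^ (-s)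

/-- `|ζ M|²` on the critical line -/
noncomputable def q (N : ℕ) (t : ℝ) : ℝ :=
  ‖riemannZeta (1 / 2 + t * I)‖ ^ 2 * ‖M N (1 / 2 + t * I)‖ ^ 2

lemma zeta_growth : ∃ C : ℝ, 0 < C ∧ ∀ t : ℝ, ‖riemannZeta (1 / 2 + t * I)‖ ≤ C * (1 + |t|) ^ (1 / 5 : ℝ) := by
  obtain ⟨C, hC⟩ := Pool.Agent.TH809.MZ.growth_weyl (1 / 30) (by norm_num)
  refine ⟨max C 1, lt_max_of_lt_right one_pos, fun t => ?_⟩
  have h1 := hC t
  have h2 : (⟨1 / 2, t⟩ : ℂ) = 1 / 2 + t * I := by
    apply Complex.ext <;> simp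
  rw [h2] at h1
  refine h1.trans ?_
  have h3 : (1 / 6 + 1 / 30 : ℝ) = 1 / 5 := by norm_num
  rw [h3]
  exact mul_le_mul_of_nonneg_right (le_max_left _ _) (by positivity)

lemma zeta_cont : Continuous (fun t : ℝ => riemannZeta (1 / 2 + t * I)) := by
  rw [continuous_iff_continuousAt]
  intro t
  have h : (1 / 2 + (t : ℂ) * Complex.I) ≠ 1 := by
    intro h
    have := congrArg Complex.re h
    norm_num at this
  have h1 := (differentiableAt_riemannZeta h).continuousAt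
  have h2 : ContinuousAt (fun t : ℝ => (1 / 2 + (t : ℂ) * Complex.I)) t := by fun_prop
  exact ContinuousAt.comp (f := fun t : ℝ => (1 / 2 + (t : ℂ) * Complex.I)) (g := riemannZeta) h1 h2

lemma M_diff (N : ℕ) : Differentiable ℂ (M N) := by
  have h : M N = fun s => ∑ n ∈ Finset.Icc 1 N, (Mob.a N n : ℂ) * (n : ℂ) ^ (-s) := rfl
  rw [h]
  refine Differentiable.fun_sum fun n hn => ?_
  have hn0 : (n : ℂ) ≠ 0 := by
    rw [Finset.mem_Icc] at hn
    exact_mod_cast (by omega : n ≠ 0)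
  refine (differentiable_const _).mul ?_
  exact (differentiable_id.neg).const_cpow (Or.inl hn0)

lemma M_norm (N : ℕ) {s : ℂ} (hs : 0 ≤ s.re) : ‖M N s‖ ≤ N := by
  unfold M
  refine (norm_sum_le _ _).trans ?_
  have h1 : ∀ n ∈ Finset.Icc 1 N, ‖(Mob.a N n : ℂ) * (n : ℂ) ^ (-s)‖ ≤ 1 := by
    intro n hn
    rw [Finset.mem_Icc] at hn
    rw [norm_mul, Complex.norm_real, Real.norm_eq_abs, Complex.norm_natCast_cpow_of_pos hn.1]
    have h2 := Mob.abs_a_le N n
    have h3 : (n : ℝ) ^ (-s).re ≤ 1 := by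
      apply Real.rpow_le_one_of_one_le_of_nonpos
      · exact_mod_cast hn.1
      · simpa using hs
    calc _ ≤ 1 * 1 := mul_le_mul h2 h3 (by positivity) zero_le_one
      _ = 1 := one_mul 1
  refine (Finset.sum_le_sum h1).trans ?_
  simp

lemma M_norm_half (N : ℕ) {s : ℂ} (hs : 1 / 2 ≤ s.re) : ‖M N s‖ ^ 2 ≤ 4 * N := by
  have h0 : ‖M N s‖ ≤ 2 * Real.sqrt N := by
    unfold M
    refine (norm_sum_le _ _).trans ?_
    have h1 : ∀ n ∈ Finset.Icc 1 N, ‖(Mob.a N n : ℂ) * (n : ℂ) ^ (-s)‖ ≤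
        2 * (Real.sqrt n - Real.sqrt ((n - 1 : ℕ) : ℝ)) := by
      intro n hn
      rw [Finset.mem_Icc] at hn
      rw [norm_mul, Complex.norm_real, Real.norm_eq_abs, Complex.norm_natCast_cpow_of_pos hn.1]
      have h2 := Mob.abs_a_le N n
      have hn1 : (1 : ℝ) ≤ n := by exact_mod_cast hn.1
      have h3 : (n : ℝ) ^ (-s).re ≤ (Real.sqrt n)⁻¹ := by
        have : (n : ℝ) ^ (-s).re ≤ (n : ℝ) ^ (-(1 / 2) : ℝ) :=
          Real.rpow_le_rpow_of_exponent_le hn1 (by rw [Complex.neg_re]; linarith)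
        rwa [Real.rpow_neg (by linarith), ← Real.sqrt_eq_rpow] at this
      have h4 : (Real.sqrt n)⁻¹ ≤ 2 * (Real.sqrt n - Real.sqrt ((n - 1 : ℕ) : ℝ)) := by
        have e1 : ((n - 1 : ℕ) : ℝ) = n - 1 := by rw [Nat.cast_sub hn.1]; simp
        rw [e1]
        have p1 : 0 < Real.sqrt n := Real.sqrt_pos.mpr (by linarith)
        have p2 : 0 ≤ Real.sqrt (n - 1 : ℝ) := Real.sqrt_nonneg _
        have s1 : Real.sqrt n ^ 2 = n := Real.sq_sqrt (by linarith)
        have s2 : Real.sqrt (n - 1 : ℝ) ^ 2 = n - 1 := Real.sq_sqrt (by linarith)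
        rw [inv_eq_one_div, div_le_iff₀ p1]
        nlinarith [sq_nonneg (Real.sqrt n - Real.sqrt (n - 1 : ℝ))]
      calc |Mob.a N n| * (n : ℝ) ^ (-s).re ≤ 1 * (Real.sqrt n)⁻¹ :=
            mul_le_mul h2 h3 (by positivity) zero_le_one
        _ ≤ _ := by rw [one_mul]; exact h4
    refine (Finset.sum_le_sum h1).trans (le_of_eq ?_)
    rw [← Finset.mul_sum]
    congr 1
    clear h1
    induction N with
    | zero => simp
    | succ N ih =>
      rw [Finset.sum_Icc_succ_top (by omega), ih]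
      simp
  calc ‖M N s‖ ^ 2 ≤ (2 * Real.sqrt N) ^ 2 := pow_le_pow_left₀ (norm_nonneg _) h0 2
    _ = 4 * N := by rw [mul_pow, Real.sq_sqrt (Nat.cast_nonneg _)]; norm_num

lemma q_nonneg (N : ℕ) (t : ℝ) : 0 ≤ q N t := by unfold q; positivity

lemma q_cont (N : ℕ) : Continuous (q N) := by
  unfold q
  have h1 := zeta_cont
  have h2 := (M_diff N).continuous
  fun_prop

lemma w_cont (k : ℕ) (S : ℝ) : Continuous (w k S) := by
  unfold w; fun_prop

lemma wq_int (k N : ℕ) (hk : 1 ≤ k) {S : ℝ} (hS : 0 < S) :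
    IntegrableOn (fun t => w k S t * q N t) (Ioi 0) := by
  obtain ⟨C, hC0, hC⟩ := zeta_growth
  have hk0 : (0 : ℝ) < k := by exact_mod_cast hk
  set b : ℝ := k / S with hb
  have hb0 : 0 < b := by positivity
  refine integrable_of_isBigO_exp_neg (a := 0) (b := b / 2) (by positivity)
    ((w_cont k S).mul (q_cont N)).continuousOn ?_
  have h1 : (fun t : ℝ => t ^ (k + 1)) =o[atTop] fun t => Real.exp (b / 2 * t) :=
    isLittleO_pow_exp_pos_mul_atTop (k + 1) (by positivity)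
  have h2 := h1.isBigO.bound
  obtain ⟨c, hc⟩ := h2
  refine Asymptotics.IsBigO.of_bound (b ^ (k + 1) / k.factorial * (C ^ 2 * 2 * N ^ 2) * c) ?_
  filter_upwards [hc, eventually_ge_atTop (1 : ℝ)] with t ht ht1
  have ht0 : 0 < t := by linarith
  have e1 : ‖w k S t * q N t‖ = w k S t * q N t := by
    rw [Real.norm_of_nonneg]
    exact mul_nonneg (w_nonneg hS ht0.le) (q_nonneg N t)
  rw [e1, Real.norm_of_nonneg (Real.exp_pos _).le]
  have e2 : q N t ≤ (C ^ 2 * 2 * N ^ 2) * t := by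
    unfold q
    have h3 : ‖riemannZeta (1 / 2 + t * I)‖ ^ 2 ≤ C ^ 2 * (2 * t) := by
      have h4 := pow_le_pow_left₀ (norm_nonneg _) (hC t) 2
      refine h4.trans ?_
      rw [mul_pow]
      refine mul_le_mul_of_nonneg_left ?_ (by positivity)
      rw [abs_of_pos ht0, ← Real.rpow_natCast, ← Real.rpow_mul (by linarith)]
      calc (1 + t) ^ (1 / 5 * ((2 : ℕ) : ℝ) : ℝ) ≤ (1 + t) ^ (1 : ℝ) :=
            Real.rpow_le_rpow_of_exponent_le (by linarith) (by norm_num)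
        _ = 1 + t := Real.rpow_one _
        _ ≤ 2 * t := by linarith
    have h5 : ‖M N (1 / 2 + t * I)‖ ^ 2 ≤ (N : ℝ) ^ 2 :=
      pow_le_pow_left₀ (norm_nonneg _) (M_norm N (by simp)) 2
    calc _ ≤ C ^ 2 * (2 * t) * (N : ℝ) ^ 2 := mul_le_mul h3 h5 (by positivity) (by positivity)
      _ = _ := by ring
  have e3 : w k S t = b ^ (k + 1) / k.factorial * (t ^ k * Real.exp (-(b * t))) := by
    unfold w; rw [hb]; ring
  have e4 : t ^ (k + 1) ≤ c * Real.exp (b / 2 * t) := by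
    rw [Real.norm_of_nonneg (by positivity), Real.norm_of_nonneg (Real.exp_pos _).le] at ht
    exact ht
  have e5 : Real.exp (-(b * t)) * Real.exp (b / 2 * t) = Real.exp (-(b / 2) * t) := by
    rw [← Real.exp_add]; congr 1; ring
  calc w k S t * q N t ≤ w k S t * ((C ^ 2 * 2 * N ^ 2) * t) :=
        mul_le_mul_of_nonneg_left e2 (w_nonneg hS ht0.le)
    _ = b ^ (k + 1) / k.factorial * (C ^ 2 * 2 * N ^ 2) * (t ^ (k + 1) * Real.exp (-(b * t))) := by
        rw [e3]; ring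
    _ ≤ b ^ (k + 1) / k.factorial * (C ^ 2 * 2 * N ^ 2) * ((c * Real.exp (b / 2 * t)) * Real.exp (-(b * t))) := by
        gcongr
    _ = _ := by
        rw [mul_assoc c, mul_comm (Real.exp (b / 2 * t)), e5]
        ring

end Pool.Agent.J4H4.Mom
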