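import Pool.Agent.J4H4.Avg

/-!
# The mean square of the mollified zeta function over intervals
-/

set_option autoImplicit false

open MeasureTheory Filter Topology Complex Set

namespace Pool.Agent.J4H4.Mom

open Pool.Agent.J4H4.Gam

lemma KK_large (β : ℝ) (hβ : 0 < β) (c : ℝ) : ∀ᶠ T : ℝ in atTop, c ≤ (KK β T : ℕ) ∧ 1 ≤ KK β T := by
  have h1 : Tendsto (fun T : ℝ => Real.log (β * T)) atTop atTop :=
    Real.tendsto_log_atTop.comp (tendsto_id.const_mul_atTop hβ)
  filter_upwards [h1.eventually_ge_atTop (max c 1)] with T hT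
  have h2 : max c 1 ≤ Real.log (β * T) ^ 2 := by
    have h3 : 1 ≤ max c 1 := le_max_right _ _
    have : Real.log (β * T) ≤ Real.log (β * T) ^ 2 := by nlinarith
    linarith
  have h4 : max c 1 ≤ (KK β T : ℕ) := h2.trans (Nat.le_ceil _)
  refine ⟨(le_max_left _ _).trans h4, ?_⟩
  have h5 : (1 : ℝ) ≤ (KK β T : ℕ) := (le_max_right _ _).trans h4
  exact_mod_cast h5

lemma swap2 {k N : ℕ} {A B a b : ℝ} (hA : 0 < A) (hAB : A ≤ B) (hab : a ≤ b) :
    IntervalIntegrable (fun S => ∫ t in a..b, w k S t * q N t) volume A B ∧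
    ∫ S in A..B, (∫ t in a..b, w k S t * q N t) = ∫ t in a..b, (∫ S in A..B, w k S t) * q N t ∧
    IntervalIntegrable (fun t => (∫ S in A..B, w k S t) * q N t) volume a b := by
  have hcont : ContinuousOn (Function.uncurry fun (S t : ℝ) => w k S t * q N t) (Icc A B ×ˢ Icc a b) := by
    have h1 : ContinuousOn (fun z : ℝ × ℝ => q N z.2) (Icc A B ×ˢ Icc a b) :=
      ((q_cont N).comp continuous_snd).continuousOn
    have h2 : ContinuousOn (fun z : ℝ × ℝ => (k : ℝ) / z.1) (Icc A B ×ˢ Icc a b) :=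
      continuousOn_const.div continuousOn_fst fun z hz => (lt_of_lt_of_le hA hz.1.1).ne'
    have h3 : ContinuousOn (fun z : ℝ × ℝ => w k z.1 z.2) (Icc A B ×ˢ Icc a b) := by
      unfold w
      have hs : ContinuousOn (fun z : ℝ × ℝ => z.2) (Icc A B ×ˢ Icc a b) := continuousOn_snd
      have h4 := (h2.pow (k + 1)).mul (hs.pow k)
      have h5 := ((h2.mul hs).neg).rexp
      exact (h4.mul h5).div_const _
    exact h3.mul h1
  have hi : Integrable (Function.uncurry fun (S t : ℝ) => w k S t * q N t)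
      ((volume.restrict (Ioc A B)).prod (volume.restrict (Ioc a b))) := by
    rw [Measure.prod_restrict]
    have h1 : IntegrableOn (Function.uncurry fun (S t : ℝ) => w k S t * q N t) (Icc A B ×ˢ Icc a b)
        (volume.prod volume) := hcont.integrableOn_compact (isCompact_Icc.prod isCompact_Icc)
    exact h1.mono_set (prod_mono Ioc_subset_Icc_self Ioc_subset_Icc_self)
  have hL := hi.integral_prod_left
  have hR := hi.integral_prod_right
  have hs := integral_integral_swap hi
  have e1 : ∀ t : ℝ, ∫ S in Ioc A B, w k S t * q N t = (∫ S in A..B, w k S t) * q N t := by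
    intro t
    rw [integral_mul_const, intervalIntegral.integral_of_le hAB]
  refine ⟨?_, ?_, ?_⟩
  · rw [intervalIntegrable_iff_integrableOn_Ioc_of_le hAB]
    refine hL.congr (Eventually.of_forall fun S => ?_)
    simp only [Function.uncurry]
    rw [intervalIntegral.integral_of_le hab]
  · rw [intervalIntegral.integral_of_le hAB, intervalIntegral.integral_of_le hab]
    simp only [intervalIntegral.integral_of_le hab]
    rw [hs]
    exact integral_congr_ae (Eventually.of_forall e1)
  · rw [intervalIntegrable_iff_integrableOn_Ioc_of_le hab]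
    exact hR.congr (Eventually.of_forall e1)

theorem moment {θ : ℝ} (hθ0 : 0 < θ) (hθ : θ < 14 / 27) {α β : ℝ} (hα : 0 < α) (hαβ : α < β) {ε : ℝ}
    (hε : 0 < ε) : ∀ᶠ T : ℝ in atTop,
      ∫ t in (α * T)..(β * T), q (NN θ T) t ≤ (β - α) * T * (1 + 1 / θ + ε) := by
  -- choice of δ
  obtain ⟨δ, hδ0, hδ1, hδ⟩ : ∃ δ : ℝ, 0 < δ ∧ δ < 1 / 2 ∧
      (β / (1 - δ) - α / (1 + δ)) * (1 + 1 / θ + δ) ≤ (1 - δ) * ((β - α) * (1 + 1 / θ + ε)) := by
    have hcont : Tendsto (fun δ : ℝ => (1 - δ) * ((β - α) * (1 + 1 / θ + ε)) -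
        (β / (1 - δ) - α / (1 + δ)) * (1 + 1 / θ + δ)) (𝓝[>] 0)
        (𝓝 ((1 - 0) * ((β - α) * (1 + 1 / θ + ε)) -
        (β / (1 - 0) - α / (1 + 0)) * (1 + 1 / θ + 0))) := by
      have h1 : ContinuousAt (fun δ : ℝ => (1 - δ) * ((β - α) * (1 + 1 / θ + ε)) -
        (β / (1 - δ) - α / (1 + δ)) * (1 + 1 / θ + δ)) 0 := by
        have h2 : ContinuousAt (fun δ : ℝ => β / (1 - δ)) 0 :=
          ContinuousAt.div (by fun_prop) (by fun_prop) (by norm_num)
        have h3 : ContinuousAt (fun δ : ℝ => α / (1 + δ)) 0 :=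
          ContinuousAt.div (by fun_prop) (by fun_prop) (by norm_num)
        exact ContinuousAt.sub (by fun_prop) ((h2.sub h3).mul (by fun_prop))
      exact h1.tendsto.mono_left nhdsWithin_le_nhds
    have hpos : 0 < (1 - 0) * ((β - α) * (1 + 1 / θ + ε)) -
        (β / (1 - 0) - α / (1 + 0)) * (1 + 1 / θ + 0) := by
      have : 0 < β - α := by linarith
      have : 0 < (β - α) * ε := mul_pos this hε
      ring_nf
      ring_nf at this
      linarith
    have h4 := hcont.eventually (lt_mem_nhds hpos)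
    have h5 : ∀ᶠ δ : ℝ in 𝓝[>] 0, δ ∈ Ioo (0 : ℝ) (1 / 2) := Ioo_mem_nhdsGT (by norm_num)
    obtain ⟨δ, h6, h7⟩ := (h4.and h5).exists
    exact ⟨δ, h7.1, h7.2, by linarith⟩
  set A' : ℝ := α / (1 + δ) with hA'
  set B' : ℝ := β / (1 - δ) with hB'
  have hδ2 : 0 < 1 - δ := by linarith
  have hA'0 : 0 < A' := by positivity
  have hA'α : A' * (1 + δ) = α := by rw [hA']; field_simp
  have hB'β : B' * (1 - δ) = β := by rw [hB']; field_simp
  have hA'B' : A' ≤ B' := by
    have h1 : A' ≤ α := by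
      rw [← hA'α]; nlinarith
    have h2 : β ≤ B' := by
      have : 0 < B' := by
        have : 0 < β := by linarith
        positivity
      rw [← hB'β]; nlinarith
    linarith
  have hB'0 : 0 < B' := lt_of_lt_of_le hA'0 hA'B'
  filter_upwards [avg_le hθ0 hθ hA'0 hA'B' hδ0, eventually_gt_atTop (0 : ℝ),
    KK_large B' hB'0 (1 / δ ^ 3)] with T h1 hT0 hK
  set K := KK B' T with hKdef
  set N := NN θ T with hNdef
  have hAT : 0 < A' * T := mul_pos hA'0 hT0
  have hABT : A' * T ≤ B' * T := mul_le_mul_of_nonneg_right hA'B' hT0.le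
  have habT : α * T ≤ β * T := mul_le_mul_of_nonneg_right hαβ.le hT0.le
  have haT : 0 < α * T := mul_pos hα hT0
  obtain ⟨s1, s2, s3⟩ := swap2 (k := K) (N := N) hAT hABT habT
  -- upper bound
  have hup : ∫ S in (A' * T)..(B' * T), (∫ t in (α * T)..(β * T), w K S t * q N t) ≤
      (B' * T - A' * T) * (1 + 1 / θ + δ) := by
    have h2 : ∀ S ∈ Icc (A' * T) (B' * T), ∫ t in (α * T)..(β * T), w K S t * q N t ≤ 1 + 1 / θ + δ := by
      intro S hS
      have hS0 : 0 < S := lt_of_lt_of_le hAT hS.1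
      refine le_trans ?_ (h1 S hS.1 hS.2)
      rw [intervalIntegral.integral_of_le habT]
      refine setIntegral_mono_set (wq_int K N hK.2 hS0) ?_ ?_
      · rw [Filter.EventuallyLE, ae_restrict_iff' measurableSet_Ioi]
        exact Eventually.of_forall fun t ht => mul_nonneg (w_nonneg hS0 (le_of_lt ht)) (q_nonneg N t)
      · exact (Eventually.of_forall fun t (ht : t ∈ Ioc (α * T) (β * T)) => haT.trans ht.1)
    have h3 := intervalIntegral.integral_mono_on hABT s1 intervalIntegrable_const h2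
    refine h3.trans (le_of_eq ?_)
    rw [intervalIntegral.integral_const, smul_eq_mul]
  -- lower bound
  have hlo : (1 - δ) * ∫ t in (α * T)..(β * T), q N t ≤
      ∫ t in (α * T)..(β * T), (∫ S in (A' * T)..(B' * T), w K S t) * q N t := by
    rw [← intervalIntegral.integral_const_mul]
    refine intervalIntegral.integral_mono_on habT
      (((q_cont N).intervalIntegrable _ _).const_mul _) s3 fun t ht => ?_
    refine mul_le_mul_of_nonneg_right ?_ (q_nonneg N t)
    have ht0 : 0 < t := lt_of_lt_of_le haT ht.1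
    have h4 := mass hK.2 ht0 hδ0 hAT (by
      calc A' * T * (1 + δ) = (A' * (1 + δ)) * T := by ring
        _ = α * T := by rw [hA'α]
        _ ≤ t := ht.1) (by
      calc t ≤ β * T := ht.2
        _ = (B' * (1 - δ)) * T := by rw [hB'β]
        _ = B' * T * (1 - δ) := by ring) hABT
    refine le_trans ?_ h4
    have hK0 : (0 : ℝ) < K := by exact_mod_cast hK.2
    have h5 : 1 / ((K : ℝ) * δ ^ 2) ≤ δ := by
      rw [div_le_iff₀ (by positivity)]
      have h6 := hK.1
      rw [div_le_iff₀ (by positivity)] at h6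
      calc (1 : ℝ) ≤ K * δ ^ 3 := h6
        _ = _ := by ring
    linarith
  have hfin : (1 - δ) * ∫ t in (α * T)..(β * T), q N t ≤
      (1 - δ) * ((β - α) * T * (1 + 1 / θ + ε)) := by
    calc _ ≤ (B' * T - A' * T) * (1 + 1 / θ + δ) := by
          rw [s2] at hup
          exact hlo.trans hup
      _ = T * ((B' - A') * (1 + 1 / θ + δ)) := by ring
      _ ≤ T * ((1 - δ) * ((β - α) * (1 + 1 / θ + ε))) := mul_le_mul_of_nonneg_left hδ hT0.le
      _ = _ := by ring
  exact le_of_mul_le_mul_left hfin hδ2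

end Pool.Agent.J4H4.Mom
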