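import Mathlib

/-!
# The Poisson formula in a half plane

For `f` analytic on the closed right half plane and bounded, `f(a)` is the Poisson integral of the boundary values.
-/

set_option autoImplicit false

open MeasureTheory Filter Topology Complex Set

namespace Pool.Agent.J4H4.Poi

/-- the Poisson kernel of the half plane -/
noncomputable def P (a u : ℝ) : ℝ := a / (Real.pi * (a ^ 2 + u ^ 2))

lemma P_nonneg {a : ℝ} (ha : 0 < a) (u : ℝ) : 0 ≤ P a u := by
  unfold P; positivity

lemma P_pos {a : ℝ} (ha : 0 < a) (u : ℝ) : 0 < P a u := by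
  unfold P; positivity

lemma P_cont {a : ℝ} (ha : 0 < a) : Continuous (P a) := by
  unfold P
  refine Continuous.div continuous_const (by fun_prop) fun u => ?_
  positivity

lemma P_eq {a : ℝ} (ha : 0 < a) (u : ℝ) : P a u = (1 / (Real.pi * a)) * (1 + (u / a) ^ 2)⁻¹ := by
  unfold P
  have : a ≠ 0 := ha.ne'
  have h2 : a ^ 2 + u ^ 2 ≠ 0 := by positivity
  have h3 := Real.pi_pos.ne'
  field_simp

lemma P_integrable {a : ℝ} (ha : 0 < a) : Integrable (P a) := by
  have h1 : P a = fun u => (1 / (Real.pi * a)) * (1 + (u / a) ^ 2)⁻¹ := funext (P_eq ha)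
  rw [h1]
  exact (integrable_inv_one_add_sq.comp_div ha.ne').const_mul _

lemma P_integral {a : ℝ} (ha : 0 < a) : ∫ u, P a u = 1 := by
  have h1 : P a = fun u => (1 / (Real.pi * a)) * (1 + (u / a) ^ 2)⁻¹ := funext (P_eq ha)
  rw [h1, integral_const_mul, Measure.integral_comp_div (fun u : ℝ => (1 + u ^ 2)⁻¹) a,
    integral_univ_inv_one_add_sq, abs_of_pos ha, smul_eq_mul]
  have h3 := Real.pi_pos.ne'
  field_simp

lemma norm_slope_bound {f : ℂ → ℂ} {C a : ℝ} (ha : 0 < a) (hb : ∀ z : ℂ, 0 ≤ z.re → ‖f z‖ ≤ C) {z : ℂ}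
    {R : ℝ} (hR : 2 * a ≤ R) (hz : 0 ≤ z.re) (hzR : R ≤ ‖z‖) :
    ‖dslope f a z * (2 * a / (z + a))‖ ≤ 8 * C * a / R ^ 2 := by
  have hRp : 0 < R := by linarith
  have hC : 0 ≤ C := (norm_nonneg _).trans (hb z hz)
  have hza : z ≠ a := by
    rintro rfl
    rw [Complex.norm_real, Real.norm_eq_abs, abs_of_pos ha] at hzR
    linarith
  have h1 : R / 2 ≤ ‖z - a‖ := by
    have := norm_sub_norm_le z (a : ℂ)
    rw [Complex.norm_real, Real.norm_eq_abs, abs_of_pos ha] at this
    linarith
  have h2 : R ≤ ‖z + a‖ := by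
    refine hzR.trans ?_
    rw [Complex.norm_def, Complex.norm_def]
    apply Real.sqrt_le_sqrt
    rw [Complex.normSq_apply, Complex.normSq_apply]
    simp only [add_re, ofReal_re, add_im, ofReal_im, add_zero]
    nlinarith
  rw [dslope_of_ne f hza, slope_def_field, norm_mul, norm_div, norm_div]
  have h3 : ‖f z - f a‖ ≤ 2 * C := by
    refine (norm_sub_le _ _).trans ?_
    have := hb z hz
    have := hb a (by simpa using ha.le)
    linarith
  have h4 : ‖(2 * a : ℂ)‖ = 2 * a := by
    rw [norm_mul, Complex.norm_real, Real.norm_eq_abs, abs_of_pos ha]; norm_num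
  rw [h4]
  calc ‖f z - f a‖ / ‖z - a‖ * (2 * a / ‖z + a‖) ≤ (2 * C) / (R / 2) * (2 * a / R) := by
        gcongr
    _ = 8 * C * a / R ^ 2 := by field_simp; ring

theorem poisson {f : ℂ → ℂ} {C a : ℝ} (ha : 0 < a) (hf : ∀ z : ℂ, 0 ≤ z.re → DifferentiableAt ℂ f z)
    (hb : ∀ z : ℂ, 0 ≤ z.re → ‖f z‖ ≤ C) :
    Integrable (fun u : ℝ => (P a u : ℂ) * f (u * I)) ∧ ∫ u : ℝ, (P a u : ℂ) * f (u * I) = f a := by
  have hC : 0 ≤ C := (norm_nonneg _).trans (hb 0 (by simp))
  set H : ℂ → ℂ := fun z => dslope f a z * (2 * a / (z + a)) with hH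
  have hfs : DifferentiableOn ℂ f {z : ℂ | 0 ≤ z.re} := fun z hz => (hf z hz).differentiableWithinAt
  have hnh : {z : ℂ | 0 ≤ z.re} ∈ 𝓝 (a : ℂ) := by
    refine mem_of_superset ((isOpen_lt continuous_const Complex.continuous_re).mem_nhds
      (show (0 : ℝ) < (a : ℂ).re by simpa using ha)) fun z hz => ?_
    exact (show (0 : ℝ) < z.re from hz).le
  have hds : DifferentiableOn ℂ (dslope f a) {z : ℂ | 0 ≤ z.re} :=
    (Complex.differentiableOn_dslope hnh).2 hfs
  have hza : ∀ z : ℂ, 0 ≤ z.re → z + a ≠ 0 := by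
    intro z hz h
    have := congrArg Complex.re h
    simp only [add_re, ofReal_re, zero_re] at this
    linarith
  have hHd : DifferentiableOn ℂ H {z : ℂ | 0 ≤ z.re} := by
    intro z hz
    refine (hds z hz).mul ?_
    refine DifferentiableWithinAt.div (by fun_prop) (by fun_prop) (hza z hz)
  -- boundary values
  have hline : ∀ y : ℝ, H (y * I) = -(2 * a / (a ^ 2 + y ^ 2) : ℝ) * (f (y * I) - f a) := by
    intro y
    have hne : (y * I : ℂ) ≠ a := by
      intro h
      have := congrArg Complex.re h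
      simp at this
      linarith
    simp only [hH]
    rw [dslope_of_ne f hne, slope_def_field]
    have h1 : (y * I : ℂ) - a ≠ 0 := sub_ne_zero.mpr hne
    have h2 : (y * I : ℂ) + a ≠ 0 := hza _ (by simp)
    have h3 : ((a ^ 2 + y ^ 2 : ℝ) : ℂ) = -((y * I - a) * (y * I + a)) := by
      push_cast
      ring_nf
      rw [Complex.I_sq]; ring
    have h4 : ((a ^ 2 + y ^ 2 : ℝ) : ℂ) ≠ 0 := by
      rw [h3]; exact neg_ne_zero.mpr (mul_ne_zero h1 h2)
    rw [Complex.ofReal_div, h3]
    push_cast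
    field_simp
  have hcont : Continuous (fun y : ℝ => f (y * I)) := by
    rw [continuous_iff_continuousAt]
    intro y
    have h1 := (hf (y * I) (by simp)).continuousAt
    exact ContinuousAt.comp (f := fun y : ℝ => (y * I : ℂ)) (g := f) h1 (by fun_prop)
  have hPi := P_integrable ha
  have hint : Integrable (fun u : ℝ => (P a u : ℂ) * f (u * I)) := by
    have h1 : Integrable (fun u : ℝ => (P a u : ℂ)) := hPi.ofReal
    exact h1.mul_bdd (c := C) hcont.aestronglyMeasurable
      (Filter.Eventually.of_forall fun u => hb _ (by simp))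
  have hint2 : Integrable (fun u : ℝ => (P a u : ℂ) * f a) := hPi.ofReal.mul_const _
  have hHP : ∀ y : ℝ, H (y * I) = -(2 * Real.pi) * ((P a y : ℂ) * f (y * I) - (P a y : ℂ) * f a) := by
    intro y
    rw [hline y]
    unfold P
    push_cast
    have h3 : (Real.pi : ℂ) ≠ 0 := by exact_mod_cast Real.pi_pos.ne'
    have h4 : ((a : ℂ) ^ 2 + (y : ℂ) ^ 2) ≠ 0 := by
      have : (a ^ 2 + y ^ 2 : ℝ) ≠ 0 := by positivity
      exact_mod_cast this
    field_simp
  have hHint : Integrable (fun y : ℝ => H (y * I)) := by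
    have : (fun y : ℝ => H (y * I)) =
      fun y : ℝ => -(2 * Real.pi : ℂ) * ((P a y : ℂ) * f (y * I) - (P a y : ℂ) * f a) := funext hHP
    rw [this]
    exact (hint.sub hint2).const_mul _
  -- the limit of the truncated integrals
  have hlim1 : Tendsto (fun R : ℝ => ∫ y in (-R)..R, H (y * I)) atTop (𝓝 (∫ y : ℝ, H (y * I))) :=
    intervalIntegral_tendsto_integral hHint tendsto_neg_atTop_atBot tendsto_id
  have hlim2 : Tendsto (fun R : ℝ => ∫ y in (-R)..R, H (y * I)) atTop (𝓝 0) := by
    rw [tendsto_zero_iff_norm_tendsto_zero]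
    have hz : Tendsto (fun R : ℝ => 32 * C * a * R⁻¹) atTop (𝓝 0) := by
      have := tendsto_inv_atTop_zero.const_mul (32 * C * a)
      simpa using this
    refine squeeze_zero' (Eventually.of_forall fun R => norm_nonneg _) ?_ hz
    filter_upwards [eventually_ge_atTop (2 * a)] with R hR
    have hRp : 0 < R := by linarith
    have hrect := integral_boundary_rect_eq_zero_of_differentiableOn H (⟨0, -R⟩ : ℂ) (⟨R, R⟩ : ℂ) (by
      refine hHd.mono ?_
      intro z hz
      simp only [Complex.mem_reProdIm] at hz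
      have h1 := hz.1
      rw [uIcc_of_le hRp.le] at h1
      exact h1.1)
    simp only [] at hrect
    have hbd : ∀ z : ℂ, 0 ≤ z.re → R ≤ ‖z‖ → ‖H z‖ ≤ 8 * C * a / R ^ 2 := fun z hz hzR =>
      norm_slope_bound ha hb hR hz hzR
    have b1 : ‖∫ x in (0 : ℝ)..R, H (x + (-R : ℝ) * I)‖ ≤ 8 * C * a / R ^ 2 * |R - 0| := by
      refine intervalIntegral.norm_integral_le_of_norm_le_const fun x hx => ?_
      rw [uIoc_of_le hRp.le] at hx
      refine hbd _ ?_ ?_
      · simp only [add_re, ofReal_re, mul_re, I_re, mul_zero, ofReal_im, I_im, mul_one, sub_self,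
          add_zero]; exact hx.1.le
      · have := Complex.abs_im_le_norm ((x : ℂ) + (-R : ℝ) * I)
        simp only [add_im, ofReal_im, mul_im, I_im, mul_one, I_re, mul_zero, ofReal_re, add_zero,
          zero_add] at this
        rw [abs_neg, abs_of_pos hRp] at this
        exact this
    have b2 : ‖∫ x in (0 : ℝ)..R, H (x + (R : ℝ) * I)‖ ≤ 8 * C * a / R ^ 2 * |R - 0| := by
      refine intervalIntegral.norm_integral_le_of_norm_le_const fun x hx => ?_
      rw [uIoc_of_le hRp.le] at hx
      refine hbd _ ?_ ?_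
      · simp only [add_re, ofReal_re, mul_re, I_re, mul_zero, ofReal_im, I_im, mul_one, sub_self,
          add_zero]; exact hx.1.le
      · have := Complex.abs_im_le_norm ((x : ℂ) + (R : ℝ) * I)
        simp only [add_im, ofReal_im, mul_im, I_im, mul_one, I_re, mul_zero, ofReal_re, add_zero,
          zero_add] at this
        rw [abs_of_pos hRp] at this
        exact this
    have b3 : ‖∫ y in (-R)..R, H ((R : ℝ) + y * I)‖ ≤ 8 * C * a / R ^ 2 * |R - (-R)| := by
      refine intervalIntegral.norm_integral_le_of_norm_le_const fun y hy => ?_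
      refine hbd _ ?_ ?_
      · simp only [add_re, ofReal_re, mul_re, I_re, mul_zero, ofReal_im, I_im, mul_one, sub_self,
          add_zero]; exact hRp.le
      · have := Complex.abs_re_le_norm (((R : ℝ) : ℂ) + y * I)
        simp only [add_re, ofReal_re, mul_re, I_re, mul_zero, ofReal_im, I_im, mul_one, sub_self,
          add_zero] at this
        rw [abs_of_pos hRp] at this
        exact this
    have e0 : (∫ y in (-R)..R, H (((0 : ℝ) : ℂ) + y * I)) = ∫ y in (-R)..R, H (y * I) := by
      refine intervalIntegral.integral_congr fun y _ => ?_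
      simp
    rw [e0] at hrect
    have e1 : I • ∫ y in (-R)..R, H (y * I) = (∫ x in (0 : ℝ)..R, H (x + (-R : ℝ) * I)) -
        (∫ x in (0 : ℝ)..R, H (x + (R : ℝ) * I)) + I • ∫ y in (-R)..R, H ((R : ℝ) + y * I) :=
      (sub_eq_zero.mp hrect).symm
    have e2 : ‖∫ y in (-R)..R, H (y * I)‖ = ‖I • ∫ y in (-R)..R, H (y * I)‖ := by
      rw [norm_smul, Complex.norm_I, one_mul]
    rw [e2, e1]
    refine (norm_add_le _ _).trans ?_
    rw [norm_smul, Complex.norm_I, one_mul]
    refine (add_le_add (norm_sub_le _ _) le_rfl).trans ?_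
    rw [sub_zero, abs_of_pos hRp] at b1 b2
    rw [sub_neg_eq_add, abs_of_pos (by linarith)] at b3
    refine (add_le_add (add_le_add b1 b2) b3).trans (le_of_eq ?_)
    field_simp
    ring
  have h0 := tendsto_nhds_unique hlim1 hlim2
  rw [integral_congr_ae (Eventually.of_forall hHP), integral_const_mul, integral_sub hint hint2,
    integral_mul_const] at h0
  refine ⟨hint, ?_⟩
  have h5 : (-(2 * Real.pi) : ℂ) ≠ 0 := by
    have : (-(2 * Real.pi) : ℝ) ≠ 0 := by
      have := Real.pi_pos; linarith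
    exact_mod_cast this
  have h6 := (mul_eq_zero.mp h0).resolve_left h5
  have h7 : (∫ u : ℝ, (P a u : ℂ)) = 1 := by
    rw [integral_complex_ofReal, P_integral ha]; simp
  rw [h7, one_mul] at h6
  exact sub_eq_zero.mp h6

end Pool.Agent.J4H4.Poi
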