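import Mathlib

/-!
# Real polynomials all of whose roots lie in the closed left half plane
-/

set_option autoImplicit false

open Polynomial Filter Topology

namespace Pool.Agent.J4H4.Pol

lemma mul_nonneg_coeff {p q : ℝ[X]} (hp : ∀ k, 0 ≤ p.coeff k) (hq : ∀ k, 0 ≤ q.coeff k) :
    ∀ k, 0 ≤ (p * q).coeff k := by
  intro k
  rw [coeff_mul]
  exact Finset.sum_nonneg fun x _ => mul_nonneg (hp _) (hq _)

lemma lin_coeff {a : ℝ} (ha : a ≤ 0) : ∀ k, 0 ≤ (X - C a : ℝ[X]).coeff k := by
  intro k
  rw [coeff_sub, coeff_X, coeff_C]
  split_ifs with h1 h2 h2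
  · omega
  · norm_num
  · linarith
  · norm_num

lemma quad_coeff {b c : ℝ} (hb : b ≤ 0) (hc : 0 ≤ c) : ∀ k, 0 ≤ (X ^ 2 - C b * X + C c : ℝ[X]).coeff k := by
  intro k
  rw [coeff_add, coeff_sub, coeff_X_pow, coeff_C_mul, coeff_X, coeff_C]
  split_ifs <;> first | omega | (norm_num; linarith) | norm_num

/-- a nonzero real polynomial with all roots in the closed left half plane has coefficients of one sign -/
theorem one_sign (n : ℕ) : ∀ p : ℝ[X], p.natDegree = n → p ≠ 0 → (∀ z : ℂ, aeval z p = 0 → z.re ≤ 0) →
    (∀ k, 0 ≤ p.coeff k) ∨ (∀ k, p.coeff k ≤ 0) := by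
  induction n using Nat.strong_induction_on with
  | _ n ih =>
    intro p hpn hp0 hr
    rcases Nat.eq_zero_or_pos n with h0 | hpos
    · rw [h0] at hpn
      rw [eq_C_of_natDegree_eq_zero hpn]
      rcases le_total 0 (p.coeff 0) with h | h
      · left
        intro k
        rw [coeff_C]
        split_ifs
        · exact h
        · exact le_rfl
      · right
        intro k
        rw [coeff_C]
        split_ifs
        · exact h
        · exact le_rfl
    · have hdeg : (p.map (algebraMap ℝ ℂ)).degree ≠ 0 := by
        rw [degree_map]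
        intro h
        have h2 : p.natDegree = 0 := natDegree_eq_of_degree_eq_some (by rw [h]; rfl)
        rw [hpn] at h2
        exact hpos.ne' h2
      obtain ⟨z, hz⟩ := IsAlgClosed.exists_root _ hdeg
      have hz' : aeval z p = 0 := by
        rw [IsRoot.def, eval_map_algebraMap] at hz
        exact hz
      have hre := hr z hz'
      -- the factor
      obtain ⟨q, hq0, hqc, hqdeg, hqd⟩ : ∃ q : ℝ[X], q ≠ 0 ∧ (∀ k, 0 ≤ q.coeff k) ∧ 1 ≤ q.natDegree ∧ q ∣ p := by
        by_cases him : z.im = 0
        · refine ⟨X - C z.re, X_sub_C_ne_zero _, lin_coeff hre, by rw [natDegree_X_sub_C], ?_⟩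
          rw [dvd_iff_isRoot, IsRoot.def]
          have hzr : z = (z.re : ℂ) := by
            apply Complex.ext <;> simp [him]
          rw [hzr] at hz'
          have h1 : aeval (z.re : ℂ) p = ((p.eval z.re : ℝ) : ℂ) := by
            have := aeval_algebraMap_apply ℂ z.re p
            simpa using this
          rw [h1] at hz'
          exact_mod_cast hz'
        · have h1 := quadratic_dvd_of_aeval_eq_zero_im_ne_zero p hz' him
          have h2 : (X ^ 2 - C (2 * z.re) * X + C (‖z‖ ^ 2) : ℝ[X]).natDegree = 2 := by
              compute_degree!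
          refine ⟨_, ?_, ?_, ?_, h1⟩
          · intro h
            rw [h] at h2
            simp at h2
          · exact quad_coeff (by linarith) (by positivity)
          · rw [h2]
            norm_num
      obtain ⟨r, hr'⟩ := hqd
      have hr0 : r ≠ 0 := by
        rintro rfl
        apply hp0
        rw [hr', mul_zero]
      have hdr : r.natDegree < n := by
        have h2 : p.natDegree = q.natDegree + r.natDegree := by
          rw [hr', natDegree_mul hq0 hr0]
        omega
      have h3 := ih r.natDegree hdr r rfl hr0 (by
        intro w hw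
        apply hr w
        rw [hr', map_mul, hw, mul_zero])
      rcases h3 with h3 | h3
      · left
        rw [hr']
        exact mul_nonneg_coeff hqc h3
      · right
        intro k
        have h4 := mul_nonneg_coeff hqc (q := -r) (by
          intro k
          rw [coeff_neg]
          linarith [h3 k]) k
        rw [mul_neg, coeff_neg] at h4
        rw [hr']
        linarith

/-- if moreover the polynomial is positive somewhere on the positive axis, its coefficients are nonnegative -/
theorem nonneg_coeff {p : ℝ[X]} (hp0 : p ≠ 0) (hr : ∀ z : ℂ, aeval z p = 0 → z.re ≤ 0) {x : ℝ} (hx : 0 ≤ x)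
    (hpx : 0 < p.eval x) : ∀ k, 0 ≤ p.coeff k := by
  rcases one_sign p.natDegree p rfl hp0 hr with h | h
  · exact h
  · exfalso
    have : p.eval x ≤ 0 := by
      rw [eval_eq_sum_range]
      exact Finset.sum_nonpos fun k _ => mul_nonpos_of_nonpos_of_nonneg (h k) (pow_nonneg hx k)
    linarith

end Pool.Agent.J4H4.Pol
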