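import Pool.Agent.J4H4.Pol
import Pool.Agent.J4H1.JP.F1
import Pool.Agent.J4H8.JP.Had

/-!
# The Laguerre inequalities at a given height
-/

set_option autoImplicit false

open Complex Filter Topology Polynomial
open scoped ComplexConjugate

namespace Pool.Agent.J4H4.Str

open Pool.Agent.J4H1.JP

/-- `ξ(1/2 + z + it) ξ(1/2 + z - it)` -/
noncomputable def Gt (t : ℝ) (z : ℂ) : ℂ := Xi (z + t * I) * Xi (z - t * I)

/-- `f_t(z²) = ξ(1/2 + z + it) ξ(1/2 + z - it)` -/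
noncomputable def ft (t : ℝ) (x : ℂ) : ℂ := Gt t (x ^ (1 / 2 : ℂ))

lemma Gt_diff (t : ℝ) : Differentiable ℂ (Gt t) := by
  intro z
  have h := diff_Xi
  have h1 : DifferentiableAt ℂ (fun z : ℂ => Xi (z + t * I)) z := (h _).comp z (by fun_prop)
  have h2 : DifferentiableAt ℂ (fun z : ℂ => Xi (z - t * I)) z := (h _).comp z (by fun_prop)
  exact h1.mul h2

lemma Gt_neg (t : ℝ) (z : ℂ) : Gt t (-z) = Gt t z := by
  unfold Gt
  rw [show -z + t * I = -(z - t * I) by ring, show -z - t * I = -(z + t * I) by ring, Xi_neg, Xi_neg, mul_comm]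

lemma Xi_conj (z : ℂ) : Xi (conj z) = conj (Xi z) := by
  rw [← F_sq, ← F_sq, ← map_pow, F_sym]

lemma Gt_conj (t : ℝ) (z : ℂ) : Gt t (conj z) = conj (Gt t z) := by
  unfold Gt
  rw [map_mul, ← Xi_conj, ← Xi_conj, map_add, map_sub, map_mul, conj_ofReal, conj_I]
  rw [show conj z + t * I = conj z - t * -I by ring, show conj z + t * -I = conj z - t * I by ring, mul_comm]

lemma Gt_real (t a : ℝ) : Gt t a = ((‖Xi (a + t * I)‖ ^ 2 : ℝ) : ℂ) := by
  unfold Gt
  have h : (a - t * I : ℂ) = conj (a + t * I : ℂ) := by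
    rw [map_add, map_mul, conj_ofReal, conj_ofReal, conj_I]; ring
  rw [h, Xi_conj, mul_conj, normSq_eq_norm_sq]

/-- Taylor coefficients of `Gt` -/
noncomputable def g (t : ℝ) (n : ℕ) : ℂ := iteratedDeriv n (Gt t) 0 / n.factorial

lemma hasSum_Gt (t : ℝ) (z : ℂ) : HasSum (fun n => g t n * z ^ n) (Gt t z) := by
  have h := Complex.hasSum_taylorSeries_of_entire (Gt_diff t) 0 z
  refine h.congr_fun fun k => ?_
  unfold g
  rw [sub_zero, smul_eq_mul, smul_eq_mul]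
  ring

lemma g_odd (t : ℝ) (k : ℕ) : g t (2 * k + 1) = 0 := by
  have h1 : iteratedDeriv (2 * k + 1) (Gt t) 0 = -iteratedDeriv (2 * k + 1) (Gt t) 0 := by
    have h2 : Gt t = fun z => Gt t (-z) := by
      funext z; rw [Gt_neg]
    have h3 := iteratedDeriv_comp_neg (2 * k + 1) (Gt t) (0 : ℂ)
    rw [← h2] at h3
    rw [neg_zero] at h3
    have h4 : (-1 : ℂ) ^ (2 * k + 1) = -1 := by
      rw [pow_succ, pow_mul]; norm_num
    rw [h4] at h3
    simpa using h3
  have h2 : iteratedDeriv (2 * k + 1) (Gt t) 0 = 0 := by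
    have h3 : (2 : ℂ) * iteratedDeriv (2 * k + 1) (Gt t) 0 = 0 := by
      linear_combination h1
    simpa using h3
  unfold g
  rw [h2, zero_div]

lemma hasSum_even (t : ℝ) (z : ℂ) : HasSum (fun k => g t (2 * k) * (z ^ 2) ^ k) (Gt t z) := by
  have h := hasSum_Gt t z
  have hinj : Function.Injective (fun k : ℕ => 2 * k) := fun a b hab => by
    have : 2 * a = 2 * b := hab
    omega
  have h2 := (hinj.hasSum_iff (f := fun n => g t n * z ^ n) (a := Gt t z) (by
    intro n hn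
    have hodd : ∃ k, n = 2 * k + 1 := by
      rcases Nat.even_or_odd' n with ⟨k, hk | hk⟩
      · exact absurd ⟨k, hk.symm⟩ hn
      · exact ⟨k, hk⟩
    obtain ⟨k, rfl⟩ := hodd
    rw [g_odd, zero_mul])).mpr h
  refine h2.congr_fun fun k => ?_
  simp only [Function.comp]
  rw [pow_mul]

lemma hasSum_ft (t : ℝ) (x : ℂ) : HasSum (fun k => g t (2 * k) * x ^ k) (ft t x) := by
  have h := hasSum_even t (x ^ (1 / 2 : ℂ))
  rw [sqrt_sq] at h
  exact h

lemma ft_sq (t : ℝ) (z : ℂ) : ft t (z ^ 2) = Gt t z :=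
  (hasSum_ft t (z ^ 2)).unique (hasSum_even t z)

lemma ft_diff (t : ℝ) : Differentiable ℂ (ft t) := diff_of_hasSum (hasSum_ft t)

lemma ft_conj (t : ℝ) (x : ℂ) : ft t (conj x) = conj (ft t x) := by
  have h1 : x = (x ^ (1 / 2 : ℂ)) ^ 2 := (sqrt_sq x).symm
  rw [h1, map_pow, ft_sq, ft_sq]
  rw [← Gt_conj]

lemma ft_gro (t : ℝ) : ∃ C : ℝ, 0 ≤ C ∧ ∀ z : ℂ, ‖ft t z‖ ≤ Real.exp (C * (1 + ‖z‖) ^ (3 / 4 : ℝ)) := by
  obtain ⟨C, hC, h⟩ := F_gro
  refine ⟨2 * (C * (2 + 2 * t ^ 2) ^ (3 / 4 : ℝ)), by positivity, fun x => ?_⟩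
  set z := x ^ (1 / 2 : ℂ) with hz
  have hz2 : ‖z‖ ^ 2 = ‖x‖ := norm_sqrt x
  have e : ft t x = F ((z + t * I) ^ 2) * F ((z - t * I) ^ 2) := by
    rw [F_sq, F_sq]; rfl
  rw [e, norm_mul]
  have key : ∀ w : ℂ, ‖w‖ ≤ ‖z‖ + |t| → ‖F (w ^ 2)‖ ≤ Real.exp (C * (2 + 2 * t ^ 2) ^ (3 / 4 : ℝ) * (1 + ‖x‖) ^ (3 / 4 : ℝ)) := by
    intro w hw
    refine (h (w ^ 2)).trans (Real.exp_le_exp.mpr ?_)
    rw [mul_assoc, ← Real.mul_rpow (by positivity) (by positivity)]
    apply mul_le_mul_of_nonneg_left _ hC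
    apply Real.rpow_le_rpow (by positivity) _ (by norm_num)
    rw [norm_pow]
    have h1 : ‖w‖ ^ 2 ≤ (‖z‖ + |t|) ^ 2 := pow_le_pow_left₀ (norm_nonneg _) hw 2
    have h2 : (‖z‖ + |t|) ^ 2 ≤ 2 * ‖x‖ + 2 * t ^ 2 := by
      rw [← hz2, ← sq_abs t]
      nlinarith [sq_nonneg (‖z‖ - |t|)]
    have h3 : 0 ≤ ‖x‖ := norm_nonneg x
    nlinarith [sq_nonneg t, mul_nonneg (sq_nonneg t) h3]
  have hI : ‖(t * I : ℂ)‖ = |t| := by
    rw [norm_mul, norm_I, mul_one, norm_real, Real.norm_eq_abs]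
  have h1 := key (z + t * I) ((norm_add_le _ _).trans (by rw [hI]))
  have h2 := key (z - t * I) ((norm_sub_le _ _).trans (by rw [hI]))
  calc _ ≤ Real.exp (C * (2 + 2 * t ^ 2) ^ (3 / 4 : ℝ) * (1 + ‖x‖) ^ (3 / 4 : ℝ)) *
        Real.exp (C * (2 + 2 * t ^ 2) ^ (3 / 4 : ℝ) * (1 + ‖x‖) ^ (3 / 4 : ℝ)) :=
        mul_le_mul h1 h2 (norm_nonneg _) (Real.exp_pos _).le
    _ = _ := by rw [← Real.exp_add]; congr 1; ring

lemma ft_ent (t : ℝ) : Ent (ft t) := ⟨ft_diff t, ft_conj t, ft_gro t⟩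

/-- no zero in the double cone with vertex `1/2 + it` -/
def Cone (t : ℝ) : Prop := ∀ w : ℂ, Xi w = 0 → |w.re| ≤ |w.im - t|

lemma ft_zero {t : ℝ} (ht : Cone t) {x : ℂ} (hx : ft t x = 0) : x.re ≤ 0 := by
  set z := x ^ (1 / 2 : ℂ) with hz
  have hxz : x = z ^ 2 := (sqrt_sq x).symm
  have hzr : |z.re| ≤ |z.im| := by
    have h1 : Xi (z + t * I) * Xi (z - t * I) = 0 := hx
    rcases mul_eq_zero.mp h1 with h | h
    · have := ht _ h
      simpa using this
    · have h2 : Xi (conj (z - t * I)) = 0 := by rw [Xi_conj, h, map_zero]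
      have := ht _ h2
      simp at this
      exact this
  have h3 := sq_le_sq' (by linarith [abs_nonneg z.re, abs_nonneg z.im]) hzr
  rw [sq_abs, sq_abs] at h3
  rw [hxz, sq, mul_re]
  nlinarith

/-- convergence of the Taylor coefficients -/
lemma iter_conv {P : ℕ → ℂ → ℂ} {f : ℂ → ℂ} (hP : ∀ N, Differentiable ℂ (P N))
    (h : TendstoLocallyUniformly P f atTop) (k : ℕ) :
    TendstoLocallyUniformlyOn (fun N => iteratedDeriv k (P N)) (iteratedDeriv k f) atTop Set.univ := by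
  induction k with
  | zero => simpa using (tendstoLocallyUniformlyOn_univ.mpr h)
  | succ k ih =>
    have h1 := ih.deriv (Filter.Eventually.of_forall fun N => (diff_iter (hP N) k).differentiableOn) isOpen_univ
    rw [iteratedDeriv_succ]
    refine h1.congr ?_
    intro N z _
    simp only [Function.comp]
    rw [iteratedDeriv_succ]

lemma hasSum_pol (P : ℝ[X]) (x : ℂ) : HasSum (fun k => (P.coeff k : ℂ) * x ^ k) (aeval x P) := by
  rw [aeval_eq_sum_range]
  have h : HasSum (fun k => (P.coeff k : ℂ) * x ^ k)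
      (∑ k ∈ Finset.range (P.natDegree + 1), (P.coeff k : ℂ) * x ^ k) := by
    apply hasSum_sum_of_ne_finset_zero
    intro k hk
    rw [Finset.mem_range] at hk
    rw [coeff_eq_zero_of_natDegree_lt (by omega)]
    simp
  convert h using 1
  simp only [Complex.real_smul]

/-- In a cone free of zeros the inequalities hold. -/
theorem nonneg_of_cone {t : ℝ} (ht : Cone t) (k : ℕ) : 0 ≤ (g t (2 * k)).re := by
  have hne : ∃ z, ft t z ≠ 0 := by
    refine ⟨(1 : ℂ) ^ 2, ?_⟩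
    rw [ft_sq]
    unfold Gt
    exact mul_ne_zero (Xi_ne (by simp; norm_num)) (Xi_ne (by simp; norm_num))
  obtain ⟨P, hP0, hP1, -, hP2⟩ := Pool.Agent.J4H8.JP.t_had (ft t) (ft_ent t) hne
  have hpos : 0 < (ft t ((1 : ℝ) : ℂ)).re := by
    have e : ((1 : ℝ) : ℂ) = ((1 : ℝ) : ℂ) ^ 2 := by norm_num
    rw [e, ft_sq, Gt_real]
    have : Xi (((1 : ℝ) : ℂ) + t * I) ≠ 0 := Xi_ne (by simp; norm_num)
    rw [ofReal_re]
    positivity
  have hpt : Tendsto (fun N => (aeval ((1 : ℝ) : ℂ) (P N))) atTop (𝓝 (ft t ((1 : ℝ) : ℂ))) :=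
    (tendstoLocallyUniformlyOn_univ.mpr hP2).tendsto_at (Set.mem_univ _)
  have hev : ∀ᶠ N in atTop, 0 < (P N).eval 1 := by
    have h1 := ((Complex.continuous_re.tendsto _).comp hpt).eventually (lt_mem_nhds hpos)
    filter_upwards [h1] with N hN
    have h2 : aeval ((1 : ℝ) : ℂ) (P N) = (((P N).eval 1 : ℝ) : ℂ) := by
      have := aeval_algebraMap_apply ℂ (1 : ℝ) (P N)
      simpa using this
    simp only [Function.comp] at hN
    rw [h2, ofReal_re] at hN
    exact hN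
  have hcoef : ∀ᶠ N in atTop, 0 ≤ (P N).coeff k := by
    filter_upwards [hev] with N hN
    exact Pol.nonneg_coeff (hP0 N) (fun z hz => ft_zero ht (hP1 N z hz)) zero_le_one hN k
  have hPd : ∀ N, Differentiable ℂ (fun z : ℂ => aeval z (P N)) := fun N => diff_of_hasSum (hasSum_pol (P N))
  have hconv := (iter_conv hPd hP2 k).tendsto_at (Set.mem_univ (0 : ℂ))
  have e1 : iteratedDeriv k (ft t) 0 = k.factorial * g t (2 * k) := iter_of_hasSum (hasSum_ft t) k
  have e2 : ∀ N, iteratedDeriv k (fun z : ℂ => aeval z (P N)) 0 = k.factorial * ((P N).coeff k : ℂ) :=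
    fun N => iter_of_hasSum (hasSum_pol (P N)) k
  rw [e1] at hconv
  simp only [e2] at hconv
  have hconv2 : Tendsto (fun N => (k.factorial * ((P N).coeff k : ℂ)).re) atTop
      (𝓝 (k.factorial * g t (2 * k)).re) := (Complex.continuous_re.tendsto _).comp hconv
  have h3 : 0 ≤ (k.factorial * g t (2 * k) : ℂ).re := by
    apply ge_of_tendsto hconv2
    filter_upwards [hcoef] with N hN
    have h6 : (k.factorial * ((P N).coeff k : ℂ)).re = k.factorial * (P N).coeff k := by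
      rw [← ofReal_natCast, ← ofReal_mul, ofReal_re]
    rw [h6]
    positivity
  have h4 : (k.factorial * g t (2 * k) : ℂ).re = k.factorial * (g t (2 * k)).re := by
    rw [← ofReal_natCast, re_ofReal_mul]
  rw [h4] at h3
  have h5 : (0 : ℝ) < k.factorial := by exact_mod_cast k.factorial_pos
  exact nonneg_of_mul_nonneg_right h3 h5

end Pool.Agent.J4H4.Str
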