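import Pool.Agent.J4H4.Itg
import Pool.Agent.J4H4.Mom2
import Pool.Agent.H52R4.PZT1

/-!
# The mollified zeta function as a bounded function of a half plane
-/

set_option autoImplicit false

open MeasureTheory Filter Topology Complex Set

namespace Pool.Agent.J4H4.ZF

open Pool.Agent.J4H4.Mom
open Pool.Agent.TH809.MZ (ZE ZE_eq)

lemma term_bound {n : ℕ} (hn : 2 ≤ n) {s : ℂ} (hs : 2 ≤ s.re) :
    ‖(n : ℂ) ^ (-s)‖ ≤ 2 ^ (2 - s.re) * (1 / ((n : ℝ) - 1) - 1 / (n : ℝ)) := by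
  have hn0 : 0 < n := by omega
  rw [Complex.norm_natCast_cpow_of_pos hn0]
  have hn2 : (2 : ℝ) ≤ n := by exact_mod_cast hn
  have hnp : (0 : ℝ) < n := by linarith
  have e1 : (-s).re = (2 - s.re) + (-2) := by simp only [Complex.neg_re]; ring
  rw [e1, Real.rpow_add hnp]
  have h1 : (n : ℝ) ^ (2 - s.re) ≤ 2 ^ (2 - s.re) :=
    Real.rpow_le_rpow_of_nonpos (by norm_num) hn2 (by linarith)
  have h2 : (n : ℝ) ^ (-2 : ℝ) ≤ 1 / ((n : ℝ) - 1) - 1 / (n : ℝ) := by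
    have h3 : (n : ℝ) ^ (-2 : ℝ) = 1 / (n : ℝ) ^ 2 := by
      rw [Real.rpow_neg hnp.le]
      norm_num
    have hn1 : (n : ℝ) - 1 ≠ 0 := by
      have : (0 : ℝ) < n - 1 := by linarith
      exact this.ne'
    have h4 : 1 / ((n : ℝ) - 1) - 1 / (n : ℝ) = 1 / (((n : ℝ) - 1) * n) := by
      field_simp
      ring
    rw [h3, h4]
    have h5 : (0 : ℝ) < (n - 1) * n := mul_pos (by linarith) hnp
    apply one_div_le_one_div_of_le h5
    nlinarith
  exact mul_le_mul h1 h2 (by positivity) (by positivity)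

lemma M_near {N : ℕ} (hN : 1 ≤ N) {s : ℂ} (hs : 2 ≤ s.re) : ‖M N s - 1‖ ≤ 2 ^ (2 - s.re) := by
  have h1 : M N s - 1 = ∑ n ∈ Finset.Icc 2 N, (Mob.a N n : ℂ) * (n : ℂ) ^ (-s) := by
    unfold M
    rw [← Finset.add_sum_Ioc_eq_sum_Icc hN]
    have : Finset.Ioc 1 N = Finset.Icc 2 N := by ext; simp [Finset.mem_Ioc, Finset.mem_Icc]; omega
    rw [this, Mob.a_one hN]
    simp
  rw [h1]
  refine (norm_sum_le _ _).trans ?_
  have h2 : ∀ n ∈ Finset.Icc 2 N, ‖(Mob.a N n : ℂ) * (n : ℂ) ^ (-s)‖ ≤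
      2 ^ (2 - s.re) * (1 / ((n : ℝ) - 1) - 1 / (n : ℝ)) := by
    intro n hn
    rw [Finset.mem_Icc] at hn
    rw [norm_mul, Complex.norm_real, Real.norm_eq_abs]
    have h3 := Mob.abs_a_le N n
    have h4 := term_bound hn.1 hs
    calc _ ≤ 1 * ‖(n : ℂ) ^ (-s)‖ := mul_le_mul_of_nonneg_right h3 (norm_nonneg _)
      _ ≤ _ := by rw [one_mul]; exact h4
  refine (Finset.sum_le_sum h2).trans ?_
  rw [← Finset.mul_sum]
  have h5 : ∀ N : ℕ, 1 ≤ N → ∑ n ∈ Finset.Icc 2 N, (1 / ((n : ℝ) - 1) - 1 / (n : ℝ)) = 1 - 1 / (N : ℝ) := by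
    intro N hN
    induction N, hN using Nat.le_induction with
    | base => simp
    | succ k hk ih =>
      rw [Finset.sum_Icc_succ_top (by omega), ih]
      push_cast
      ring
  rw [h5 N hN]
  have h6 : (0 : ℝ) < 1 / N := by
    have : (0 : ℝ) < N := by exact_mod_cast hN
    positivity
  have h7 : (0 : ℝ) < 2 ^ (2 - s.re) := by positivity
  nlinarith

lemma zeta_near {s : ℂ} (hs : 2 ≤ s.re) : ‖riemannZeta s - 1‖ ≤ 2 ^ (2 - s.re) := by
  have hs1 : 1 < s.re := by linarith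
  have e1 := zeta_eq_tsum_one_div_nat_add_one_cpow hs1
  have hsum : Summable (fun n : ℕ => 1 / ((n : ℂ) + 1) ^ s) := by
    have h := (Complex.summable_one_div_nat_cpow (p := s)).mpr hs1
    have h2 := (summable_nat_add_iff 1).mpr h
    refine h2.congr fun n => ?_
    push_cast
    rfl
  have e2 := hsum.tsum_eq_zero_add
  have e3 : riemannZeta s - 1 = ∑' n : ℕ, 1 / (((n + 1 : ℕ) : ℂ) + 1) ^ s := by
    rw [e1, e2]
    simp
  rw [e3]
  have hterm : ∀ n : ℕ, ‖1 / (((n + 1 : ℕ) : ℂ) + 1) ^ s‖ ≤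
      2 ^ (2 - s.re) * (1 / ((n : ℝ) + 1) - 1 / ((n : ℝ) + 2)) := by
    intro n
    have h1 := term_bound (n := n + 2) (by omega) hs
    have h2 : (1 : ℂ) / (((n + 1 : ℕ) : ℂ) + 1) ^ s = ((n + 2 : ℕ) : ℂ) ^ (-s) := by
      rw [Complex.cpow_neg, one_div]
      congr 2
      push_cast
      ring
    rw [h2]
    refine h1.trans (le_of_eq ?_)
    congr 2
    · push_cast
      ring
    · push_cast
      ring
  have htel : HasSum (fun n : ℕ => (1 / ((n : ℝ) + 1) - 1 / ((n : ℝ) + 2))) 1 := by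
    have h0 : ∀ n : ℕ, 0 ≤ (1 / ((n : ℝ) + 1) - 1 / ((n : ℝ) + 2)) := by
      intro n
      have : (1 : ℝ) / ((n : ℝ) + 2) ≤ 1 / ((n : ℝ) + 1) := by
        apply one_div_le_one_div_of_le
        · positivity
        · linarith
      linarith
    rw [hasSum_iff_tendsto_nat_of_nonneg h0]
    have h1 : ∀ N : ℕ, ∑ n ∈ Finset.range N, (1 / ((n : ℝ) + 1) - 1 / ((n : ℝ) + 2)) = 1 - 1 / ((N : ℝ) + 1) := by
      intro N
      induction N with
      | zero => simp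
      | succ k ih =>
        rw [Finset.sum_range_succ, ih]
        push_cast
        ring
    simp_rw [h1]
    have h2 := tendsto_one_div_add_atTop_nhds_zero_nat (𝕜 := ℝ)
    have h3 := (tendsto_const_nhds (x := (1 : ℝ))).sub h2
    simpa using h3
  have := tsum_of_norm_bounded (htel.mul_left (2 ^ (2 - s.re) : ℝ)) hterm
  simpa using this

/-- the function of the half plane -/
noncomputable def FF (N : ℕ) (K : ℝ) (z : ℂ) : ℂ :=
  ZE (1 / 2 + z) / (z + 3 / 2) * M N (1 / 2 + z) * ((K : ℂ) / (z + K)) ^ 2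

/-- the open half plane -/
def UU : Set ℂ := {z : ℂ | -1 < z.re}

lemma UU_open : IsOpen UU := isOpen_lt continuous_const Complex.continuous_re

lemma ne32 {z : ℂ} (hz : -1 < z.re) : z + 3 / 2 ≠ 0 := by
  intro h
  have := congrArg Complex.re h
  simp at this
  norm_num at this
  linarith

lemma neK {z : ℂ} {K : ℝ} (hK : 1 ≤ K) (hz : -1 < z.re) : z + K ≠ 0 := by
  intro h
  have := congrArg Complex.re h
  simp at this
  linarith

lemma FF_diff (N : ℕ) {K : ℝ} (hK : 1 ≤ K) : DifferentiableOn ℂ (FF N K) UU := by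
  intro z hz
  apply DifferentiableAt.differentiableWithinAt
  have hz' : -1 < z.re := hz
  have h1 : Differentiable ℂ ZE := H448R2.GC.zeta_one_entire
  have h2 : DifferentiableAt ℂ (fun z : ℂ => (K : ℂ) / (z + K)) z :=
    DifferentiableAt.fun_div (by fun_prop) (by fun_prop) (neK hK hz')
  have h3 : DifferentiableAt ℂ (fun z : ℂ => ZE (1 / 2 + z)) z := (h1 _).comp z (by fun_prop)
  have h4 : DifferentiableAt ℂ (fun z : ℂ => M N (1 / 2 + z)) z :=
    ((M_diff N) _).comp z (by fun_prop)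
  have h5 : DifferentiableAt ℂ (fun z : ℂ => ZE (1 / 2 + z) / (z + 3 / 2)) z :=
    DifferentiableAt.fun_div h3 (by fun_prop) (ne32 hz')
  exact (h5.mul h4).mul (h2.pow 2)

lemma quot_le {z : ℂ} (hz : 0 ≤ z.re) : ‖z - 1 / 2‖ ≤ ‖z + 3 / 2‖ := by
  rw [Complex.norm_def, Complex.norm_def]
  apply Real.sqrt_le_sqrt
  rw [Complex.normSq_apply, Complex.normSq_apply]
  simp
  norm_num
  nlinarith

lemma ZE_bound : ∃ C : ℝ, 0 < C ∧ ∀ z : ℂ, 0 ≤ z.re →
    ‖ZE (1 / 2 + z) / (z + 3 / 2)‖ ≤ C * (1 + ‖z‖) ^ 2 := by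
  obtain ⟨C1, hC1, h1⟩ := Pool.Agent.H52R4.PZT1.zeta_strip
  -- compact part
  have hcomp : IsCompact (Set.Icc (0 : ℝ) (3 / 2) ×ℂ Set.Icc (-1 : ℝ) 1) :=
    isCompact_Icc.reProdIm isCompact_Icc
  have hcont : ContinuousOn (fun z : ℂ => ZE (1 / 2 + z) / (z + 3 / 2))
      (Set.Icc (0 : ℝ) (3 / 2) ×ℂ Set.Icc (-1 : ℝ) 1) := by
    have h2 : Continuous ZE := (H448R2.GC.zeta_one_entire).continuous
    refine ContinuousOn.div (by fun_prop) (by fun_prop) ?_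
    intro z hz
    rw [Complex.mem_reProdIm] at hz
    exact ne32 (by linarith [hz.1.1])
  obtain ⟨C2, hC2⟩ := hcomp.exists_bound_of_continuousOn hcont
  refine ⟨C1 + 2 + |C2|, by positivity, fun z hz => ?_⟩
  have hz0 : 0 ≤ ‖z‖ := norm_nonneg z
  have hone : 1 ≤ (1 + ‖z‖) ^ 2 := by nlinarith
  have habs : 0 ≤ |C2| := abs_nonneg _
  by_cases hc : z.re ≤ 3 / 2 ∧ |z.im| ≤ 1
  · have h3 := hC2 z (by
      rw [Complex.mem_reProdIm]
      exact ⟨⟨hz, hc.1⟩, abs_le.mp hc.2⟩)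
    refine h3.trans ((le_abs_self C2).trans ?_)
    nlinarith
  · have hne : 1 / 2 + z ≠ 1 := by
      intro h
      apply hc
      have h3 : z = 1 / 2 := by
        have : z = (1 / 2 + z) - 1 / 2 := by ring
        rw [this, h]; norm_num
      rw [h3]
      norm_num
    have e1 : ‖ZE (1 / 2 + z) / (z + 3 / 2)‖ ≤ ‖riemannZeta (1 / 2 + z)‖ := by
      rw [ZE_eq hne, norm_div, norm_mul]
      have h3 : (1 / 2 + z - 1 : ℂ) = z - 1 / 2 := by ring
      rw [h3]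
      have h4 := quot_le hz
      have h5 : 0 < ‖z + 3 / 2‖ := norm_pos_iff.mpr (ne32 (by linarith))
      rw [div_le_iff₀ h5]
      have h6 := norm_nonneg (riemannZeta (1 / 2 + z))
      nlinarith
    refine e1.trans ?_
    by_cases hr : z.re ≤ 3 / 2
    · have him : 1 ≤ |z.im| := by
        by_contra hcon
        exact hc ⟨hr, by linarith⟩
      have h3 := h1 (1 / 2 + z) (by simp; norm_num; linarith) (by simp; norm_num; linarith)
        (by simpa using him)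
      refine h3.trans ?_
      have h4 : (1 / 2 + z : ℂ).im = z.im := by simp
      rw [h4]
      have h5 : |z.im| ≤ ‖z‖ := Complex.abs_im_le_norm z
      have h6 : |z.im| ^ 2 ≤ (1 + ‖z‖) ^ 2 := by
        apply pow_le_pow_left₀ (abs_nonneg _)
        linarith
      have h7 : C1 * |z.im| ^ 2 ≤ C1 * (1 + ‖z‖) ^ 2 := mul_le_mul_of_nonneg_left h6 hC1.le
      nlinarith
    · push Not at hr
      have h3 : 2 ≤ (1 / 2 + z).re := by simp; norm_num; linarith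
      have h4 := zeta_near h3
      have h5 : (2 : ℝ) ^ (2 - (1 / 2 + z).re) ≤ 1 := by
        apply Real.rpow_le_one_of_one_le_of_nonpos (by norm_num)
        linarith
      have h6 : ‖riemannZeta (1 / 2 + z)‖ ≤ 2 := by
        have : riemannZeta (1 / 2 + z) = (riemannZeta (1 / 2 + z) - 1) + 1 := by ring
        rw [this]
        refine (norm_add_le _ _).trans ?_
        simp only [norm_one]
        linarith
      nlinarith

lemma damp_norm {K : ℝ} (hK : 1 ≤ K) {z : ℂ} (hz : 0 ≤ z.re) :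
    ‖(K : ℂ) / (z + K)‖ ≤ 1 ∧ (1 + ‖z‖) * ‖(K : ℂ) / (z + K)‖ ≤ 2 * K := by
  have hpos : 0 < ‖z + K‖ := norm_pos_iff.mpr (neK hK (by linarith))
  have h1 : K ≤ ‖z + K‖ := by
    refine le_trans ?_ (Complex.re_le_norm _)
    simp
    linarith
  have h2 : ‖z‖ ≤ ‖z + K‖ := by
    rw [Complex.norm_def, Complex.norm_def]
    apply Real.sqrt_le_sqrt
    rw [Complex.normSq_apply, Complex.normSq_apply]
    simp
    nlinarith
  have h3 : ‖(K : ℂ) / (z + K)‖ = K / ‖z + K‖ := by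
    rw [norm_div, Complex.norm_real, Real.norm_eq_abs, abs_of_nonneg (by linarith)]
  rw [h3]
  constructor
  · rw [div_le_one hpos]; exact h1
  · rw [← mul_div_assoc, div_le_iff₀ hpos]
    nlinarith [norm_nonneg z]

lemma FF_bdd (N : ℕ) {K : ℝ} (hK : 1 ≤ K) : ∃ C : ℝ, ∀ z : ℂ, 0 ≤ z.re → ‖FF N K z‖ ≤ C := by
  obtain ⟨C, hC, h⟩ := ZE_bound
  refine ⟨C * (2 * K) ^ 2 * N, fun z hz => ?_⟩
  unfold FF
  rw [norm_mul, norm_mul, norm_pow]
  have h1 := h z hz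
  have h2 : ‖M N (1 / 2 + z)‖ ≤ N := M_norm N (by simp; norm_num; linarith)
  obtain ⟨h3, h4⟩ := damp_norm hK hz
  set d := ‖(K : ℂ) / (z + K)‖ with hd
  have hd0 : 0 ≤ d := norm_nonneg _
  calc ‖ZE (1 / 2 + z) / (z + 3 / 2)‖ * ‖M N (1 / 2 + z)‖ * d ^ 2
      ≤ (C * (1 + ‖z‖) ^ 2) * N * d ^ 2 := by gcongr
    _ = C * ((1 + ‖z‖) * d) ^ 2 * N := by ring
    _ ≤ C * (2 * K) ^ 2 * N := by gcongr

lemma FF_line (N : ℕ) {K : ℝ} (hK : 1 ≤ K) (v : ℝ) : ‖FF N K (v * I)‖ ^ 2 ≤ q N v := by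
  unfold FF q
  have hne : (1 / 2 + v * I : ℂ) ≠ 1 := by
    intro h
    have := congrArg Complex.re h
    norm_num at this
  have h1 : ‖ZE (1 / 2 + v * I) / (v * I + 3 / 2)‖ ≤ ‖riemannZeta (1 / 2 + v * I)‖ := by
    rw [ZE_eq hne, norm_div, norm_mul]
    have h3 : (1 / 2 + v * I - 1 : ℂ) = v * I - 1 / 2 := by ring
    rw [h3]
    have h4 := quot_le (z := v * I) (by simp)
    have h5 : 0 < ‖(v * I : ℂ) + 3 / 2‖ := norm_pos_iff.mpr (ne32 (by simp))
    rw [div_le_iff₀ h5]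
    have h6 := norm_nonneg (riemannZeta (1 / 2 + v * I))
    nlinarith
  obtain ⟨h3, h4⟩ := damp_norm hK (z := v * I) (by simp)
  rw [norm_mul, norm_mul, norm_pow]
  set d := ‖(K : ℂ) / (v * I + K)‖ with hd
  have hd0 : 0 ≤ d := norm_nonneg _
  have hd1 : d ^ 2 ≤ 1 := pow_le_one₀ hd0 h3
  have hm : ‖ZE (1 / 2 + v * I) / (v * I + 3 / 2)‖ * ‖M N (1 / 2 + v * I)‖ * d ^ 2 ≤
      ‖riemannZeta (1 / 2 + v * I)‖ * ‖M N (1 / 2 + v * I)‖ := by
    calc _ ≤ ‖riemannZeta (1 / 2 + v * I)‖ * ‖M N (1 / 2 + v * I)‖ * 1 := by gcongr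
      _ = _ := mul_one _
  calc _ ≤ (‖riemannZeta (1 / 2 + v * I)‖ * ‖M N (1 / 2 + v * I)‖) ^ 2 := by gcongr
    _ = _ := by ring

lemma q_le : ∃ C : ℝ, 0 < C ∧ ∀ (N : ℕ) (v : ℝ), q N v ≤ C * N * (1 + |v|) ^ (2 / 5 : ℝ) := by
  obtain ⟨C, hC, h⟩ := zeta_growth
  refine ⟨C ^ 2 * 4, by positivity, fun N v => ?_⟩
  unfold q
  have h1 := h v
  have h2 : ‖M N (1 / 2 + v * I)‖ ^ 2 ≤ 4 * N := M_norm_half N (by simp)
  have h3 : ‖riemannZeta (1 / 2 + v * I)‖ ^ 2 ≤ C ^ 2 * (1 + |v|) ^ (2 / 5 : ℝ) := by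
    have h4 : ‖riemannZeta (1 / 2 + v * I)‖ ^ 2 ≤ (C * (1 + |v|) ^ (1 / 5 : ℝ)) ^ 2 := by gcongr
    refine h4.trans (le_of_eq ?_)
    rw [mul_pow, ← Real.rpow_natCast ((1 + |v|) ^ (1 / 5 : ℝ)) 2, ← Real.rpow_mul (by positivity)]
    norm_num
  calc _ ≤ (C ^ 2 * (1 + |v|) ^ (2 / 5 : ℝ)) * (4 * N) := by gcongr
    _ = _ := by ring

/-- zeros of zeta are zeros of `FF` -/
lemma FF_order (N : ℕ) {K : ℝ} (hK : 1 ≤ K) {ρ : ℂ} (h0 : 1 / 2 < ρ.re) (h1 : ρ ≠ 1) :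
    analyticOrderAt riemannZeta ρ ≤ analyticOrderAt (FF N K) (ρ - 1 / 2) := by
  -- FF = (ζ ∘ shift) * g near ρ - 1/2
  set g : ℂ → ℂ := fun z => (z - 1 / 2) / (z + 3 / 2) * M N (1 / 2 + z) * ((K : ℂ) / (z + K)) ^ 2 with hg
  have hre : -1 < (ρ - 1 / 2).re := by simp; norm_num; linarith
  have hg1 : AnalyticAt ℂ g (ρ - 1 / 2) := by
    have hd : DifferentiableOn ℂ g UU := by
      intro z hz
      apply DifferentiableAt.differentiableWithinAt
      have hz' : -1 < z.re := hz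
      have h2 : DifferentiableAt ℂ (fun z : ℂ => (K : ℂ) / (z + K)) z :=
        DifferentiableAt.fun_div (by fun_prop) (by fun_prop) (neK hK hz')
      have h4 : DifferentiableAt ℂ (fun z : ℂ => M N (1 / 2 + z)) z :=
        ((M_diff N) _).comp z (by fun_prop)
      have h5 : DifferentiableAt ℂ (fun z : ℂ => (z - 1 / 2) / (z + 3 / 2)) z :=
        DifferentiableAt.fun_div (by fun_prop) (by fun_prop) (ne32 hz')
      exact (h5.mul h4).mul (h2.pow 2)
    exact hd.analyticAt (UU_open.mem_nhds hre)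
  have hz : AnalyticAt ℂ riemannZeta ρ := by
    have hd : DifferentiableOn ℂ riemannZeta {1}ᶜ := fun z hz =>
      (differentiableAt_riemannZeta hz).differentiableWithinAt
    exact hd.analyticAt (isOpen_compl_singleton.mem_nhds h1)
  have hsh : AnalyticAt ℂ (fun z : ℂ => 1 / 2 + z) (ρ - 1 / 2) := by fun_prop
  have hval : (1 / 2 + (ρ - 1 / 2) : ℂ) = ρ := by ring
  have hzc : AnalyticAt ℂ (fun z => riemannZeta (1 / 2 + z)) (ρ - 1 / 2) := by
    have hz' : AnalyticAt ℂ riemannZeta ((fun z : ℂ => 1 / 2 + z) (ρ - 1 / 2)) := by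
      show AnalyticAt ℂ riemannZeta (1 / 2 + (ρ - 1 / 2))
      rw [hval]; exact hz
    exact hz'.comp hsh
  have heq : FF N K =ᶠ[𝓝 (ρ - 1 / 2)] fun z => riemannZeta (1 / 2 + z) * g z := by
    have hopen : IsOpen {z : ℂ | 1 / 2 + z ≠ 1} := isOpen_ne_fun (by fun_prop) (by fun_prop)
    have hmem : (ρ - 1 / 2) ∈ {z : ℂ | 1 / 2 + z ≠ 1} := by
      show (1 / 2 + (ρ - 1 / 2) : ℂ) ≠ 1
      rw [hval]; exact h1
    filter_upwards [hopen.mem_nhds hmem] with z hz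
    have hz' : 1 / 2 + z ≠ 1 := hz
    unfold FF
    rw [ZE_eq hz', hg]
    ring
  rw [analyticOrderAt_congr heq]
  have hmul : analyticOrderAt (fun z => riemannZeta (1 / 2 + z) * g z) (ρ - 1 / 2) =
      analyticOrderAt (fun z => riemannZeta (1 / 2 + z)) (ρ - 1 / 2) + analyticOrderAt g (ρ - 1 / 2) :=
    analyticOrderAt_mul hzc hg1
  rw [hmul]
  have hcomp : analyticOrderAt (fun z => riemannZeta (1 / 2 + z)) (ρ - 1 / 2) = analyticOrderAt riemannZeta ρ := by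
    have h2 : deriv (fun z : ℂ => 1 / 2 + z) (ρ - 1 / 2) ≠ 0 := by
      simp
    have h3 := analyticOrderAt_comp_of_deriv_ne_zero (f := riemannZeta) (g := fun z : ℂ => 1 / 2 + z) hsh h2
    have h4 : (riemannZeta ∘ fun z : ℂ => 1 / 2 + z) = fun z => riemannZeta (1 / 2 + z) := rfl
    rw [h4] at h3
    rw [h3, hval]
  rw [hcomp]
  exact le_self_add

end Pool.Agent.J4H4.ZF
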